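import Pool.Agent.H30.DH.Descent

open MeasureTheory Set Filter Topology

namespace DH

theorem PP.mono {E : Type*} [NormedAddCommGroup E] [NormedSpace ℂ E] {ρ D Λ Λ' : ℝ}
    (h : PP E ρ D Λ) (hL : Λ ≤ Λ') : PP E ρ D Λ' := by
  intro γ a b k hc hD
  exact (h γ a b k hc hD).trans
    (mul_le_mul_of_nonneg_right hL (integral_nonneg fun w => norm_nonneg _))

/-- The core lemma. -/
theorem core : ∃ C0 : ℝ, 0 < C0 ∧ ∀ (ρ : ℝ), 0 < ρ → ∀ (γ : ℝ → ℂ) (a b : ℝ) (k : ℂ → ℂ × ℂ),
    Config ρ γ a b k → ‖γ b - γ a‖ ≤ C0 * ∫ w, ‖k w‖ := by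
  obtain ⟨C0, hC0, hdesc⟩ := descent
  refine ⟨C0, hC0, fun ρ hρ γ a b k hc => ?_⟩
  set D := ‖γ b - γ a‖ with hD
  -- a priori bound
  have h0 : ∀ n : ℕ, PP (ℂ × ℂ) ρ D (max C0 (3 * D / ρ / 2 ^ n)) := by
    intro n
    induction n with
    | zero =>
      intro γ' a' b' k' hc' hD'
      have hm := hc'.mass hρ
      have hDn : 0 ≤ D := norm_nonneg _
      have h1 : D ≤ (3 * D / ρ) * ∫ w, ‖k' w‖ := by
        calc D = (3 * D / ρ) * (ρ / 3) := by field_simp
          _ ≤ (3 * D / ρ) * ∫ w, ‖k' w‖ := by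
            apply mul_le_mul_of_nonneg_left hm
            positivity
      refine hD'.trans (h1.trans ?_)
      apply mul_le_mul_of_nonneg_right _ (integral_nonneg fun w => norm_nonneg _)
      simp
    | succ n ih =>
      rcases le_total (3 * D / ρ / 2 ^ n) C0 with h | h
      · refine ih.mono ?_
        rw [max_eq_left h]
        exact le_max_left _ _
      · rw [max_eq_right h] at ih
        have := hdesc ρ D _ hρ h ih
        refine this.mono ?_
        refine le_trans (le_of_eq ?_) (le_max_right _ _)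
        rw [pow_succ]
        field_simp
  have h1 : ∃ n : ℕ, 3 * D / ρ / 2 ^ n ≤ C0 := by
    obtain ⟨n, hn⟩ := pow_unbounded_of_one_lt (3 * D / ρ / C0) (one_lt_two)
    refine ⟨n, ?_⟩
    rw [div_le_iff₀ (by positivity)]
    rw [div_lt_iff₀ hC0] at hn
    linarith
  obtain ⟨n, hn⟩ := h1
  have := h0 n γ a b k hc le_rfl
  rwa [max_eq_left hn] at this

end DH
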