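import Pool.Agent.H30.DH.Repr
import Pool.Agent.H30.DH.Core

open MeasureTheory Set Filter Topology

namespace DH

/-- selection of the sub-arc -/
private lemma app_subarc {ζ : ℂ} (γ : ℝ → ℂ) (hγc : ContinuousOn γ (Ico 0 1))
    (hγ : Tendsto γ (𝓝[<] 1) (𝓝 ζ)) {T : ℝ} (hT0 : 0 ≤ T) (hT1 : T < 1) {s : ℝ} (hs : 0 < s)
    (hsT : 2 * s ≤ ‖γ T - ζ‖) :
    ∃ t1 t2 : ℝ, T ≤ t1 ∧ t1 ≤ t2 ∧ t2 < 1 ∧ s ≤ ‖γ t2 - γ t1‖ ∧
      ∀ t ∈ Icc t1 t2, s ≤ ‖γ t - ζ‖ ∧ ‖γ t - ζ‖ ≤ 2 * s := by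
  -- an end time
  have hend : ∃ te : ℝ, T < te ∧ te < 1 ∧ ‖γ te - ζ‖ ≤ s := by
    have h1 : ∀ᶠ t in 𝓝[<] (1:ℝ), ‖γ t - ζ‖ < s := by
      have := (Metric.tendsto_nhds.mp hγ) s hs
      filter_upwards [this] with t ht
      rwa [dist_eq_norm] at ht
    have h2 : ∀ᶠ t in 𝓝[<] (1:ℝ), T < t ∧ t < 1 := by
      filter_upwards [Ioo_mem_nhdsLT hT1] with t ht using ht
    obtain ⟨te, h3, h4⟩ := (h1.and h2).exists
    exact ⟨te, h4.1, h4.2, h3.le⟩
  obtain ⟨te, hTe, hte1, hte⟩ := hend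
  set f : ℝ → ℝ := fun t => ‖γ t - ζ‖ with hf
  have hfc : ContinuousOn f (Ico 0 1) := (hγc.sub continuousOn_const).norm
  have hsub : Icc T te ⊆ Ico (0:ℝ) 1 := fun t ht => ⟨hT0.trans ht.1, ht.2.trans_lt hte1⟩
  have hfc' : ContinuousOn f (Icc T te) := hfc.mono hsub
  -- the last time with `f ≥ 2 s`
  obtain ⟨t1, ht1⟩ : ∃ t1, IsGreatest (Icc T te ∩ f ⁻¹' (Ici (2 * s))) t1 := by
    refine IsCompact.exists_isGreatest ?_ ⟨T, ⟨le_rfl, hTe.le⟩, hsT⟩
    exact isCompact_Icc.of_isClosed_subset (hfc'.preimage_isClosed_of_isClosed isClosed_Icc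
      isClosed_Ici) inter_subset_left
  have hft1 : f t1 = 2 * s := by
    have hIV := intermediate_value_Icc' ht1.1.1.2 (hfc'.mono (Icc_subset_Icc_left ht1.1.1.1))
    have h2s : 2 * s ∈ Icc (f te) (f t1) := ⟨by change ‖γ te - ζ‖ ≤ 2 * s; linarith, ht1.1.2⟩
    obtain ⟨t', ht', hft'⟩ := hIV h2s
    have : t' ≤ t1 := ht1.2 ⟨⟨ht1.1.1.1.trans ht'.1, ht'.2⟩, hft'.ge⟩
    have : t' = t1 := le_antisymm this ht'.1
    rw [← this, hft']
  have hub : ∀ t ∈ Icc t1 te, f t ≤ 2 * s := by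
    intro t ht
    rcases eq_or_lt_of_le ht.1 with h | h
    · rw [← h, hft1]
    · by_contra hcon
      push Not at hcon
      have : t ≤ t1 := ht1.2 ⟨⟨ht1.1.1.1.trans ht.1, ht.2⟩, hcon.le⟩
      linarith
  obtain ⟨t2, ht2⟩ : ∃ t2, IsLeast (Icc t1 te ∩ f ⁻¹' (Iic s)) t2 := by
    refine IsCompact.exists_isLeast ?_ ⟨te, ⟨ht1.1.1.2, le_rfl⟩, hte⟩
    exact isCompact_Icc.of_isClosed_subset ((hfc'.mono
      (Icc_subset_Icc_left ht1.1.1.1)).preimage_isClosed_of_isClosed isClosed_Icc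
      isClosed_Iic) inter_subset_left
  have hft2 : f t2 = s := by
    have hIV := intermediate_value_Icc' ht2.1.1.1 (hfc'.mono (Icc_subset_Icc ht1.1.1.1 ht2.1.1.2))
    have hss : s ∈ Icc (f t2) (f t1) := ⟨ht2.1.2, by rw [hft1]; linarith⟩
    obtain ⟨t', ht', hft'⟩ := hIV hss
    have : t2 ≤ t' := ht2.2 ⟨⟨ht'.1, ht'.2.trans ht2.1.1.2⟩, hft'.le⟩
    have : t' = t2 := le_antisymm ht'.2 this
    rw [← this, hft']
  have hlb : ∀ t ∈ Icc t1 t2, s ≤ f t := by
    intro t ht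
    rcases eq_or_lt_of_le ht.2 with h | h
    · rw [h, hft2]
    · by_contra hcon
      push Not at hcon
      have : t2 ≤ t := ht2.2 ⟨⟨ht.1, ht.2.trans ht2.1.1.2⟩, hcon.le⟩
      linarith
  refine ⟨t1, t2, ht1.1.1.1, ht2.1.1.1, ht2.1.1.2.trans_lt hte1, ?_, fun t ht =>
    ⟨hlb t ht, hub t ⟨ht.1, ht.2.trans ht2.1.1.2⟩⟩⟩
  have h1 : ‖γ t1 - ζ‖ ≤ ‖γ t2 - γ t1‖ + ‖γ t2 - ζ‖ := by
    have : γ t1 - ζ = -(γ t2 - γ t1) + (γ t2 - ζ) := by ring
    rw [this]
    exact (norm_add_le _ _).trans (by rw [norm_neg])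
  have h2 : ‖γ t1 - ζ‖ = 2 * s := hft1
  have h3 : ‖γ t2 - ζ‖ = s := hft2
  linarith

/-- truncation -/
private lemma app_trunc {k : ℂ → ℂ × ℂ} (hk : Integrable k) (hkm : StronglyMeasurable k) {ε : ℝ}
    (hε : 0 < ε) : ∃ j : ℕ, ∫ w, ‖({w | (j:ℝ) < ‖k w‖}.indicator k) w‖ < ε := by
  have hlim : Tendsto (fun j : ℕ => ∫ w, ‖({w | (j:ℝ) < ‖k w‖}.indicator k) w‖) atTop
      (𝓝 (∫ _ : ℂ, (0:ℝ))) := by
    refine tendsto_integral_of_dominated_convergence (fun w => ‖k w‖) ?_ hk.norm ?_ ?_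
    · intro j
      have hm : MeasurableSet {w | (j:ℝ) < ‖k w‖} :=
        measurableSet_lt measurable_const hkm.norm.measurable
      exact (hkm.indicator hm).norm.aestronglyMeasurable
    · intro j
      refine Eventually.of_forall fun w => ?_
      rw [norm_norm]
      exact norm_indicator_le_norm_self _ _
    · refine Eventually.of_forall fun w => ?_
      obtain ⟨n, hn⟩ := exists_nat_ge ‖k w‖
      refine tendsto_const_nhds.congr' ?_
      filter_upwards [eventually_ge_atTop n] with j hj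
      have : w ∉ {w | (j:ℝ) < ‖k w‖} := by
        rw [mem_ofPred_eq, not_lt]
        exact hn.trans (by exact_mod_cast hj)
      rw [indicator_of_notMem this, norm_zero]
  rw [integral_zero] at hlim
  exact (hlim.eventually (gt_mem_nhds hε)).exists

/-- absolute continuity -/
private lemma app_small_ball {k : ℂ → ℂ × ℂ} (hk : Integrable k) (ζ : ℂ) {ε : ℝ}
    (hε : 0 < ε) : ∃ r : ℝ, 0 < r ∧ ∀ r' ≤ r, ∫ w in Metric.closedBall ζ r', ‖k w‖ < ε := by
  have hanti : Antitone (fun n : ℕ => Metric.closedBall ζ (1 / ((n:ℝ) + 1))) := by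
    intro m n hmn
    refine Metric.closedBall_subset_closedBall ?_
    have : (m:ℝ) ≤ n := by exact_mod_cast hmn
    exact one_div_le_one_div_of_le (by positivity) (by linarith)
  have hlim := tendsto_setIntegral_of_antitone (μ := volume) (f := fun w => ‖k w‖)
    (fun n : ℕ => (Metric.isClosed_closedBall (x := ζ) (ε := 1 / ((n:ℝ) + 1))).measurableSet)
    hanti ⟨0, hk.norm.integrableOn⟩
  have hint : (⋂ n : ℕ, Metric.closedBall ζ (1 / ((n:ℝ) + 1))) = {ζ} := by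
    ext x
    simp only [mem_iInter, Metric.mem_closedBall, mem_singleton_iff]
    constructor
    · intro h
      have : dist x ζ ≤ 0 := ge_of_tendsto' tendsto_one_div_add_atTop_nhds_zero_nat h
      exact dist_le_zero.mp this
    · rintro rfl n
      rw [dist_self]
      positivity
  rw [hint] at hlim
  have h0 : ∫ w in ({ζ} : Set ℂ), ‖k w‖ = 0 := by
    rw [Measure.restrict_eq_zero.mpr (measure_singleton ζ), integral_zero_measure]
  rw [h0] at hlim
  obtain ⟨n, hn⟩ := (hlim.eventually (gt_mem_nhds hε)).exists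
  refine ⟨1 / ((n:ℝ) + 1), by positivity, fun r' hr' => lt_of_le_of_lt ?_ hn⟩
  exact setIntegral_mono_set hk.norm.integrableOn (Eventually.of_forall fun w => norm_nonneg _)
    (Metric.closedBall_subset_closedBall hr').eventuallyLE

private lemma app_CT_indicator {A : Set ℂ} (hA : MeasurableSet A) (k : ℂ → ℂ × ℂ) (a : ℂ) :
    CT (A.indicator k) a = ∫ w in A, (w - a)⁻¹ • k w := by
  rw [← integral_indicator hA]
  refine integral_congr_ae (Eventually.of_forall fun w => ?_)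
  by_cases hw : w ∈ A
  · simp [hw]
  · simp [hw]

/-- the key estimate at one scale -/
private lemma app_scale {k : ℂ → ℂ × ℂ} (hk : Integrable k) (hkm : StronglyMeasurable k)
    {C0 : ℝ} (hC0 : 0 < C0)
    (hcore : ∀ (ρ : ℝ), 0 < ρ → ∀ (γ : ℝ → ℂ) (a b : ℝ) (k : ℂ → ℂ × ℂ),
      Config ρ γ a b k → ‖γ b - γ a‖ ≤ C0 * ∫ w, ‖k w‖)
    {ζ : ℂ} {s η : ℝ} (hs : 0 < s) (hη : 0 < η)
    (hsmall : ∫ w in Metric.closedBall ζ (√s), ‖k w‖ < η / C0)
    {γ : ℝ → ℂ} {t1 t2 : ℝ} (h12 : t1 ≤ t2) (hγ : Continuous γ)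
    (hdist : s ≤ ‖γ t2 - γ t1‖) {ρ : ℝ} (hρ : 0 < ρ) (Q : ℂ → Prop) (hQ : ∀ᵐ a : ℂ, Q a) :
    ∃ t ∈ Icc t1 t2, ∃ a ∈ Metric.closedBall (γ t) ρ, Q a ∧
      Integrable (fun w => (w - a)⁻¹ • k w) ∧
      ‖CT ({w | s / 4 < ‖w - ζ‖ ∧ ‖w - ζ‖ < √s}.indicator k) a‖ ≤ 2 * η / s := by
  have hπ := Real.pi_pos
  set S : Set ℂ := {w | s / 4 < ‖w - ζ‖ ∧ ‖w - ζ‖ < √s} with hS
  have hSm : MeasurableSet S := by
    have h1 : MeasurableSet {w : ℂ | s / 4 < ‖w - ζ‖} :=
      measurableSet_lt measurable_const (measurable_id.sub_const ζ).norm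
    have h2 : MeasurableSet {w : ℂ | ‖w - ζ‖ < √s} :=
      measurableSet_lt (measurable_id.sub_const ζ).norm measurable_const
    exact h1.inter h2
  have hSsub : S ⊆ Metric.closedBall ζ (√s) := by
    intro w hw
    rw [Metric.mem_closedBall, dist_eq_norm]
    exact hw.2.le
  obtain ⟨j, hj⟩ := app_trunc hk hkm (ε := ρ * η / (3 * s)) (by positivity)
  set A : Set ℂ := S ∩ {w | (j:ℝ) < ‖k w‖}ᶜ with hA
  set R : Set ℂ := S ∩ {w | (j:ℝ) < ‖k w‖} with hR
  have hjm : MeasurableSet {w | (j:ℝ) < ‖k w‖} :=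
    measurableSet_lt measurable_const hkm.norm.measurable
  have hAm : MeasurableSet A := hSm.inter hjm.compl
  have hRm : MeasurableSet R := hSm.inter hjm
  set c : ℝ := s / η with hc
  have hcpos : 0 < c := div_pos hs hη
  -- nice
  have hAnice : Nice (A.indicator k) := by
    refine ⟨hkm.indicator hAm, ⟨j, fun z => ?_⟩, ⟨‖ζ‖ + √s, fun z hz => ?_⟩⟩
    · by_cases hz : z ∈ A
      · rw [indicator_of_mem hz]
        have := hz.2
        rw [mem_compl_iff, mem_ofPred_eq, not_lt] at this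
        exact this
      · rw [indicator_of_notMem hz, norm_zero]
        exact Nat.cast_nonneg j
    · refine indicator_of_notMem (fun hzA => ?_) _
      have h1 : ‖z - ζ‖ < √s := hzA.1.2
      have h2 : ‖z‖ ≤ ‖z - ζ‖ + ‖ζ‖ := by
        simpa using norm_add_le (z - ζ) ζ
      linarith
  have hkjnice : Nice (fun w => (c : ℂ) • A.indicator k w) := hAnice.const_smul _
  have hRint : Integrable (R.indicator k) := hk.indicator hRm
  -- the point t
  obtain ⟨t, ht, hlt⟩ : ∃ t ∈ Icc t1 t2,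
      ∫ z in Metric.closedBall (γ t) ρ, ‖CT (fun w => (c : ℂ) • A.indicator k w) z‖
        < Real.pi * ρ ^ 2 := by
    by_contra hcon
    push Not at hcon
    have h1 := hcore ρ hρ γ t1 t2 _ ⟨hkjnice, h12, hγ, hcon⟩
    have h2 : ∫ w, ‖(c : ℂ) • A.indicator k w‖ = c * ∫ w, ‖A.indicator k w‖ := by
      rw [← integral_const_mul]
      refine integral_congr_ae (Eventually.of_forall fun w => ?_)
      simp only [norm_smul, Complex.norm_real, Real.norm_eq_abs, abs_of_pos hcpos]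
    have h3 : ∫ w, ‖A.indicator k w‖ ≤ ∫ w in Metric.closedBall ζ (√s), ‖k w‖ := by
      rw [← integral_indicator Metric.isClosed_closedBall.measurableSet]
      refine integral_mono (hk.indicator hAm).norm
        (hk.norm.indicator Metric.isClosed_closedBall.measurableSet) fun w => ?_
      by_cases hw : w ∈ A
      · rw [indicator_of_mem hw, indicator_of_mem (hSsub hw.1)]
      · rw [indicator_of_notMem hw, norm_zero]
        exact indicator_nonneg (fun _ _ => norm_nonneg _) _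
    have h4 : C0 * (c * ∫ w, ‖A.indicator k w‖) < s := by
      have : c * ∫ w, ‖A.indicator k w‖ < c * (η / C0) :=
        mul_lt_mul_of_pos_left (h3.trans_lt hsmall) hcpos
      calc C0 * (c * ∫ w, ‖A.indicator k w‖) < C0 * (c * (η / C0)) :=
            mul_lt_mul_of_pos_left this hC0
        _ = s := by rw [hc]; field_simp
    rw [h2] at h1
    linarith
  set B : Set ℂ := Metric.closedBall (γ t) ρ with hB
  have hBm : MeasurableSet B := Metric.isClosed_closedBall.measurableSet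
  -- integral bounds
  have hcCT : ∀ z, CT (fun w => (c : ℂ) • A.indicator k w) z = (c : ℂ) • CT (A.indicator k) z :=
    fun z => CT_smul _ _ _
  obtain ⟨hI1, -⟩ := setIntegral_norm_CT_le (hk.indicator hAm) (γ t) hρ.le
  obtain ⟨hI2, hI2'⟩ := setIntegral_norm_CT_le hRint (γ t) hρ.le
  have hb1 : ∫ z in B, ‖CT (A.indicator k) z‖ ≤ Real.pi * ρ ^ 2 * (η / s) := by
    have h1 : ∫ z in B, ‖CT (fun w => (c : ℂ) • A.indicator k w) z‖
        = c * ∫ z in B, ‖CT (A.indicator k) z‖ := by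
      rw [← integral_const_mul]
      refine integral_congr_ae (Eventually.of_forall fun w => ?_)
      simp only [hcCT, norm_smul, Complex.norm_real, Real.norm_eq_abs, abs_of_pos hcpos]
    rw [h1] at hlt
    have h2 : ∫ z in B, ‖CT (A.indicator k) z‖ < Real.pi * ρ ^ 2 / c := by
      rw [lt_div_iff₀ hcpos]
      linarith
    refine h2.le.trans (le_of_eq ?_)
    rw [hc]
    field_simp
  have hb2 : ∫ z in B, ‖CT (R.indicator k) z‖ ≤ Real.pi * ρ ^ 2 * (η / s) := by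
    have h1 : ∫ w, ‖R.indicator k w‖ ≤ ρ * η / (3 * s) := by
      refine le_trans ?_ hj.le
      refine integral_mono hRint.norm (hk.indicator hjm).norm fun w => ?_
      exact norm_indicator_le_of_subset inter_subset_right _ _
    refine hI2'.trans ?_
    calc 3 * Real.pi * ρ * ∫ w, ‖R.indicator k w‖ ≤ 3 * Real.pi * ρ * (ρ * η / (3 * s)) :=
          mul_le_mul_of_nonneg_left h1 (by positivity)
      _ = Real.pi * ρ ^ 2 * (η / s) := by field_simp
  set F : ℂ → ℝ := fun z => ‖CT (A.indicator k) z‖ + ‖CT (R.indicator k) z‖ with hF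
  have hFint : IntegrableOn F B := hI1.add hI2
  have hFle : ∫ z in B, F z ≤ Real.pi * ρ ^ 2 * (2 * η / s) := by
    rw [hF, integral_add hI1 hI2]
    have : Real.pi * ρ ^ 2 * (2 * η / s) = Real.pi * ρ ^ 2 * (η / s) + Real.pi * ρ ^ 2 * (η / s) := by
      ring
    rw [this]
    exact add_le_add hb1 hb2
  have hvol : volume B = ENNReal.ofReal ρ ^ 2 * NNReal.pi := by
    rw [hB, Complex.volume_closedBall]
  have hvolr : (volume.restrict B).real univ = Real.pi * ρ ^ 2 := by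
    rw [measureReal_restrict_apply_univ, Measure.real, hvol]
    simp [ENNReal.toReal_mul, ENNReal.toReal_ofReal hρ.le]
    ring
  have hne : volume.restrict B ≠ 0 := by
    intro h0
    rw [h0] at hvolr
    simp only [measureReal_zero_apply] at hvolr
    have : 0 < Real.pi * ρ ^ 2 := by positivity
    linarith
  have : IsFiniteMeasure (volume.restrict B) := by
    refine ⟨?_⟩
    rw [Measure.restrict_apply_univ]
    exact (isCompact_closedBall _ _).measure_lt_top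
  have hae : ∀ᵐ a ∂(volume.restrict B), a ∈ B ∧ Q a ∧ Integrable (fun w => (w - a)⁻¹ • k w) := by
    filter_upwards [ae_restrict_mem hBm, ae_restrict_of_ae hQ,
      ae_restrict_of_ae (ae_integrable_cauchy hk)] with a h1 h2 h3
    exact ⟨h1, h2, h3⟩
  obtain ⟨a, haN, ha⟩ := exists_notMem_null_le_average (μ := volume.restrict B) (f := F)
    (N := {a | ¬ (a ∈ B ∧ Q a ∧ Integrable (fun w => (w - a)⁻¹ • k w))}) hne hFint
    (by simpa [ae_iff] using hae)
  rw [mem_ofPred_eq, not_not] at haN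
  obtain ⟨haB, haQ, haI⟩ := haN
  refine ⟨t, ht, a, haB, haQ, haI, ?_⟩
  have havg : F a ≤ 2 * η / s := by
    refine ha.trans ?_
    rw [average_eq, hvolr, smul_eq_mul, inv_mul_le_iff₀ (by positivity)]
    exact hFle
  have hsplit : CT (S.indicator k) a = CT (A.indicator k) a + CT (R.indicator k) a := by
    rw [app_CT_indicator hSm, app_CT_indicator hAm, app_CT_indicator hRm]
    rw [← setIntegral_union (disjoint_left.mpr fun w h1 h2 => h1.2 h2.2) hRm haI.integrableOn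
      haI.integrableOn]
    congr 2
    rw [hA, hR, ← inter_union_distrib_left, compl_union_self, inter_univ]
  rw [hsplit]
  exact (norm_add_le _ _).trans havg

/-- bound for the inner and outer parts -/
private lemma app_far {k : ℂ → ℂ × ℂ} (hk : Integrable k)
    {ζ a : ℂ} {s : ℝ} (hs : 0 < s) (hs1 : 9 / 4 * s ≤ √s / 2)
    (ha1 : 3 / 4 * s ≤ ‖ζ - a‖) (ha2 : ‖ζ - a‖ ≤ 9 / 4 * s)
    (hI : Integrable (fun w => (w - a)⁻¹ • k w)) :
    ‖(ζ - a) • CT k a‖ ≤ 9 / 4 * s *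
      ‖CT ({w | s / 4 < ‖w - ζ‖ ∧ ‖w - ζ‖ < √s}.indicator k) a‖
      + 9 / 2 * (∫ w in Metric.closedBall ζ (s / 4), ‖k w‖) + 9 / 2 * √s * ∫ w, ‖k w‖ := by
  set S : Set ℂ := {w | s / 4 < ‖w - ζ‖ ∧ ‖w - ζ‖ < √s} with hS
  have hSm : MeasurableSet S := by
    have h1 : MeasurableSet {w : ℂ | s / 4 < ‖w - ζ‖} :=
      measurableSet_lt measurable_const (measurable_id.sub_const ζ).norm
    have h2 : MeasurableSet {w : ℂ | ‖w - ζ‖ < √s} :=
      measurableSet_lt (measurable_id.sub_const ζ).norm measurable_const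
    exact h1.inter h2
  have hsq : 0 < √s := Real.sqrt_pos.mpr hs
  have hsplit : CT k a = CT (S.indicator k) a + ∫ w in Sᶜ, (w - a)⁻¹ • k w := by
    rw [app_CT_indicator hSm, integral_add_compl hSm hI]
    rfl
  have hbound : ‖∫ w in Sᶜ, (w - a)⁻¹ • k w‖ ≤
      2 / s * (∫ w in Metric.closedBall ζ (s / 4), ‖k w‖) + 2 / √s * ∫ w, ‖k w‖ := by
    have hBm : MeasurableSet (Metric.closedBall ζ (s / 4)) :=
      Metric.isClosed_closedBall.measurableSet
    have hg1 : Integrable (fun w => 2 / s * (Metric.closedBall ζ (s / 4)).indicator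
        (fun w => ‖k w‖) w) := (hk.norm.indicator hBm).const_mul _
    have hg2 : Integrable (fun w => 2 / √s * ‖k w‖) := hk.norm.const_mul _
    rw [← integral_indicator hSm.compl, ← integral_indicator hBm, ← integral_const_mul,
      ← integral_const_mul, ← integral_add hg1 hg2]
    refine norm_integral_le_of_norm_le (hg1.add hg2) (Eventually.of_forall fun w => ?_)
    by_cases hw : w ∈ Sᶜ
    · rw [indicator_of_mem hw, norm_smul, norm_inv]
      rw [mem_compl_iff, hS, mem_ofPred_eq, not_and_or, not_lt, not_lt] at hw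
      rcases hw with hw | hw
      · have hwB : w ∈ Metric.closedBall ζ (s / 4) := by
          rw [Metric.mem_closedBall, dist_eq_norm]; exact hw
        rw [indicator_of_mem hwB]
        have h1 : s / 2 ≤ ‖w - a‖ := by
          have : ζ - a = -(w - ζ) + (w - a) := by ring
          have h2 : ‖ζ - a‖ ≤ ‖w - ζ‖ + ‖w - a‖ := by
            rw [this]; exact (norm_add_le _ _).trans (by rw [norm_neg])
          linarith
        have h3 : ‖w - a‖⁻¹ ≤ 2 / s := by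
          rw [show 2 / s = (s / 2)⁻¹ by field_simp]
          exact inv_anti₀ (by positivity) h1
        have h4 : 0 ≤ 2 / √s * ‖k w‖ := by positivity
        have h5 := mul_le_mul_of_nonneg_right h3 (norm_nonneg (k w))
        linarith
      · have h1 : √s / 2 ≤ ‖w - a‖ := by
          have : w - ζ = (w - a) + -(ζ - a) := by ring
          have h2 : ‖w - ζ‖ ≤ ‖w - a‖ + ‖ζ - a‖ := by
            rw [this]; exact (norm_add_le _ _).trans (by rw [norm_neg])
          linarith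
        have h3 : ‖w - a‖⁻¹ ≤ 2 / √s := by
          rw [show 2 / √s = (√s / 2)⁻¹ by field_simp]
          exact inv_anti₀ (by positivity) h1
        have h4 : 0 ≤ 2 / s * (Metric.closedBall ζ (s / 4)).indicator (fun w => ‖k w‖) w :=
          mul_nonneg (by positivity) (indicator_nonneg (fun _ _ => norm_nonneg _) _)
        have h5 := mul_le_mul_of_nonneg_right h3 (norm_nonneg (k w))
        linarith
    · rw [indicator_of_notMem hw, norm_zero]
      have h4 : 0 ≤ 2 / s * (Metric.closedBall ζ (s / 4)).indicator (fun w => ‖k w‖) w :=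
        mul_nonneg (by positivity) (indicator_nonneg (fun _ _ => norm_nonneg _) _)
      positivity
  rw [norm_smul, hsplit]
  have h0 : 0 ≤ ∫ w in Metric.closedBall ζ (s / 4), ‖k w‖ :=
    integral_nonneg fun _ => norm_nonneg _
  have h0' : 0 ≤ ∫ w, ‖k w‖ := integral_nonneg fun _ => norm_nonneg _
  have hss : s = √s * √s := (Real.mul_self_sqrt hs.le).symm
  calc ‖ζ - a‖ * ‖CT (S.indicator k) a + ∫ w in Sᶜ, (w - a)⁻¹ • k w‖
      ≤ (9 / 4 * s) * (‖CT (S.indicator k) a‖ +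
        (2 / s * (∫ w in Metric.closedBall ζ (s / 4), ‖k w‖) + 2 / √s * ∫ w, ‖k w‖)) := by
        refine mul_le_mul ha2 ((norm_add_le _ _).trans (add_le_add le_rfl hbound))
          (norm_nonneg _) (by positivity)
    _ = 9 / 4 * s * ‖CT (S.indicator k) a‖
      + 9 / 2 * (∫ w in Metric.closedBall ζ (s / 4), ‖k w‖)
      + 9 / 2 * (s / √s) * ∫ w, ‖k w‖ := by field_simp; ring
    _ = 9 / 4 * s * ‖CT (S.indicator k) a‖
      + 9 / 2 * (∫ w in Metric.closedBall ζ (s / 4), ‖k w‖)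
      + 9 / 2 * √s * ∫ w, ‖k w‖ := by
        rw [show s / √s = √s from Real.div_sqrt]

/-- From the core lemma: near the end of an arc there are points where `(ζ - a) C k (a)` is small. -/
theorem exists_small {V : Set ℂ} (hV : IsOpen V) {ζ : ℂ} (hζ : ζ ∉ V) (k : ℂ → ℂ × ℂ)
    (hk : Integrable k) (γ : ℝ → ℂ) (hγc : ContinuousOn γ (Ico 0 1)) (hγV : ∀ t ∈ Ico (0:ℝ) 1, γ t ∈ V)
    (hγ : Tendsto γ (𝓝[<] 1) (𝓝 ζ)) (P : ℂ → Prop) (hP : ∀ᵐ a : ℂ, a ∈ V → P a)
    (W : Set ℂ) (hW : IsOpen W) {t0 : ℝ} (ht0 : t0 < 1) (hWγ : ∀ t, t0 ≤ t → t < 1 → 0 ≤ t → γ t ∈ W)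
    (η : ℝ) (hη : 0 < η) :
    ∃ a ∈ V ∩ W, P a ∧ ‖(ζ - a) • CT k a‖ ≤ η := by
  obtain ⟨C0, hC0, hcore⟩ := core
  -- strongly measurable representative
  set k1 : ℂ → ℂ × ℂ := hk.1.mk k with hk1
  have hk1m : StronglyMeasurable k1 := hk.1.stronglyMeasurable_mk
  have hkk : k =ᵐ[volume] k1 := hk.1.ae_eq_mk
  have hk1i : Integrable k1 := hk.congr hkk
  have hCT : ∀ a, CT k a = CT k1 a := by
    intro a
    refine integral_congr_ae ?_
    filter_upwards [hkk] with w hw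
    rw [hw]
  set M : ℝ := ∫ w, ‖k1 w‖ with hM
  have hM0 : 0 ≤ M := integral_nonneg fun _ => norm_nonneg _
  -- the tail
  set T : ℝ := max t0 0 with hT
  have hT0 : 0 ≤ T := le_max_right _ _
  have hTt : t0 ≤ T := le_max_left _ _
  have hT1 : T < 1 := max_lt ht0 one_pos
  have hd : 0 < ‖γ T - ζ‖ := by
    rw [norm_pos_iff, sub_ne_zero]
    intro h
    exact hζ (h ▸ hγV T ⟨hT0, hT1⟩)
  -- choose the scale
  set η' : ℝ := η / 18 with hη'
  have hη'0 : 0 < η' := by positivity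
  obtain ⟨r1, hr1, hball1⟩ := app_small_ball hk1i ζ (ε := η' / C0) (by positivity)
  obtain ⟨r2, hr2, hball2⟩ := app_small_ball hk1i ζ (ε := η / 18) (by positivity)
  obtain ⟨u, hu0, hu1, hu2, hu3, hu4, hu5⟩ : ∃ u : ℝ, 0 < u ∧ u ≤ 2 / 9 ∧ u ≤ r1 ∧ u ^ 2 / 4 ≤ r2 ∧
      2 * u ^ 2 ≤ ‖γ T - ζ‖ ∧ 9 / 2 * u * M ≤ η / 4 := by
    have e1 : ∀ᶠ u in 𝓝[>] (0:ℝ), 0 < u := self_mem_nhdsWithin
    have e2 : ∀ᶠ u in 𝓝[>] (0:ℝ), u ≤ 2 / 9 :=
      nhdsWithin_le_nhds (Iic_mem_nhds (by norm_num))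
    have e3 : ∀ᶠ u in 𝓝[>] (0:ℝ), u ≤ r1 := nhdsWithin_le_nhds (Iic_mem_nhds hr1)
    have e4 : ∀ᶠ u in 𝓝[>] (0:ℝ), u ^ 2 / 4 ≤ r2 := by
      have : Tendsto (fun u : ℝ => u ^ 2 / 4) (𝓝[>] 0) (𝓝 (0 ^ 2 / 4)) :=
        ((continuous_id.pow 2).div_const 4).continuousAt.tendsto.mono_left nhdsWithin_le_nhds
      exact this.eventually (Iic_mem_nhds (by simpa using hr2))
    have e5 : ∀ᶠ u in 𝓝[>] (0:ℝ), 2 * u ^ 2 ≤ ‖γ T - ζ‖ := by
      have : Tendsto (fun u : ℝ => 2 * u ^ 2) (𝓝[>] 0) (𝓝 (2 * 0 ^ 2)) :=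
        (continuous_const.mul (continuous_id.pow 2)).continuousAt.tendsto.mono_left
          nhdsWithin_le_nhds
      exact this.eventually (Iic_mem_nhds (by simpa using hd))
    have e6 : ∀ᶠ u in 𝓝[>] (0:ℝ), 9 / 2 * u * M ≤ η / 4 := by
      have : Tendsto (fun u : ℝ => 9 / 2 * u * M) (𝓝[>] 0) (𝓝 (9 / 2 * 0 * M)) :=
        ((continuous_const.mul continuous_id).mul continuous_const).continuousAt.tendsto.mono_left
          nhdsWithin_le_nhds
      exact this.eventually (Iic_mem_nhds (by simpa using hη))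
    obtain ⟨u, h1, h2, h3, h4, h5, h6⟩ :=
      (e1.and (e2.and (e3.and (e4.and (e5.and e6))))).exists
    exact ⟨u, h1, h2, h3, h4, h5, h6⟩
  set s : ℝ := u ^ 2 with hs
  have hs0 : 0 < s := by positivity
  have hsu : √s = u := by rw [hs]; exact Real.sqrt_sq hu0.le
  obtain ⟨t1, t2, hTt1, h12, ht21, hdist, hann⟩ := app_subarc γ hγc hγ hT0 hT1 hs0 hu4
  have hIcc : Icc t1 t2 ⊆ Ico (0:ℝ) 1 := fun t ht =>
    ⟨hT0.trans (hTt1.trans ht.1), ht.2.trans_lt ht21⟩
  -- the radius ρ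
  have hKc : IsCompact (γ '' Icc t1 t2) := isCompact_Icc.image_of_continuousOn (hγc.mono hIcc)
  have hKVW : γ '' Icc t1 t2 ⊆ V ∩ W := by
    rintro _ ⟨t, ht, rfl⟩
    exact ⟨hγV t (hIcc ht), hWγ t (hTt.trans (hTt1.trans ht.1)) (hIcc ht).2 (hIcc ht).1⟩
  obtain ⟨δ, hδ, hδVW⟩ := hKc.exists_cthickening_subset_open (hV.inter hW) hKVW
  set ρ : ℝ := min δ (s / 4) with hρ
  have hρ0 : 0 < ρ := lt_min hδ (by positivity)
  have hballVW : ∀ t ∈ Icc t1 t2, Metric.closedBall (γ t) ρ ⊆ V ∩ W := by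
    intro t ht
    refine Subset.trans ?_ hδVW
    refine Subset.trans (Metric.closedBall_subset_closedBall (min_le_left _ _)) ?_
    exact Metric.closedBall_subset_cthickening (mem_image_of_mem γ ht) δ
  -- the extended path
  set γ' : ℝ → ℂ := IccExtend h12 ((Icc t1 t2).domRestrict γ) with hγ'
  have hγ'c : Continuous γ' := (hγc.mono hIcc).domRestrict.Icc_extend'
  have hγ'eq : ∀ t ∈ Icc t1 t2, γ' t = γ t := by
    intro t ht
    rw [hγ', IccExtend_of_mem h12 _ ht]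
    rfl
  obtain ⟨t, ht, a, haB, haP, haI, haCT⟩ := app_scale hk1i hk1m hC0 hcore (ζ := ζ) hs0 hη'0
    (by rw [hsu]; exact hball1 u hu2) h12 hγ'c
    (by rw [hγ'eq _ (right_mem_Icc.mpr h12), hγ'eq _ (left_mem_Icc.mpr h12)]; exact hdist)
    hρ0 (fun a => a ∈ V → P a) hP
  rw [hγ'eq t ht] at haB
  have haVW := hballVW t ht haB
  refine ⟨a, haVW, haP haVW.1, ?_⟩
  rw [hCT]
  obtain ⟨hlo, hhi⟩ := hann t ht
  have haρ : ‖a - γ t‖ ≤ s / 4 := by
    rw [← dist_eq_norm]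
    exact (Metric.mem_closedBall.mp haB).trans (min_le_right _ _)
  have ha1 : 3 / 4 * s ≤ ‖ζ - a‖ := by
    have : γ t - ζ = -(a - γ t) + -(ζ - a) := by ring
    have h2 : ‖γ t - ζ‖ ≤ ‖a - γ t‖ + ‖ζ - a‖ := by
      rw [this]; exact (norm_add_le _ _).trans (by rw [norm_neg, norm_neg])
    linarith
  have ha2 : ‖ζ - a‖ ≤ 9 / 4 * s := by
    have : ζ - a = -(γ t - ζ) + -(a - γ t) := by ring
    have h2 : ‖ζ - a‖ ≤ ‖γ t - ζ‖ + ‖a - γ t‖ := by
      rw [this]; exact (norm_add_le _ _).trans (by rw [norm_neg, norm_neg])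
    linarith
  have hfar := app_far hk1i hs0 (by rw [hsu, hs]; nlinarith) ha1 ha2 haI
  rw [hsu] at hfar haCT
  have h1 : 9 / 4 * s * ‖CT ({w | s / 4 < ‖w - ζ‖ ∧ ‖w - ζ‖ < u}.indicator k1) a‖ ≤ η / 4 := by
    calc 9 / 4 * s * ‖CT ({w | s / 4 < ‖w - ζ‖ ∧ ‖w - ζ‖ < u}.indicator k1) a‖
        ≤ 9 / 4 * s * (2 * η' / s) := mul_le_mul_of_nonneg_left haCT (by positivity)
      _ = η / 4 := by rw [hη']; field_simp; norm_num
  have h2 : 9 / 2 * ∫ w in Metric.closedBall ζ (s / 4), ‖k1 w‖ ≤ η / 4 := by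
    have := hball2 (s / 4) hu3
    linarith
  linarith

theorem main (V : Set ℂ) (hV : IsOpen V) (hb : Bornology.IsBounded V) (ζ : ℂ)
    (hζ : ζ ∈ frontier V) (φ : Hinf V →ₗ[ℂ] ℂ) (hom : IsHom φ) (hφ : Distinguished φ)
    (hfib : φ (coord V hb) = ζ) (γ : ℝ → ℂ) (hγc : ContinuousOn γ (Ico 0 1))
    (hγV : ∀ t ∈ Ico (0:ℝ) 1, γ t ∈ V) (hγ : Tendsto γ (𝓝[<] 1) (𝓝 ζ)) (f : Hinf V) (L : ℂ)
    (hf : Tendsto (fun t => extz V f.1 (γ t)) (𝓝[<] 1) (𝓝 L)) : L = φ f := by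
  obtain ⟨k, hk, hae⟩ := exists_identity hV hb φ hφ hom hfib f
  have hζV : ζ ∉ V := fun h => by
    rw [hV.frontier_eq] at hζ
    exact hζ.2 h
  set F : ℂ → ℂ := extz V f.1 with hF
  have hFc : ContinuousOn F V := by
    obtain ⟨⟨G, hG, hGf⟩, -⟩ := f.2
    refine hG.continuousOn.congr fun z hz => ?_
    rw [hF, extz, dif_pos hz]
    exact (hGf ⟨z, hz⟩).symm
  have key : ∀ η : ℝ, 0 < η → η ≤ 1 → ‖φ f - L‖ ≤ η * (‖L‖ + 3) := by
    intro η hη hη1
    set W : Set ℂ := V ∩ F ⁻¹' (Metric.ball L η) with hWdef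
    have hW : IsOpen W := hFc.isOpen_inter_preimage hV Metric.isOpen_ball
    obtain ⟨t0, ht01, ht0⟩ : ∃ t0 : ℝ, t0 < 1 ∧ ∀ t, t0 ≤ t → t < 1 → F (γ t) ∈ Metric.ball L η := by
      have h1 : ∀ᶠ t in 𝓝[<] (1:ℝ), F (γ t) ∈ Metric.ball L η :=
        hf (Metric.ball_mem_nhds L hη)
      obtain ⟨l, hl, hsub⟩ := (mem_nhdsLT_iff_exists_Ioo_subset' (by norm_num : (0:ℝ) < 1)).mp h1
      refine ⟨(l + 1) / 2, ?_, fun t ht ht1 => hsub ⟨?_, ht1⟩⟩
      · have : l < 1 := hl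
        linarith
      · have : l < 1 := hl
        linarith
    obtain ⟨a, haVW, haP, ha⟩ := exists_small hV hζV k hk γ hγc hγV hγ
      (fun a => F a * (1 - (ζ - a) * (CT k a).1) = φ f - (ζ - a) * (CT k a).2)
      (by filter_upwards [hae] with a ha haV using (ha haV).2) W hW ht01
      (fun t ht ht1 ht2 => ⟨hγV t ⟨ht2, ht1⟩, ht0 t ht ht1⟩) η hη
    have hu : ‖(ζ - a) * (CT k a).1‖ ≤ η := (norm_fst_le ((ζ - a) • CT k a)).trans ha
    have hv : ‖(ζ - a) * (CT k a).2‖ ≤ η := (norm_snd_le ((ζ - a) • CT k a)).trans ha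
    have hFa : ‖F a - L‖ < η := by
      have : F a ∈ Metric.ball L η := haVW.2.2
      rwa [Metric.mem_ball, dist_eq_norm] at this
    have hFa' : ‖F a‖ ≤ ‖L‖ + η := by
      have : F a = (F a - L) + L := by ring
      rw [this]
      exact (norm_add_le _ _).trans (by linarith)
    have heq : φ f - L = (F a - L) - F a * ((ζ - a) * (CT k a).1) + (ζ - a) * (CT k a).2 := by
      linear_combination -haP
    rw [heq]
    have h1 : ‖F a * ((ζ - a) * (CT k a).1)‖ ≤ (‖L‖ + η) * η := by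
      rw [norm_mul]
      exact mul_le_mul hFa' hu (norm_nonneg _) (by positivity)
    calc ‖(F a - L) - F a * ((ζ - a) * (CT k a).1) + (ζ - a) * (CT k a).2‖
        ≤ ‖F a - L‖ + ‖F a * ((ζ - a) * (CT k a).1)‖ + ‖(ζ - a) * (CT k a).2‖ :=
          (norm_add_le _ _).trans (add_le_add (norm_sub_le _ _) le_rfl)
      _ ≤ η + (‖L‖ + η) * η + η := by linarith
      _ ≤ η * (‖L‖ + 3) := by nlinarith
  have hzero : ‖φ f - L‖ ≤ 0 := by
    have hlim : Tendsto (fun η : ℝ => η * (‖L‖ + 3)) (𝓝[>] 0) (𝓝 (0 * (‖L‖ + 3))) :=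
      (continuous_id.mul continuous_const).continuousAt.tendsto.mono_left nhdsWithin_le_nhds
    rw [zero_mul] at hlim
    refine ge_of_tendsto hlim ?_
    have e1 : ∀ᶠ η in 𝓝[>] (0:ℝ), 0 < η := self_mem_nhdsWithin
    have e2 : ∀ᶠ η in 𝓝[>] (0:ℝ), η ≤ 1 := nhdsWithin_le_nhds (Iic_mem_nhds one_pos)
    filter_upwards [e1, e2] with η h1 h2 using key η h1 h2
  have := norm_le_zero_iff.mp hzero
  exact (sub_eq_zero.mp this).symm

end DH
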