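import Pool.Agent.H30.DH.WeakPos

open MeasureTheory Set Filter Topology
open scoped ComplexConjugate

namespace DH

/-- integral over a subset of a union -/
theorem setIntegral_le_add {ρ : ℂ → ℝ} (hρ : Integrable ρ) (h0 : ∀ z, 0 ≤ ρ z) {S S1 S2 : Set ℂ}
    (hS1 : MeasurableSet S1) (hS2 : MeasurableSet S2) (h : S ⊆ S1 ∪ S2) :
    ∫ z in S, ρ z ≤ (∫ z in S1, ρ z) + ∫ z in S2, ρ z := by
  have a1 : ∫ z in S, ρ z ≤ ∫ z in S1 ∪ S2, ρ z :=
    setIntegral_mono_set hρ.integrableOn (ae_of_all _ h0) (HasSubset.Subset.eventuallyLE h)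
  have a2 : ∫ z in S1 ∪ S2, ρ z = (∫ z in S1, ρ z) + ∫ z in S2 \ S1, ρ z := by
    rw [← union_diff_self]
    exact setIntegral_union disjoint_sdiff_self_right (hS2.diff hS1) hρ.integrableOn
      hρ.integrableOn
  have a3 : ∫ z in S2 \ S1, ρ z ≤ ∫ z in S2, ρ z :=
    setIntegral_mono_set hρ.integrableOn (ae_of_all _ h0)
      (HasSubset.Subset.eventuallyLE diff_subset)
  linarith

theorem measurableSet_CT_gt {E : Type*} [NormedAddCommGroup E] [NormedSpace ℂ E] {f : ℂ → E}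
    (hf : Nice f) (t : ℝ) : MeasurableSet {z | t < ‖CT f z‖} :=
  (isOpen_lt continuous_const hf.continuous_CT.norm).measurableSet

/-- real densities -/
theorem weak_real {ρ : ℂ → ℝ} (hρ : Nice ρ) (h0 : ∀ z, 0 ≤ ρ z) {B : ℝ} (hB : 0 ≤ B)
    (H : ∀ N : ℂ → ℝ, Nice N → (∀ z, 0 ≤ N z) → ∀ t : ℝ, 0 < t →
      ∫ z in {z | t < ‖CT (fun w => (N w : ℂ)) z‖}, ρ z ≤ B * (∫ z, N z) / t)
    (N : ℂ → ℝ) (hN : Nice N) (t : ℝ) (ht : 0 < t) :
    ∫ z in {z | t < ‖CT (fun w => (N w : ℂ)) z‖}, ρ z ≤ 4 * B * (∫ z, |N z|) / t := by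
  have hNn : Nice (fun z => -N z) := by
    refine ⟨hN.meas.neg, ?_, ?_⟩
    · obtain ⟨b, hb⟩ := hN.bdd
      exact ⟨b, fun z => by rw [norm_neg]; exact hb z⟩
    · obtain ⟨R, hR⟩ := hN.supp
      exact ⟨R, fun z hz => by rw [hR z hz, neg_zero]⟩
  set P : ℂ → ℝ := fun z => max (N z) 0 with hP
  set Q : ℂ → ℝ := fun z => max (-N z) 0 with hQ
  have nP : Nice P := hN.posPart
  have nQ : Nice Q := hNn.posPart
  have P0 : ∀ z, 0 ≤ P z := fun z => le_max_right _ _
  have Q0 : ∀ z, 0 ≤ Q z := fun z => le_max_right _ _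
  have hPQ : ∀ z, N z = P z - Q z := by
    intro z
    simp only [hP, hQ]
    rcases le_total 0 (N z) with h | h
    · rw [max_eq_left h, max_eq_right (by linarith)]; ring
    · rw [max_eq_right h, max_eq_left (by linarith)]; ring
  have hPabs : ∀ z, P z ≤ |N z| := fun z => max_le (le_abs_self _) (abs_nonneg _)
  have hQabs : ∀ z, Q z ≤ |N z| := fun z => max_le (neg_le_abs _) (abs_nonneg _)
  have iN : Integrable (fun z => |N z|) := hN.integrable.abs
  have iP : ∫ z, P z ≤ ∫ z, |N z| := integral_mono nP.integrable iN hPabs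
  have iQ : ∫ z, Q z ≤ ∫ z, |N z| := integral_mono nQ.integrable iN hQabs
  have hCT : ∀ z, CT (fun w => (N w : ℂ)) z = CT (fun w => (P w : ℂ)) z
      - CT (fun w => (Q w : ℂ)) z := by
    intro z
    have e1 : (fun w => (N w : ℂ)) = fun w => (P w : ℂ) + (-1 : ℂ) • (Q w : ℂ) := by
      funext w
      rw [hPQ w]
      push_cast
      simp only [smul_eq_mul]
      ring
    rw [e1, CT_add nP.ofReal (nQ.ofReal.const_smul (-1)), CT_smul]
    simp only [neg_smul, one_smul]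
    ring
  have hsub : {z | t < ‖CT (fun w => (N w : ℂ)) z‖} ⊆
      {z | t / 2 < ‖CT (fun w => (P w : ℂ)) z‖} ∪ {z | t / 2 < ‖CT (fun w => (Q w : ℂ)) z‖} := by
    intro z hz
    simp only [mem_setOf_eq, mem_union] at hz ⊢
    by_contra hcon
    push Not at hcon
    have := norm_sub_le (CT (fun w => (P w : ℂ)) z) (CT (fun w => (Q w : ℂ)) z)
    rw [← hCT z] at this
    linarith [hcon.1, hcon.2]
  have h1 := setIntegral_le_add hρ.integrable h0 (measurableSet_CT_gt nP.ofReal (t / 2))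
    (measurableSet_CT_gt nQ.ofReal (t / 2)) hsub
  have h2 := H P nP P0 (t / 2) (by linarith)
  have h3 := H Q nQ Q0 (t / 2) (by linarith)
  have h4 : B * (∫ z, P z) / (t / 2) ≤ 2 * B * (∫ z, |N z|) / t := by
    rw [div_le_div_iff₀ (by linarith) ht]
    have := mul_le_mul_of_nonneg_left iP hB
    nlinarith
  have h5 : B * (∫ z, Q z) / (t / 2) ≤ 2 * B * (∫ z, |N z|) / t := by
    rw [div_le_div_iff₀ (by linarith) ht]
    have := mul_le_mul_of_nonneg_left iQ hB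
    nlinarith
  have h6 : 4 * B * (∫ z, |N z|) / t = 2 * B * (∫ z, |N z|) / t + 2 * B * (∫ z, |N z|) / t := by
    ring
  rw [h6]
  linarith

/-- complex densities -/
theorem weak_complex {ρ : ℂ → ℝ} (hρ : Nice ρ) (h0 : ∀ z, 0 ≤ ρ z) {B : ℝ} (hB : 0 ≤ B)
    (H : ∀ N : ℂ → ℝ, Nice N → ∀ t : ℝ, 0 < t →
      ∫ z in {z | t < ‖CT (fun w => (N w : ℂ)) z‖}, ρ z ≤ B * (∫ z, |N z|) / t) :
    WeakType ℂ ρ (4 * B) := by
  intro f hf t ht
  have iN : Integrable (fun z => ‖f z‖) := hf.integrable.norm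
  have iP : ∫ z, |(f z).re| ≤ ∫ z, ‖f z‖ :=
    integral_mono hf.re.integrable.abs iN fun z => Complex.abs_re_le_norm _
  have iQ : ∫ z, |(f z).im| ≤ ∫ z, ‖f z‖ :=
    integral_mono hf.im.integrable.abs iN fun z => Complex.abs_im_le_norm _
  have hCT : ∀ z, CT f z = CT (fun w => ((f w).re : ℂ)) z
      + Complex.I • CT (fun w => ((f w).im : ℂ)) z := by
    intro z
    have e1 : f = fun w => ((f w).re : ℂ) + Complex.I • ((f w).im : ℂ) := by
      funext w
      rw [smul_eq_mul, mul_comm]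
      exact (Complex.re_add_im (f w)).symm
    conv_lhs => rw [e1]
    rw [CT_add hf.re.ofReal (hf.im.ofReal.const_smul Complex.I), CT_smul]
  have hsub : {z | t < ‖CT f z‖} ⊆
      {z | t / 2 < ‖CT (fun w => ((f w).re : ℂ)) z‖} ∪
        {z | t / 2 < ‖CT (fun w => ((f w).im : ℂ)) z‖} := by
    intro z hz
    simp only [mem_setOf_eq, mem_union] at hz ⊢
    by_contra hcon
    push Not at hcon
    have := norm_add_le (CT (fun w => ((f w).re : ℂ)) z)
      (Complex.I • CT (fun w => ((f w).im : ℂ)) z)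
    rw [← hCT z, norm_smul, Complex.norm_I, one_mul] at this
    linarith [hcon.1, hcon.2]
  have h1 := setIntegral_le_add hρ.integrable h0 (measurableSet_CT_gt hf.re.ofReal (t / 2))
    (measurableSet_CT_gt hf.im.ofReal (t / 2)) hsub
  have h2 := H _ hf.re (t / 2) (by linarith)
  have h3 := H _ hf.im (t / 2) (by linarith)
  have h4 : B * (∫ z, |(f z).re|) / (t / 2) ≤ 2 * B * (∫ z, ‖f z‖) / t := by
    rw [div_le_div_iff₀ (by linarith) ht]
    have := mul_le_mul_of_nonneg_left iP hB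
    nlinarith
  have h5 : B * (∫ z, |(f z).im|) / (t / 2) ≤ 2 * B * (∫ z, ‖f z‖) / t := by
    rw [div_le_div_iff₀ (by linarith) ht]
    have := mul_le_mul_of_nonneg_left iQ hB
    nlinarith
  have h6 : 4 * B * (∫ z, ‖f z‖) / t = 2 * B * (∫ z, ‖f z‖) / t + 2 * B * (∫ z, ‖f z‖) / t := by
    ring
  rw [h6]
  linarith

/-- pairs -/
theorem weak_pair {ρ : ℂ → ℝ} (hρ : Nice ρ) (h0 : ∀ z, 0 ≤ ρ z) {B : ℝ} (hB : 0 ≤ B)
    (H : WeakType ℂ ρ B) : WeakType (ℂ × ℂ) ρ (2 * B) := by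
  intro f hf t ht
  have iN : Integrable (fun z => ‖f z‖) := hf.integrable.norm
  have iP : ∫ z, ‖(f z).1‖ ≤ ∫ z, ‖f z‖ :=
    integral_mono hf.fst.integrable.norm iN fun z => norm_fst_le _
  have iQ : ∫ z, ‖(f z).2‖ ≤ ∫ z, ‖f z‖ :=
    integral_mono hf.snd.integrable.norm iN fun z => norm_snd_le _
  have hsub : {z | t < ‖CT f z‖} ⊆
      {z | t < ‖CT (fun w => (f w).1) z‖} ∪ {z | t < ‖CT (fun w => (f w).2) z‖} := by
    intro z hz
    simp only [mem_setOf_eq, mem_union] at hz ⊢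
    rw [Prod.norm_def, CT_fst hf, CT_snd hf] at hz
    exact lt_max_iff.1 hz
  have h1 := setIntegral_le_add hρ.integrable h0 (measurableSet_CT_gt hf.fst t)
    (measurableSet_CT_gt hf.snd t) hsub
  have h2 := H _ hf.fst t ht
  have h3 := H _ hf.snd t ht
  have h4 : B * (∫ z, ‖(f z).1‖) / t ≤ B * (∫ z, ‖f z‖) / t := by
    gcongr
  have h5 : B * (∫ z, ‖(f z).2‖) / t ≤ B * (∫ z, ‖f z‖) / t := by
    gcongr
  have h6 : 2 * B * (∫ z, ‖f z‖) / t = B * (∫ z, ‖f z‖) / t + B * (∫ z, ‖f z‖) / t := by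
    ring
  rw [h6]
  linarith

/-- weak type bound for `ℂ × ℂ`-valued densities -/
theorem weak_vec : ∃ C : ℝ, 0 < C ∧ ∀ (ρ : ℂ → ℝ), Nice ρ → (∀ z, 0 ≤ ρ z) →
    ∀ (F : Set ℂ), IsClosed F → (∀ z ∉ F, ρ z = 0) → ∀ (l : ℝ), 0 < l → (∀ z ∈ F, U ρ z ≤ l) →
    WeakType (ℂ × ℂ) ρ (C * Real.sqrt l) := by
  obtain ⟨C, hC, H⟩ := weak_pos
  refine ⟨32 * C, by positivity, fun ρ hρ h0 F hF hF0 l hl hU => ?_⟩
  have hB : 0 ≤ C * Real.sqrt l := by positivity
  have h1 := weak_real hρ h0 hB (H ρ hρ h0 F hF hF0 l hl hU)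
  have h2 := weak_complex hρ h0 (by positivity) h1
  have h3 := weak_pair hρ h0 (by positivity) h2
  have e : 2 * (4 * (4 * (C * Real.sqrt l))) = 32 * C * Real.sqrt l := by ring
  rwa [e] at h3

theorem WeakType.mono {E : Type*} [NormedAddCommGroup E] [NormedSpace ℂ E] {ρ : ℂ → ℝ}
    {B B' : ℝ} (h : WeakType E ρ B) (hBB : B ≤ B') : WeakType E ρ B' := by
  intro k hk t ht
  refine (h k hk t ht).trans ?_
  have : 0 ≤ ∫ w, ‖k w‖ := integral_nonneg fun w => norm_nonneg _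
  gcongr

/-- restriction of a density of bounded energy -/
theorem exists_restrict : ∃ C : ℝ, 0 < C ∧ ∀ (ρ : ℂ → ℝ), Nice ρ → (∀ z, 0 ≤ ρ z) →
    0 < ∫ z, ρ z → ∀ (A : ℝ), 0 < A →
    ∫ z, ‖CT (fun w => (ρ w : ℂ)) z‖ ^ 2 * ρ z ≤ A * ∫ z, ρ z →
    ∃ ρ' : ℂ → ℝ, Nice ρ' ∧ (∀ z, 0 ≤ ρ' z) ∧ (∀ z, ρ' z ≤ ρ z) ∧
      (∫ z, ρ z) / 2 ≤ ∫ z, ρ' z ∧ WeakType (ℂ × ℂ) ρ' (C * Real.sqrt A) := by
  obtain ⟨C, hC, H⟩ := weak_vec
  refine ⟨C * Real.sqrt 12, by positivity, fun ρ hρ h0 hpos A hA hE => ?_⟩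
  set l : ℝ := 12 * A with hl
  have hlpos : 0 < l := by positivity
  set F : Set ℂ := {z | U ρ z ≤ l} with hF
  have hFc : IsClosed F := isClosed_le (continuous_U hρ) continuous_const
  have hFm : MeasurableSet F := hFc.measurableSet
  set ρ' : ℂ → ℝ := F.indicator ρ with hρ'
  have nρ' : Nice ρ' := hρ.indicator hFm
  have h0' : ∀ z, 0 ≤ ρ' z := fun z => indicator_nonneg (fun z _ => h0 z) z
  have hle : ∀ z, ρ' z ≤ ρ z := fun z => indicator_le_self' (fun z _ => h0 z) z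
  have hF0 : ∀ z ∉ F, ρ' z = 0 := fun z hz => indicator_of_notMem hz _
  have hU : ∀ z ∈ F, U ρ' z ≤ l := fun z hz => (U_mono hρ nρ' h0' hle z).trans hz
  refine ⟨ρ', nρ', h0', hle, ?_, ?_⟩
  · have e1 : ∫ z, ρ' z = ∫ z in F, ρ z := integral_indicator hFm
    have e2 : (∫ z in F, ρ z) + ∫ z in Fᶜ, ρ z = ∫ z, ρ z :=
      integral_add_compl hFm hρ.integrable
    have hUn : Nice (fun z => U ρ z * ρ z) := by
      obtain ⟨R, hR⟩ := hρ.supp
      obtain ⟨B, hB⟩ := hρ.bdd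
      have hcomp : IsCompact (Metric.closedBall (0 : ℂ) R) := isCompact_closedBall 0 R
      obtain ⟨B', hB'⟩ := hcomp.exists_bound_of_continuousOn (continuous_U hρ).continuousOn
      refine ⟨(continuous_U hρ).stronglyMeasurable.mul hρ.meas, ⟨B' * B, fun z => ?_⟩,
        ⟨R, fun z hz => by rw [hR z hz, mul_zero]⟩⟩
      have hBn : 0 ≤ B := (norm_nonneg _).trans (hB 0)
      by_cases hz : z ∈ Metric.closedBall (0 : ℂ) R
      · rw [norm_mul]
        exact mul_le_mul (hB' z hz) (hB z) (norm_nonneg _) ((norm_nonneg _).trans (hB' z hz))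
      · have hz' : R < ‖z‖ := by
          simpa [Metric.mem_closedBall, dist_zero_right] using hz
        rw [hR z hz', mul_zero, norm_zero]
        by_cases hR0 : 0 ≤ R
        · have := hB' 0 (by simpa [Metric.mem_closedBall] using hR0)
          exact mul_nonneg ((norm_nonneg _).trans this) hBn
        · exfalso
          have : ∀ z, ρ z = 0 := fun z => hR z (by
            have := norm_nonneg z
            linarith)
          simp [this] at hpos
    have e3 : l * ∫ z in Fᶜ, ρ z ≤ ∫ z in Fᶜ, U ρ z * ρ z := by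
      rw [← integral_const_mul]
      apply setIntegral_mono_on (hρ.integrable.const_mul l).integrableOn
        hUn.integrable.integrableOn hFm.compl
      intro z hz
      have hz' : l < U ρ z := not_le.1 hz
      exact mul_le_mul_of_nonneg_right hz'.le (h0 z)
    have e4 : ∫ z in Fᶜ, U ρ z * ρ z ≤ ∫ z, U ρ z * ρ z :=
      setIntegral_le_integral hUn.integrable
        (ae_of_all _ fun z => mul_nonneg (U_nonneg hρ h0 z) (h0 z))
    have e5 := integral_U_mul_self hρ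
    have e6 : l * ∫ z in Fᶜ, ρ z ≤ 6 * (A * ∫ z, ρ z) := by
      rw [e5] at e4
      linarith
    have e7 : ∫ z in Fᶜ, ρ z ≤ (∫ z, ρ z) / 2 := by
      rw [hl] at e6
      by_contra hcon
      push Not at hcon
      have := mul_lt_mul_of_pos_left hcon (by positivity : 0 < 12 * A)
      linarith
    rw [e1]
    linarith
  · have h1 := H ρ' nρ' h0' F hFc hF0 l hlpos hU
    have e : C * Real.sqrt l = C * Real.sqrt 12 * Real.sqrt A := by
      rw [hl, Real.sqrt_mul (by norm_num)]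
      ring
    rwa [e] at h1

end DH
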