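import Pool.Agent.H30.DH.DiskEnergy
import Pool.Agent.H30.DH.WeakVec

open MeasureTheory Set Filter Topology

namespace DH

/-- The good measure near a Lipschitz set of sample points. -/
theorem exists_measure (M : ℝ) (hM : 0 ≤ M) : ∃ CW : ℝ, 0 < CW ∧ ∀ (N : ℕ), 0 < N → ∀ (h : ℝ),
    0 < h → ∀ (T : Finset ℕ), T ⊆ Finset.range N → N ≤ 2 * T.card → ∀ (p e : ℂ), ‖e‖ = 1 →
    ∀ (t0 : ℝ) (G : ℕ → ℝ), (∀ k ∈ T, ∀ l ∈ T, |G k - G l| ≤ M * h * |(k : ℝ) - l|) →
    ∃ ρ : ℂ → ℝ, Nice ρ ∧ (∀ z, 0 ≤ ρ z) ∧ (∀ z, ρ z ≤ dens T (pt p e t0 h G) h z) ∧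
      h * N / 4 ≤ ∫ z, ρ z ∧ WeakType (ℂ × ℂ) ρ CW := by
  obtain ⟨C1, hC1, H1⟩ := disk_energy M hM
  obtain ⟨C, hC, H⟩ := exists_restrict
  refine ⟨C * Real.sqrt (2 * C1), by positivity, ?_⟩
  intro N hN h hh T hT hNT p e he t0 G hG
  have hN' : (0 : ℝ) < N := by exact_mod_cast hN
  have hNT' : (N : ℝ) ≤ 2 * T.card := by exact_mod_cast hNT
  have hint := integral_dens T (pt p e t0 h G) hh
  have hpos : 0 < ∫ z, dens T (pt p e t0 h G) h z := by
    rw [hint]
    apply mul_pos hh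
    linarith
  have hE := H1 N h hh T hT p e he t0 G hG
  have hE' : ∫ z, ‖CT (fun w => (dens T (pt p e t0 h G) h w : ℂ)) z‖ ^ 2 *
      dens T (pt p e t0 h G) h z ≤ (2 * C1) * ∫ z, dens T (pt p e t0 h G) h z := by
    refine hE.trans ?_
    rw [hint]
    have := mul_le_mul_of_nonneg_left hNT' (mul_pos hC1 hh).le
    nlinarith
  obtain ⟨ρ, h1, h2, h3, h4, h5⟩ := H _ (nice_dens T (pt p e t0 h G) h)
    (dens_nonneg T (pt p e t0 h G) hh) hpos (2 * C1) (by positivity) hE'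
  refine ⟨ρ, h1, h2, h3, ?_, h5⟩
  rw [hint] at h4
  refine le_trans ?_ h4
  have := mul_le_mul_of_nonneg_left hNT' hh.le
  nlinarith

/-- growth: a ball of radius `R` meets few of the disks -/
theorem setIntegral_dens_le (N : ℕ) {h : ℝ} (hh : 0 < h) (T : Finset ℕ)
    (hT : T ⊆ Finset.range N) (p e : ℂ) (he : ‖e‖ = 1) (t0 : ℝ) (G : ℕ → ℝ) (x : ℂ) {R : ℝ}
    (hR : 0 ≤ R) (S : Finset ℕ) (hS : S ⊆ T) (hSR : ∀ k ∈ S, ‖pt p e t0 h G k - x‖ ≤ R) :
    ∫ w, dens S (pt p e t0 h G) h w ≤ 2 * R + h := by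
  rw [integral_dens S (pt p e t0 h G) hh]
  rcases S.eq_empty_or_nonempty with hSe | hSn
  · subst hSe
    simp only [Finset.card_empty, Nat.cast_zero, mul_zero]
    linarith
  have key : ∀ k ∈ S, |t0 + k * h - ((starRingEnd ℂ e) * (x - p)).re| ≤ R := by
    intro k hk
    have h1 : ‖(starRingEnd ℂ e) * (pt p e t0 h G k - x)‖ ≤ R := by
      rw [norm_mul, RCLike.norm_conj, he, one_mul]
      exact hSR k hk
    have h2 : ((starRingEnd ℂ e) * (pt p e t0 h G k - x)).re =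
        t0 + k * h - ((starRingEnd ℂ e) * (x - p)).re := by
      have hee : (starRingEnd ℂ e) * e = 1 := by
        rw [← Complex.normSq_eq_conj_mul_self, Complex.normSq_eq_norm_sq, he]
        simp
      have : (starRingEnd ℂ e) * (pt p e t0 h G k - x) =
          (((t0 + k * h : ℝ) : ℂ) + (G k : ℂ) * Complex.I) - (starRingEnd ℂ e) * (x - p) := by
        unfold pt
        calc (starRingEnd ℂ e) * (p + e * (((t0 + k * h : ℝ) : ℂ) + (G k : ℂ) * Complex.I) - x)
            = ((starRingEnd ℂ e) * e) * (((t0 + k * h : ℝ) : ℂ) + (G k : ℂ) * Complex.I)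
              - (starRingEnd ℂ e) * (x - p) := by ring
          _ = _ := by rw [hee, one_mul]
      rw [this]
      simp only [Complex.sub_re, Complex.add_re, Complex.ofReal_re, Complex.mul_re,
        Complex.ofReal_im, Complex.I_re, Complex.I_im]
      ring
    rw [← h2]
    exact (Complex.abs_re_le_norm _).trans h1
  set m := S.min' hSn with hm
  set M' := S.max' hSn with hM'
  have hm1 := key m (S.min'_mem hSn)
  have hM1 := key M' (S.max'_mem hSn)
  have hcard : S.card ≤ M' + 1 - m := by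
    have hsub : S ⊆ Finset.Icc m M' := fun k hk =>
      Finset.mem_Icc.2 ⟨S.min'_le k hk, S.le_max' k hk⟩
    have := Finset.card_le_card hsub
    rwa [Nat.card_Icc] at this
  have hmM : m ≤ M' := S.min'_le M' (S.max'_mem hSn)
  have hcard' : (S.card : ℝ) ≤ M' + 1 - m := by
    have h1 : S.card + m ≤ M' + 1 := by omega
    have h2 : (S.card : ℝ) + m ≤ M' + 1 := by exact_mod_cast h1
    linarith
  have hdiff : ((M' : ℝ) - m) * h ≤ 2 * R := by
    have h1 := abs_le.1 hm1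
    have h2 := abs_le.1 hM1
    nlinarith [h1.1, h1.2, h2.1, h2.2]
  have := mul_le_mul_of_nonneg_left hcard' hh.le
  nlinarith

end DH
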