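import Pool.Agent.H30.DH.Defs

open scoped ComplexConjugate

namespace DH

theorem re_inv_mul_conj_inv (a b : ℂ) :
    (a⁻¹ * conj (b⁻¹)).re = (a.re * b.re + a.im * b.im) / (Complex.normSq a * Complex.normSq b) := by
  rw [Complex.mul_re, Complex.conj_re, Complex.conj_im, Complex.inv_re, Complex.inv_im,
    Complex.inv_re, Complex.inv_im]
  rw [div_mul_div_comm, neg_div, neg_div, neg_neg, neg_mul, div_mul_div_comm, sub_neg_eq_add,
    ← add_div]

theorem SS_coord (x y z : ℂ) :
    SS x y z =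
      2 * (((x.re - z.re) * (y.re - z.re) + (x.im - z.im) * (y.im - z.im)) /
        (Complex.normSq (x - z) * Complex.normSq (y - z)))
      + 2 * (((y.re - x.re) * (z.re - x.re) + (y.im - x.im) * (z.im - x.im)) /
        (Complex.normSq (y - x) * Complex.normSq (z - x)))
      + 2 * (((z.re - y.re) * (x.re - y.re) + (z.im - y.im) * (x.im - y.im)) /
        (Complex.normSq (z - y) * Complex.normSq (x - y))) := by
  unfold SS
  rw [re_inv_mul_conj_inv, re_inv_mul_conj_inv, re_inv_mul_conj_inv]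
  simp only [Complex.sub_re, Complex.sub_im]

/-- the symmetrised kernel is `4 det² / (product of squared sides)` -/
theorem SS_eq {x y z : ℂ} (hxy : x ≠ y) (hyz : y ≠ z) (hxz : x ≠ z) :
    SS x y z = 4 * ((y.re - x.re) * (z.im - x.im) - (z.re - x.re) * (y.im - x.im)) ^ 2 /
      (‖x - y‖ ^ 2 * ‖y - z‖ ^ 2 * ‖z - x‖ ^ 2) := by
  rw [SS_coord]
  have h1 : Complex.normSq (x - y) ≠ 0 := by
    rw [Ne, Complex.normSq_eq_zero]; exact sub_ne_zero.2 hxy
  have h2 : Complex.normSq (y - z) ≠ 0 := by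
    rw [Ne, Complex.normSq_eq_zero]; exact sub_ne_zero.2 hyz
  have h3 : Complex.normSq (z - x) ≠ 0 := by
    rw [Ne, Complex.normSq_eq_zero]; exact sub_ne_zero.2 hxz.symm
  have e1 : Complex.normSq (y - x) = Complex.normSq (x - y) := by
    rw [← Complex.normSq_neg, neg_sub]
  have e2 : Complex.normSq (z - y) = Complex.normSq (y - z) := by
    rw [← Complex.normSq_neg, neg_sub]
  have e3 : Complex.normSq (x - z) = Complex.normSq (z - x) := by
    rw [← Complex.normSq_neg, neg_sub]
  rw [← Complex.normSq_eq_norm_sq, ← Complex.normSq_eq_norm_sq, ← Complex.normSq_eq_norm_sq, e1,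
    e2, e3]
  have d1 : Complex.normSq (x - y) = (x.re - y.re) ^ 2 + (x.im - y.im) ^ 2 := by
    rw [Complex.normSq_apply, Complex.sub_re, Complex.sub_im]; ring
  have d2 : Complex.normSq (y - z) = (y.re - z.re) ^ 2 + (y.im - z.im) ^ 2 := by
    rw [Complex.normSq_apply, Complex.sub_re, Complex.sub_im]; ring
  have d3 : Complex.normSq (z - x) = (z.re - x.re) ^ 2 + (z.im - x.im) ^ 2 := by
    rw [Complex.normSq_apply, Complex.sub_re, Complex.sub_im]; ring
  have key : 2 * ((x.re - z.re) * (y.re - z.re) + (x.im - z.im) * (y.im - z.im)) *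
        Complex.normSq (x - y)
      + 2 * ((y.re - x.re) * (z.re - x.re) + (y.im - x.im) * (z.im - x.im)) *
        Complex.normSq (y - z)
      + 2 * ((z.re - y.re) * (x.re - y.re) + (z.im - y.im) * (x.im - y.im)) *
        Complex.normSq (z - x)
      = 4 * ((y.re - x.re) * (z.im - x.im) - (z.re - x.re) * (y.im - x.im)) ^ 2 := by
    rw [d1, d2, d3]; ring
  rw [← key]
  field_simp

/-- nonnegative for all arguments (also when some of them coincide, with `0⁻¹ = 0`) -/
theorem SS_nonneg (x y z : ℂ) : 0 ≤ SS x y z := by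
  by_cases hxy : x = y
  · subst hxy
    rw [SS_coord]
    have e1 : Complex.normSq (x - x) = 0 := by simp
    rw [e1]
    simp only [sub_self, zero_mul, mul_zero, div_zero, add_zero]
    have := Complex.normSq_nonneg (x - z)
    have h2 : 0 ≤ (x.re - z.re) * (x.re - z.re) + (x.im - z.im) * (x.im - z.im) := by
      nlinarith [mul_self_nonneg (x.re - z.re), mul_self_nonneg (x.im - z.im)]
    positivity
  by_cases hyz : y = z
  · subst hyz
    rw [SS_coord]
    have e1 : Complex.normSq (y - y) = 0 := by simp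
    rw [e1]
    simp only [sub_self, zero_mul, mul_zero, div_zero, add_zero, zero_add]
    have := Complex.normSq_nonneg (y - x)
    have h2 : 0 ≤ (y.re - x.re) * (y.re - x.re) + (y.im - x.im) * (y.im - x.im) := by
      nlinarith [mul_self_nonneg (y.re - x.re), mul_self_nonneg (y.im - x.im)]
    positivity
  by_cases hxz : x = z
  · subst hxz
    rw [SS_coord]
    have e1 : Complex.normSq (x - x) = 0 := by simp
    rw [e1]
    simp only [sub_self, zero_mul, mul_zero, div_zero, add_zero, zero_add]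
    have := Complex.normSq_nonneg (x - y)
    have h2 : 0 ≤ (x.re - y.re) * (x.re - y.re) + (x.im - y.im) * (x.im - y.im) := by
      nlinarith [mul_self_nonneg (x.re - y.re), mul_self_nonneg (x.im - y.im)]
    positivity
  rw [SS_eq hxy hyz hxz]
  positivity

/-- slope bound, no ordering needed -/
theorem SS_le_slope {x y z : ℂ} (hxy : x.re ≠ y.re) (hyz : y.re ≠ z.re) (hxz : x.re ≠ z.re) :
    SS x y z ≤ 4 * ((y.im - x.im) / (y.re - x.re) - (z.im - y.im) / (z.re - y.re)) ^ 2 /
      (z.re - x.re) ^ 2 := by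
  have hxy' : x ≠ y := fun h => hxy (by rw [h])
  have hyz' : y ≠ z := fun h => hyz (by rw [h])
  have hxz' : x ≠ z := fun h => hxz (by rw [h])
  rw [SS_eq hxy' hyz' hxz']
  have a1 : y.re - x.re ≠ 0 := sub_ne_zero.2 hxy.symm
  have a2 : z.re - y.re ≠ 0 := sub_ne_zero.2 hyz.symm
  have a3 : z.re - x.re ≠ 0 := sub_ne_zero.2 hxz.symm
  have n1 : (y.re - x.re) ^ 2 ≤ ‖x - y‖ ^ 2 := by
    rw [← Complex.normSq_eq_norm_sq, Complex.normSq_apply, Complex.sub_re, Complex.sub_im]
    nlinarith [sq_nonneg (x.im - y.im)]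
  have n2 : (z.re - y.re) ^ 2 ≤ ‖y - z‖ ^ 2 := by
    rw [← Complex.normSq_eq_norm_sq, Complex.normSq_apply, Complex.sub_re, Complex.sub_im]
    nlinarith [sq_nonneg (y.im - z.im)]
  have n3 : (z.re - x.re) ^ 2 ≤ ‖z - x‖ ^ 2 := by
    rw [← Complex.normSq_eq_norm_sq, Complex.normSq_apply, Complex.sub_re, Complex.sub_im]
    nlinarith [sq_nonneg (z.im - x.im)]
  have p1 : 0 < (y.re - x.re) ^ 2 := by positivity
  have p2 : 0 < (z.re - y.re) ^ 2 := by positivity
  have p3 : 0 < (z.re - x.re) ^ 2 := by positivity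
  have hdet : (y.re - x.re) * (z.im - x.im) - (z.re - x.re) * (y.im - x.im) =
      -((y.re - x.re) * (z.re - y.re) *
        ((y.im - x.im) / (y.re - x.re) - (z.im - y.im) / (z.re - y.re))) := by
    field_simp
    ring
  have hb : 4 * ((y.re - x.re) * (z.im - x.im) - (z.re - x.re) * (y.im - x.im)) ^ 2 /
      (‖x - y‖ ^ 2 * ‖y - z‖ ^ 2 * ‖z - x‖ ^ 2) ≤
      4 * ((y.re - x.re) * (z.im - x.im) - (z.re - x.re) * (y.im - x.im)) ^ 2 /
      ((y.re - x.re) ^ 2 * (z.re - y.re) ^ 2 * (z.re - x.re) ^ 2) := by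
    apply div_le_div_of_nonneg_left
    · positivity
    · positivity
    · gcongr
  refine hb.trans (le_of_eq ?_)
  rw [hdet]
  field_simp

end DH
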