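import Pool.Agent.H30.DH.CauchyB
import Pool.Agent.H30.DH.Kernel

open MeasureTheory Set Filter Topology
open scoped ComplexConjugate

namespace DH

/-- second kernel -/
private noncomputable def F2 (ρ : ℂ → ℝ) (z : ℂ) (p : ℂ × ℂ) : ℂ :=
  ((p.2 - p.1)⁻¹ * conj ((z - p.1)⁻¹)) * ((ρ p.1 : ℂ) * (ρ p.2 : ℂ))

private noncomputable def F1 (ρ : ℂ → ℝ) (z : ℂ) (p : ℂ × ℂ) : ℂ :=
  ((p.1 - z)⁻¹ * (ρ p.1 : ℂ)) * (conj ((p.2 - z)⁻¹) * (ρ p.2 : ℂ))

private lemma umu_cauchy {ρ : ℂ → ℝ} (hρ : Nice ρ) (z : ℂ) :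
    Integrable (fun w => (w - z)⁻¹ * (ρ w : ℂ)) := by
  simpa [smul_eq_mul] using hρ.ofReal.integrable_cauchy z

private lemma umu_F1 {ρ : ℂ → ℝ} (hρ : Nice ρ) (z : ℂ) :
    Integrable (F1 ρ z) (volume.prod volume) ∧
      (∫ p, F1 ρ z p ∂(volume.prod volume)).re = ‖CT (fun w => (ρ w : ℂ)) z‖ ^ 2 := by
  have h1 := umu_cauchy hρ z
  have h2 : Integrable (fun w => conj ((w - z)⁻¹) * (ρ w : ℂ)) := by
    have := (LinearIsometryEquiv.integrable_comp_iff (Complex.conjLIE)).2 h1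
    refine this.congr (ae_of_all _ fun w => ?_)
    simp
  have e : F1 ρ z = fun p : ℂ × ℂ => ((p.1 - z)⁻¹ * (ρ p.1 : ℂ)) *
    (conj ((p.2 - z)⁻¹) * (ρ p.2 : ℂ)) := rfl
  constructor
  · rw [e]
    exact h1.mul_prod h2
  · rw [e, integral_prod_mul (fun w => (w - z)⁻¹ * (ρ w : ℂ))
      (fun w => conj ((w - z)⁻¹) * (ρ w : ℂ))]
    have e2 : ∫ w, conj ((w - z)⁻¹) * (ρ w : ℂ) = conj (CT (fun w => (ρ w : ℂ)) z) := by
      unfold CT
      rw [← integral_conj]
      congr 1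
      ext w
      simp
    have e3 : ∫ w, (w - z)⁻¹ * (ρ w : ℂ) = CT (fun w => (ρ w : ℂ)) z := rfl
    rw [e2, e3, Complex.mul_conj, Complex.normSq_eq_norm_sq, Complex.ofReal_re]

private lemma umu_F2_meas {ρ : ℂ → ℝ} (hρ : Nice ρ) (z : ℂ) : Measurable (F2 ρ z) := by
  have hm : Measurable ρ := hρ.meas.measurable
  unfold F2
  refine Measurable.mul (Measurable.mul ?_ ?_) (Measurable.mul ?_ ?_)
  · exact (measurable_snd.sub measurable_fst).inv
  · exact Complex.continuous_conj.measurable.comp (measurable_const.sub measurable_fst).inv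
  · exact Complex.measurable_ofReal.comp (hm.comp measurable_fst)
  · exact Complex.measurable_ofReal.comp (hm.comp measurable_snd)

private lemma umu_F2 {ρ : ℂ → ℝ} (hρ : Nice ρ) (z : ℂ) :
    Integrable (F2 ρ z) (volume.prod volume) ∧
      (∫ p, F2 ρ z p ∂(volume.prod volume)).re
        = - (CT (fun w => conj (CT (fun v => (ρ v : ℂ)) w) * (ρ w : ℂ)) z).re := by
  have hms : AEStronglyMeasurable (F2 ρ z) (volume.prod volume) :=
    (umu_F2_meas hρ z).aestronglyMeasurable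
  obtain ⟨B, hB0, hB⟩ := hρ.ofReal.exists_integral_le
  have hin : ∀ x : ℂ, Integrable (fun y => F2 ρ z (x, y)) := by
    intro x
    have := (umu_cauchy hρ x).const_mul (conj ((z - x)⁻¹) * (ρ x : ℂ))
    refine this.congr (ae_of_all _ fun y => ?_)
    simp only [F2]
    ring
  have hint : Integrable (F2 ρ z) (volume.prod volume) := by
    rw [integrable_prod_iff hms]
    refine ⟨ae_of_all _ hin, ?_⟩
    have h3 := (hρ.ofReal.integrable_norm_cauchy z).const_mul B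
    refine h3.mono' hms.norm.integral_prod_right' (ae_of_all _ fun x => ?_)
    have e1 : ∫ y, ‖F2 ρ z (x, y)‖
        = (‖x - z‖⁻¹ * ‖(ρ x : ℂ)‖) * ∫ y, ‖y - x‖⁻¹ * ‖(ρ y : ℂ)‖ := by
      rw [← integral_const_mul]
      congr 1
      ext y
      simp only [F2, norm_mul, norm_inv, RCLike.norm_conj]
      rw [norm_sub_rev z x]
      ring
    rw [e1, Real.norm_eq_abs, abs_of_nonneg (mul_nonneg (by positivity)
      (integral_nonneg fun y => by positivity)), mul_comm B]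
    exact mul_le_mul_of_nonneg_left (hB x) (by positivity)
  refine ⟨hint, ?_⟩
  rw [integral_prod _ hint]
  have e2 : ∀ x, ∫ y, F2 ρ z (x, y)
      = - conj ((x - z)⁻¹ • (conj (CT (fun v => (ρ v : ℂ)) x) * (ρ x : ℂ))) := by
    intro x
    have : ∫ y, F2 ρ z (x, y) = (conj ((z - x)⁻¹) * (ρ x : ℂ)) * CT (fun v => (ρ v : ℂ)) x := by
      unfold CT
      rw [← integral_const_mul]
      congr 1
      ext y
      simp only [F2, smul_eq_mul]
      ring
    rw [this, ← neg_sub x z, inv_neg]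
    simp only [smul_eq_mul, map_mul, map_neg, Complex.conj_conj, Complex.conj_ofReal]
    ring
  simp_rw [e2]
  rw [integral_neg, integral_conj, Complex.neg_re, Complex.conj_re]
  rfl

private lemma umu_rep {ρ : ℂ → ℝ} (hρ : Nice ρ) (z : ℂ) :
    Integrable (fun p : ℂ × ℂ => SS p.1 p.2 z * (ρ p.1 * ρ p.2)) (volume.prod volume) ∧
      ∫ p : ℂ × ℂ, SS p.1 p.2 z * (ρ p.1 * ρ p.2) ∂(volume.prod volume) = U ρ z := by
  obtain ⟨i1, v1⟩ := umu_F1 hρ z
  obtain ⟨i2, v2⟩ := umu_F2 hρ z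
  have i3 : Integrable (fun p : ℂ × ℂ => F2 ρ z p.swap) (volume.prod volume) := i2.swap
  have e : (fun p : ℂ × ℂ => SS p.1 p.2 z * (ρ p.1 * ρ p.2))
      = fun p => 2 * (F1 ρ z p).re + 2 * (F2 ρ z p).re + 2 * (F2 ρ z p.swap).re := by
    ext p
    obtain ⟨x, y⟩ := p
    simp only [SS, F1, F2, Prod.swap_prod_mk]
    have h1 : ((x - z)⁻¹ * (ρ x : ℂ) * (conj ((y - z)⁻¹) * (ρ y : ℂ))).re
        = ((x - z)⁻¹ * conj ((y - z)⁻¹)).re * (ρ x * ρ y) := by
      rw [← Complex.re_mul_ofReal]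
      congr 1
      push_cast
      ring
    have h2 : ((y - x)⁻¹ * conj ((z - x)⁻¹) * ((ρ x : ℂ) * (ρ y : ℂ))).re
        = ((y - x)⁻¹ * conj ((z - x)⁻¹)).re * (ρ x * ρ y) := by
      rw [← Complex.re_mul_ofReal]
      congr 1
      push_cast
      ring
    have h3 : ((x - y)⁻¹ * conj ((z - y)⁻¹) * ((ρ y : ℂ) * (ρ x : ℂ))).re
        = ((z - y)⁻¹ * conj ((x - y)⁻¹)).re * (ρ x * ρ y) := by
      rw [← Complex.re_mul_ofReal, ← Complex.conj_re]
      congr 1
      simp only [map_mul, Complex.conj_conj, Complex.conj_ofReal]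
      push_cast
      ring
    rw [h1, h2, h3]
    ring
  have j1 : Integrable (fun p => (F1 ρ z p).re) (volume.prod volume) := i1.re
  have j2 : Integrable (fun p => (F2 ρ z p).re) (volume.prod volume) := i2.re
  have j3 : Integrable (fun p : ℂ × ℂ => (F2 ρ z p.swap).re) (volume.prod volume) := i3.re
  have hre : ∀ {f : ℂ × ℂ → ℂ}, Integrable f (volume.prod volume) →
      ∫ p, (f p).re ∂(volume.prod volume) = (∫ p, f p ∂(volume.prod volume)).re := by
    intro f hf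
    simpa using integral_re hf
  rw [e]
  refine ⟨((j1.const_mul 2).add (j2.const_mul 2)).add (j3.const_mul 2), ?_⟩
  have k12 : Integrable (fun p => 2 * (F1 ρ z p).re + 2 * (F2 ρ z p).re) (volume.prod volume) :=
    (j1.const_mul 2).add (j2.const_mul 2)
  rw [integral_add k12 (j3.const_mul 2), integral_add (j1.const_mul 2) (j2.const_mul 2),
    integral_const_mul, integral_const_mul, integral_const_mul, hre i1, hre i2, hre i3, v1, v2,
    integral_prod_swap (F2 ρ z), v2]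
  unfold U
  ring

theorem U_nonneg {ρ : ℂ → ℝ} (hρ : Nice ρ) (h0 : ∀ z, 0 ≤ ρ z) (z : ℂ) : 0 ≤ U ρ z := by
  rw [← (umu_rep hρ z).2]
  exact integral_nonneg fun p => mul_nonneg (SS_nonneg _ _ _) (mul_nonneg (h0 _) (h0 _))

theorem U_mono {ρ ρ' : ℂ → ℝ} (hρ : Nice ρ) (hρ' : Nice ρ') (h0 : ∀ z, 0 ≤ ρ' z)
    (h : ∀ z, ρ' z ≤ ρ z) (z : ℂ) : U ρ' z ≤ U ρ z := by
  rw [← (umu_rep hρ z).2, ← (umu_rep hρ' z).2]
  refine integral_mono (umu_rep hρ' z).1 (umu_rep hρ z).1 fun p => ?_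
  exact mul_le_mul_of_nonneg_left (mul_le_mul (h _) (h _) (h0 _) ((h0 _).trans (h _)))
    (SS_nonneg _ _ _)

end DH
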