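import Pool.Agent.H30.DH.UInt
import Pool.Agent.H30.DH.Umu

open MeasureTheory Set Filter Topology
open scoped ComplexConjugate

namespace DH

private lemma box_int {ρ : ℂ → ℝ} (hρ : Nice ρ) {g : ℂ → ℝ} (hg : Continuous g) :
    Integrable (fun z => g z * ρ z) := by
  have h1 := (hρ.ofReal.continuous_mul (Complex.continuous_ofReal.comp hg)).integrable.re
  refine h1.congr (ae_of_all _ fun z => ?_)
  simp

private lemma box_int0 {ρ : ℂ → ℝ} (hρ : Nice ρ) : Integrable ρ := by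
  have h1 := hρ.ofReal.integrable.re
  refine h1.congr (ae_of_all _ fun z => ?_)
  simp

private lemma box_cs {ρ : ℂ → ℝ} (hρ : Nice ρ) (h0 : ∀ z, 0 ≤ ρ z) {g : ℂ → ℝ}
    (hg : Continuous g) :
    (∫ z, g z * ρ z) ^ 2 ≤ (∫ z, ρ z) * ∫ z, g z ^ 2 * ρ z := by
  have hi0 : Integrable ρ := box_int0 hρ
  have hi1 := box_int hρ hg
  have hi2 : Integrable (fun z => g z ^ 2 * ρ z) := box_int hρ (hg.pow 2)
  have key : ∀ t : ℝ, 0 ≤ (∫ z, ρ z) * (t * t) + (-2 * ∫ z, g z * ρ z) * t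
      + ∫ z, g z ^ 2 * ρ z := by
    intro t
    have h1 : 0 ≤ ∫ z, (g z - t) ^ 2 * ρ z :=
      integral_nonneg fun z => mul_nonneg (sq_nonneg _) (h0 z)
    have h2 : ∫ z, (g z - t) ^ 2 * ρ z
        = (∫ z, g z ^ 2 * ρ z) - 2 * t * (∫ z, g z * ρ z) + t ^ 2 * ∫ z, ρ z := by
      have hs : Integrable (fun z => g z ^ 2 * ρ z - 2 * t * (g z * ρ z)) :=
        hi2.sub (hi1.const_mul _)
      rw [← integral_const_mul, ← integral_const_mul, ← integral_sub hi2 (hi1.const_mul _),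
        ← integral_add hs (hi0.const_mul _)]
      congr 1
      ext z
      ring
    rw [h2] at h1
    linarith
  have := discrim_le_zero key
  unfold discrim at this
  nlinarith

theorem box_estimate {ρ N : ℂ → ℝ} (hρ : Nice ρ) (h0 : ∀ z, 0 ≤ ρ z) (hN : Nice N)
    (hN0 : ∀ z, 0 ≤ N z) {l : ℝ} (hl : 0 < l) (hU : ∀ z, U ρ z ≤ l) {X : ℂ} (hX : X ≠ 0)
    (hbox : ∀ z, ρ z ≠ 0 → ‖CT (fun w => (N w : ℂ)) z - X‖ ≤ ‖X‖ / 2) :
    ∫ z, ρ z ≤ 3 * Real.sqrt l * (∫ z, N z) / ‖X‖ := by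
  have hXp : 0 < ‖X‖ := norm_pos_iff.2 hX
  set h : ℂ → ℂ := CT (fun w => (ρ w : ℂ)) with hh
  set V : ℂ → ℂ := CT (fun w => (N w : ℂ)) with hV
  have hc : Continuous h := hρ.ofReal.continuous_CT
  have hVc : Continuous V := hN.ofReal.continuous_CT
  set m : ℝ := ∫ z, ρ z with hm
  set n : ℝ := ∫ z, N z with hn
  have hm0 : 0 ≤ m := integral_nonneg h0
  have hn0 : 0 ≤ n := integral_nonneg hN0
  set J : ℝ := ∫ z, ‖h z‖ * ρ z with hJ
  have hJ0 : 0 ≤ J := integral_nonneg fun z => mul_nonneg (norm_nonneg _) (h0 z)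
  set K : ℝ := ∫ z, ‖h z‖ ^ 2 * N z with hK
  have hiU1 : Integrable (fun z => U ρ z * ρ z) := box_int hρ (continuous_U hρ)
  have hiU2 : Integrable (fun z => U ρ z * N z) := box_int hN (continuous_U hρ)
  -- (b)
  have hb : 6 * ∫ z, ‖h z‖ ^ 2 * ρ z ≤ l * m := by
    rw [← integral_U_mul_self hρ, hm, ← integral_const_mul]
    exact integral_mono hiU1 ((box_int0 hρ).const_mul l)
      fun z => mul_le_mul_of_nonneg_right (hU z) (h0 z)
  have hJ2 : J ^ 2 ≤ m * (l * m / 6) := by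
    refine (box_cs hρ h0 hc.norm).trans ?_
    refine mul_le_mul_of_nonneg_left ?_ hm0
    linarith
  have hs : Real.sqrt l ^ 2 = l := Real.sq_sqrt hl.le
  set s : ℝ := Real.sqrt l with hsdef
  have hs0 : 0 ≤ s := Real.sqrt_nonneg l
  have hJle : J ≤ 41 / 100 * (s * m) := by
    have hsm : 0 ≤ s * m := mul_nonneg hs0 hm0
    apply le_of_sq_le_sq _ (by positivity)
    have : m * (l * m / 6) = (s * m) ^ 2 / 6 := by rw [mul_pow, hs]; ring
    rw [this] at hJ2
    nlinarith [sq_nonneg (s * m)]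
  -- (a)
  have hρV : Integrable (fun z => V z * (ρ z : ℂ)) := (hρ.ofReal.continuous_mul hVc).integrable
  have hρC : Integrable (fun z => conj (h z) * (ρ z : ℂ)) :=
    (hρ.ofReal.continuous_mul (Complex.continuous_conj.comp hc)).integrable
  have ha : ∫ z, conj (h z) * (ρ z : ℂ) = 0 := by
    have h1 : ∫ z, h z * (ρ z : ℂ) = - ∫ z, (ρ z : ℂ) * h z :=
      CT_antisymm hρ.ofReal hρ.ofReal
    have h2 : ∫ z, (ρ z : ℂ) * h z = ∫ z, h z * (ρ z : ℂ) := by
      congr 1
      ext z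
      ring
    rw [h2] at h1
    have h3 : ∫ z, h z * (ρ z : ℂ) = 0 := by
      have : (2 : ℂ) * ∫ z, h z * (ρ z : ℂ) = 0 := by linear_combination h1
      simpa using this
    have h4 : ∫ z, conj (h z) * (ρ z : ℂ) = conj (∫ z, h z * (ρ z : ℂ)) := by
      rw [← integral_conj]
      congr 1
      ext z
      simp
    rw [h4, h3, map_zero]
  -- the cross term
  have hcross : ‖∫ z, (conj (h z) * (ρ z : ℂ)) * V z‖ ≤ ‖X‖ / 2 * J := by
    have hi1 : Integrable (fun z => (conj (h z) * (ρ z : ℂ)) * V z) := by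
      have := (hρ.ofReal.continuous_mul ((Complex.continuous_conj.comp hc).mul hVc)).integrable
      refine this.congr (ae_of_all _ fun z => ?_)
      simp only [Pi.mul_apply, Function.comp]
      ring
    have e1 : ∫ z, (conj (h z) * (ρ z : ℂ)) * V z
        = ∫ z, (conj (h z) * (ρ z : ℂ)) * (V z - X) := by
      have : ∫ z, (conj (h z) * (ρ z : ℂ)) * (V z - X)
          = (∫ z, (conj (h z) * (ρ z : ℂ)) * V z) - (∫ z, conj (h z) * (ρ z : ℂ)) * X := by
        rw [← integral_mul_const, ← integral_sub hi1 (hρC.mul_const X)]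
        congr 1
        ext z
        ring
      rw [this, ha]
      ring
    rw [e1]
    calc ‖∫ z, (conj (h z) * (ρ z : ℂ)) * (V z - X)‖
        ≤ ∫ z, ‖(conj (h z) * (ρ z : ℂ)) * (V z - X)‖ := norm_integral_le_integral_norm _
      _ ≤ ∫ z, ‖X‖ / 2 * (‖h z‖ * ρ z) := by
          apply integral_mono_of_nonneg (ae_of_all _ fun z => norm_nonneg _)
            ((box_int hρ hc.norm).const_mul _)
          refine ae_of_all _ fun z => ?_
          simp only [norm_mul, RCLike.norm_conj, Complex.norm_real, Real.norm_eq_abs,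
            abs_of_nonneg (h0 z)]
          by_cases hz : ρ z = 0
          · simp [hz]
          · rw [mul_comm]
            exact mul_le_mul_of_nonneg_right (hbox z hz) (mul_nonneg (norm_nonneg _) (h0 z))
      _ = _ := by rw [integral_const_mul]
  -- (c)
  have hcK : 2 * K ≤ l * n + 2 * ‖X‖ * J := by
    have h1 := integral_U_mul_eq hρ hN
    rw [← hh, ← hV, ← hK] at h1
    have h2 : ∫ z, U ρ z * N z ≤ l * n := by
      rw [hn, ← integral_const_mul]
      exact integral_mono hiU2 ((box_int0 hN).const_mul l)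
        fun z => mul_le_mul_of_nonneg_right (hU z) (hN0 z)
    have h3 := (abs_le.1 ((Complex.abs_re_le_norm _).trans hcross)).1
    nlinarith
  -- (d)
  have hd : ‖X‖ * m / 2 ≤ ∫ z, ‖h z‖ * N z := by
    have e1 : ‖(∫ z, V z * (ρ z : ℂ)) - X * (m : ℂ)‖ ≤ ‖X‖ / 2 * m := by
      have : (∫ z, V z * (ρ z : ℂ)) - X * (m : ℂ) = ∫ z, (V z - X) * (ρ z : ℂ) := by
        rw [hm, ← integral_complex_ofReal, ← integral_const_mul,
          ← integral_sub hρV (hρ.ofReal.integrable.const_mul X)]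
        congr 1
        ext z
        ring
      rw [this]
      calc ‖∫ z, (V z - X) * (ρ z : ℂ)‖ ≤ ∫ z, ‖(V z - X) * (ρ z : ℂ)‖ :=
            norm_integral_le_integral_norm _
        _ ≤ ∫ z, ‖X‖ / 2 * ρ z := by
            apply integral_mono_of_nonneg (ae_of_all _ fun z => norm_nonneg _)
              ((box_int0 hρ).const_mul _)
            refine ae_of_all _ fun z => ?_
            simp only [norm_mul, Complex.norm_real, Real.norm_eq_abs, abs_of_nonneg (h0 z)]
            by_cases hz : ρ z = 0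
            · simp [hz]
            · exact mul_le_mul_of_nonneg_right (hbox z hz) (h0 z)
        _ = _ := by rw [integral_const_mul]
    have e2 : ∫ z, V z * (ρ z : ℂ) = - ∫ z, (N z : ℂ) * h z := CT_antisymm hN.ofReal hρ.ofReal
    have e3 : ‖∫ z, (N z : ℂ) * h z‖ ≤ ∫ z, ‖h z‖ * N z := by
      refine (norm_integral_le_integral_norm _).trans (le_of_eq ?_)
      congr 1
      ext z
      rw [norm_mul, Complex.norm_real, Real.norm_eq_abs, abs_of_nonneg (hN0 z), mul_comm]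
    have e4 : ‖X * (m : ℂ)‖ = ‖X‖ * m := by
      rw [norm_mul, Complex.norm_real, Real.norm_eq_abs, abs_of_nonneg hm0]
    have e5 : ‖X * (m : ℂ)‖ ≤ ‖∫ z, V z * (ρ z : ℂ)‖ + ‖X‖ / 2 * m := by
      calc ‖X * (m : ℂ)‖ = ‖(∫ z, V z * (ρ z : ℂ)) - ((∫ z, V z * (ρ z : ℂ)) - X * (m : ℂ))‖ := by
            rw [sub_sub_cancel]
        _ ≤ _ := (norm_sub_le _ _).trans (by linarith)
    rw [e4, e2, norm_neg] at e5
    linarith
  have hcs := box_cs hN hN0 hc.norm
  rw [← hK, ← hn] at hcs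
  have hP : (‖X‖ * m / 2) ^ 2 ≤ n * K :=
    (pow_le_pow_left₀ (by positivity) hd 2).trans hcs
  rw [le_div_iff₀ hXp]
  set P : ℝ := m * ‖X‖ with hPdef
  have hP0 : 0 ≤ P := mul_nonneg hm0 hXp.le
  set t : ℝ := s * n with ht
  have ht0 : 0 ≤ t := mul_nonneg hs0 hn0
  have hfin : P ^ 2 / 4 ≤ t ^ 2 / 2 + 41 / 100 * (P * t) := by
    have h1 : n * K ≤ n * ((l * n + 2 * ‖X‖ * J) / 2) :=
      mul_le_mul_of_nonneg_left (by linarith) hn0
    have h2 : n * (‖X‖ * J) ≤ n * (‖X‖ * (41 / 100 * (s * m))) := by gcongr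
    have h3 : (‖X‖ * m / 2) ^ 2 = P ^ 2 / 4 := by rw [hPdef]; ring
    have h4 : n * (l * n) = t ^ 2 := by rw [ht, mul_pow, hs]; ring
    have h5 : n * (‖X‖ * (41 / 100 * (s * m))) = 41 / 100 * (P * t) := by rw [hPdef, ht]; ring
    rw [h3] at hP
    nlinarith
  show P ≤ 3 * s * n
  rw [mul_assoc, ← ht]
  by_contra hcon
  push Not at hcon
  nlinarith [mul_nonneg hP0 ht0, mul_pos (show 0 < P by linarith) (show 0 < P - 3 * t by linarith),
    mul_nonneg ht0 (show 0 ≤ P - 3 * t by linarith)]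

end DH
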