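import Pool.Agent.H30.DH.NiceB

open MeasureTheory Set Filter Topology
open scoped ComplexConjugate

namespace DH

variable {E : Type*} [NormedAddCommGroup E] [NormedSpace ℂ E]

omit [NormedSpace ℂ E] in
theorem CauchyB.exists_bounds {f : ℂ → E} (hf : Nice f) :
    ∃ B R : ℝ, 0 ≤ B ∧ 0 ≤ R ∧ (∀ z, ‖f z‖ ≤ B) ∧
      ∀ z, z ∉ Metric.closedBall (0 : ℂ) R → f z = 0 := by
  obtain ⟨B, hB⟩ := hf.bdd
  obtain ⟨R, hR⟩ := hf.supp
  refine ⟨B, max R 0, (norm_nonneg _).trans (hB 0), le_max_right _ _, hB, ?_⟩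
  intro z hz
  apply hR
  rw [mem_closedBall_zero_iff, not_le] at hz
  exact (le_max_left _ _).trans_lt hz

theorem CauchyB.meas_inv (z : ℂ) : Measurable fun w : ℂ => ‖w - z‖⁻¹ :=
  ((measurable_id.sub_const z).norm).inv

theorem Nice.integrable_norm_cauchy {f : ℂ → E} (hf : Nice f) (z : ℂ) :
    Integrable (fun w => ‖w - z‖⁻¹ * ‖f w‖) := by
  obtain ⟨B, R, _, _, hB, hs⟩ := CauchyB.exists_bounds hf
  have h1 : IntegrableOn (fun w => ‖w - z‖⁻¹ * ‖f w‖) (Metric.closedBall 0 R) := by
    refine Integrable.mul_bdd (c := B) (integrableOn_inv_closedBall 0 z R)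
      hf.meas.norm.aestronglyMeasurable ?_
    exact Eventually.of_forall fun w => by rw [norm_norm]; exact hB w
  refine (integrableOn_iff_integrable_of_support_subset ?_).mp h1
  intro w hw
  by_contra hcon
  exact hw (by simp [hs w hcon])

theorem CauchyB.aesm {f : ℂ → E} (hf : StronglyMeasurable f) (z : ℂ) :
    StronglyMeasurable (fun w => (w - z)⁻¹ • f w) :=
  ((measurable_id.sub_const z).inv.stronglyMeasurable).smul hf

theorem Nice.integrable_cauchy {f : ℂ → E} (hf : Nice f) (z : ℂ) :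
    Integrable (fun w => (w - z)⁻¹ • f w) := by
  refine (hf.integrable_norm_cauchy z).mono' (CauchyB.aesm hf.meas z).aestronglyMeasurable ?_
  exact Eventually.of_forall fun w => by rw [norm_smul, norm_inv]

theorem norm_CT_le_integral (f : ℂ → E) (z : ℂ) : ‖CT f z‖ ≤ ∫ w, ‖w - z‖⁻¹ * ‖f w‖ := by
  unfold CT
  refine (norm_integral_le_integral_norm _).trans (le_of_eq ?_)
  congr 1
  funext w
  rw [norm_smul, norm_inv]

/-- uniform bound -/
theorem Nice.exists_integral_le {f : ℂ → E} (hf : Nice f) :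
    ∃ B : ℝ, 0 ≤ B ∧ ∀ z, ∫ w, ‖w - z‖⁻¹ * ‖f w‖ ≤ B := by
  obtain ⟨B, R, hB0, hR0, hB, hs⟩ := CauchyB.exists_bounds hf
  refine ⟨3 * Real.pi * R * B, by positivity, fun z => ?_⟩
  have h1 : ∫ w, ‖w - z‖⁻¹ * ‖f w‖ = ∫ w in Metric.closedBall 0 R, ‖w - z‖⁻¹ * ‖f w‖ := by
    symm
    apply setIntegral_eq_integral_of_forall_compl_eq_zero
    intro w hw
    simp [hs w hw]
  rw [h1]
  calc ∫ w in Metric.closedBall 0 R, ‖w - z‖⁻¹ * ‖f w‖
      ≤ ∫ w in Metric.closedBall 0 R, ‖w - z‖⁻¹ * B := by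
        refine integral_mono (hf.integrable_norm_cauchy z).integrableOn
          ((integrableOn_inv_closedBall 0 z R).mul_const B) ?_
        intro w
        exact mul_le_mul_of_nonneg_left (hB w) (by positivity)
    _ = (∫ w in Metric.closedBall 0 R, ‖w - z‖⁻¹) * B := integral_mul_const _ _
    _ ≤ 3 * Real.pi * R * B :=
        mul_le_mul_of_nonneg_right (setIntegral_inv_closedBall_le 0 z hR0) hB0

theorem Nice.exists_norm_CT_le {f : ℂ → E} (hf : Nice f) :
    ∃ B : ℝ, 0 ≤ B ∧ ∀ z, ‖CT f z‖ ≤ B := by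
  obtain ⟨B, hB0, hB⟩ := hf.exists_integral_le
  exact ⟨B, hB0, fun z => (norm_CT_le_integral f z).trans (hB z)⟩

theorem CT_add {f g : ℂ → E} (hf : Nice f) (hg : Nice g) (z : ℂ) :
    CT (fun w => f w + g w) z = CT f z + CT g z := by
  unfold CT
  rw [← integral_add (hf.integrable_cauchy z) (hg.integrable_cauchy z)]
  congr 1
  funext w
  rw [smul_add]

theorem CT_smul (c : ℂ) (f : ℂ → E) (z : ℂ) : CT (fun w => c • f w) z = c • CT f z := by
  unfold CT
  rw [← integral_smul]
  congr 1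
  funext w
  rw [smul_comm]

/-- the regularised kernel -/
noncomputable def CauchyB.Ks (s : ℝ) (u : ℂ) : ℂ := (((max (‖u‖ ^ 2) (s ^ 2))⁻¹ : ℝ) : ℂ) * conj u

theorem CauchyB.Ks_cont {s : ℝ} (hs : 0 < s) : Continuous (CauchyB.Ks s) := by
  unfold CauchyB.Ks
  refine (Complex.continuous_ofReal.comp (Continuous.inv₀ (by fun_prop) ?_)).mul
    Complex.continuous_conj
  intro u
  have : 0 < s ^ 2 := by positivity
  exact (this.trans_le (le_max_right _ _)).ne'

theorem CauchyB.Ks_le {s : ℝ} (hs : 0 < s) (u : ℂ) : ‖CauchyB.Ks s u‖ ≤ s⁻¹ := by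
  unfold CauchyB.Ks
  rw [norm_mul, Complex.norm_real, Complex.norm_conj, norm_inv, Real.norm_eq_abs,
    abs_of_nonneg (by positivity)]
  rcases le_total ‖u‖ s with h | h
  · rw [max_eq_right (pow_le_pow_left₀ (norm_nonneg _) h 2)]
    calc (s ^ 2)⁻¹ * ‖u‖ ≤ (s ^ 2)⁻¹ * s := by gcongr
      _ = s⁻¹ := by field_simp
  · rw [max_eq_left (pow_le_pow_left₀ hs.le h 2)]
    have : 0 < ‖u‖ := hs.trans_le h
    calc (‖u‖ ^ 2)⁻¹ * ‖u‖ = ‖u‖⁻¹ := by field_simp
      _ ≤ s⁻¹ := by gcongr

theorem CauchyB.Ks_sub {s : ℝ} (hs : 0 < s) (u : ℂ) :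
    ‖u⁻¹ - CauchyB.Ks s u‖ ≤ (Metric.closedBall (0 : ℂ) s).indicator (fun u => ‖u‖⁻¹) u := by
  rcases eq_or_ne u 0 with rfl | hu
  · simp only [CauchyB.Ks, inv_zero, map_zero, mul_zero, sub_self, norm_zero]
    exact indicator_nonneg (fun _ _ => by positivity) _
  have hu' : 0 < ‖u‖ := norm_pos_iff.mpr hu
  have e : u⁻¹ = (((‖u‖ ^ 2)⁻¹ : ℝ) : ℂ) * conj u := by
    rw [Complex.inv_def, Complex.normSq_eq_norm_sq, mul_comm]
  rcases le_or_gt ‖u‖ s with h | h
  · rw [indicator_of_mem (mem_closedBall_zero_iff.mpr h)]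
    unfold CauchyB.Ks
    rw [e, ← sub_mul, ← Complex.ofReal_sub, norm_mul, Complex.norm_real, Complex.norm_conj,
      max_eq_right (pow_le_pow_left₀ (norm_nonneg _) h 2), Real.norm_eq_abs]
    have h1 : (s ^ 2)⁻¹ ≤ (‖u‖ ^ 2)⁻¹ := by gcongr
    have h2 : 0 < (s ^ 2)⁻¹ := by positivity
    rw [abs_of_nonneg (by linarith)]
    calc ((‖u‖ ^ 2)⁻¹ - (s ^ 2)⁻¹) * ‖u‖ ≤ (‖u‖ ^ 2)⁻¹ * ‖u‖ := by gcongr; linarith
      _ = ‖u‖⁻¹ := by field_simp
  · rw [indicator_of_notMem (by rw [mem_closedBall_zero_iff]; linarith)]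
    unfold CauchyB.Ks
    rw [e, max_eq_left (pow_le_pow_left₀ hs.le h.le 2), sub_self, norm_zero]

theorem Nice.continuous_CT {f : ℂ → E} (hf : Nice f) : Continuous (CT f) := by
  obtain ⟨B, R, hB0, hR0, hB, hs⟩ := CauchyB.exists_bounds hf
  apply continuous_of_uniform_approx_of_continuous
  intro u hu
  obtain ⟨ε, hε, hεu⟩ := Metric.mem_uniformity_dist.mp hu
  -- the scale
  obtain ⟨s, hs0, hsε⟩ : ∃ s : ℝ, 0 < s ∧ B * (2 * Real.pi * s) < ε := by
    refine ⟨ε / (2 * Real.pi * (B + 1)), by positivity, ?_⟩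
    have : B * (2 * Real.pi * (ε / (2 * Real.pi * (B + 1)))) = ε * (B / (B + 1)) := by
      field_simp
    rw [this]
    have h1 : B / (B + 1) < 1 := by rw [div_lt_one (by positivity)]; linarith
    nlinarith
  have hmK : ∀ z, StronglyMeasurable fun w => CauchyB.Ks s (w - z) • f w := fun z =>
    (((CauchyB.Ks_cont hs0).comp (continuous_id.sub continuous_const)).stronglyMeasurable).smul
      hf.meas
  have hbK : ∀ z w, ‖CauchyB.Ks s (w - z) • f w‖ ≤ s⁻¹ * ‖f w‖ := fun z w => by
    rw [norm_smul]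
    exact mul_le_mul_of_nonneg_right (CauchyB.Ks_le hs0 _) (norm_nonneg _)
  refine ⟨fun z => ∫ w, CauchyB.Ks s (w - z) • f w, ?_, ?_⟩
  · apply continuous_of_dominated (bound := fun w => s⁻¹ * ‖f w‖)
    · exact fun z => (hmK z).aestronglyMeasurable
    · exact fun z => Eventually.of_forall fun w => hbK z w
    · exact hf.integrable.norm.const_mul _
    · refine Eventually.of_forall fun w => ?_
      exact ((CauchyB.Ks_cont hs0).comp (continuous_const.sub continuous_id)).smul continuous_const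
  · intro z
    apply hεu
    rw [dist_eq_norm]
    unfold CT
    have i1 : Integrable fun w => CauchyB.Ks s (w - z) • f w :=
      (hf.integrable.norm.const_mul s⁻¹).mono' (hmK z).aestronglyMeasurable
        (Eventually.of_forall fun w => hbK z w)
    rw [← integral_sub (hf.integrable_cauchy z) i1]
    refine (norm_integral_le_integral_norm _).trans_lt ?_
    have i2 : IntegrableOn (fun w => ‖w - z‖⁻¹ * B) (Metric.closedBall z s) :=
      (integrableOn_inv_closedBall z z s).mul_const B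
    calc ∫ w, ‖(w - z)⁻¹ • f w - CauchyB.Ks s (w - z) • f w‖
        ≤ ∫ w, (Metric.closedBall z s).indicator (fun w => ‖w - z‖⁻¹ * B) w := by
          refine integral_mono ((hf.integrable_cauchy z).sub i1).norm
            ((integrable_indicator_iff Metric.isClosed_closedBall.measurableSet).mpr i2) ?_
          intro w
          show ‖(w - z)⁻¹ • f w - CauchyB.Ks s (w - z) • f w‖ ≤ _
          rw [← sub_smul, norm_smul]
          have h1 := CauchyB.Ks_sub hs0 (w - z)
          by_cases hw : w ∈ Metric.closedBall z s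
          · rw [indicator_of_mem hw]
            rw [indicator_of_mem (by rwa [mem_closedBall_zero_iff, ← dist_eq_norm])] at h1
            exact mul_le_mul h1 (hB w) (norm_nonneg _) (by positivity)
          · rw [indicator_of_notMem hw]
            rw [indicator_of_notMem (by rwa [mem_closedBall_zero_iff, ← dist_eq_norm])] at h1
            have : ‖(w - z)⁻¹ - CauchyB.Ks s (w - z)‖ = 0 := le_antisymm h1 (norm_nonneg _)
            rw [this, zero_mul]
      _ = (∫ w in Metric.closedBall z s, ‖w - z‖⁻¹) * B := by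
          rw [integral_indicator Metric.isClosed_closedBall.measurableSet, integral_mul_const]
      _ = B * (2 * Real.pi * s) := by rw [setIntegral_inv_self z hs0.le]; ring
      _ < ε := hsε

theorem Nice.tendsto_CT {f : ℂ → E} (hf : Nice f) : Tendsto (CT f) (cocompact ℂ) (𝓝 0) := by
  obtain ⟨B, R, hB0, hR0, hB, hs⟩ := CauchyB.exists_bounds hf
  apply squeeze_zero_norm' (a := fun z : ℂ => (‖z‖ - R)⁻¹ * ∫ w, ‖f w‖)
  · have h1 : ∀ᶠ z : ℂ in cocompact ℂ, R < ‖z‖ :=
      tendsto_norm_cocompact_atTop.eventually_gt_atTop R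
    filter_upwards [h1] with z hz
    refine (norm_CT_le_integral f z).trans ?_
    rw [← integral_const_mul]
    refine integral_mono (hf.integrable_norm_cauchy z) (hf.integrable.norm.const_mul _) ?_
    intro w
    show ‖w - z‖⁻¹ * ‖f w‖ ≤ (‖z‖ - R)⁻¹ * ‖f w‖
    by_cases hw : w ∈ Metric.closedBall (0 : ℂ) R
    · rw [mem_closedBall_zero_iff] at hw
      apply mul_le_mul_of_nonneg_right _ (norm_nonneg _)
      have h2 : ‖z‖ - R ≤ ‖w - z‖ := by
        have := norm_sub_norm_le z w
        rw [norm_sub_rev] at this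
        linarith
      have h3 : 0 < ‖z‖ - R := by linarith
      gcongr
    · rw [hs w hw, norm_zero, mul_zero, mul_zero]
  · have h1 : Tendsto (fun z : ℂ => ‖z‖ - R) (cocompact ℂ) atTop :=
      tendsto_atTop_add_const_right _ _ tendsto_norm_cocompact_atTop
    have h2 := h1.inv_tendsto_atTop.mul_const (∫ w, ‖f w‖)
    rw [zero_mul] at h2
    exact h2

/-- analytic off the support -/
theorem Nice.differentiableOn_CT {f : ℂ → ℂ} (hf : Nice f) {K : Set ℂ} (hK : IsClosed K)
    (h0 : ∀ z ∉ K, f z = 0) : DifferentiableOn ℂ (CT f) Kᶜ := by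
  intro z0 hz0
  obtain ⟨δ, hδ, hδK⟩ := Metric.isOpen_iff.mp hK.isOpen_compl z0 hz0
  have hfar : ∀ z ∈ Metric.ball z0 (δ / 2), ∀ w, f w ≠ 0 → δ / 2 ≤ ‖w - z‖ := by
    intro z hz w hw
    by_contra hcon
    rw [not_le] at hcon
    apply hw
    apply h0
    apply hδK
    rw [Metric.mem_ball] at hz ⊢
    have h1 := dist_triangle w z z0
    rw [dist_eq_norm w z] at h1
    linarith
  have key := hasDerivAt_integral_of_dominated_loc_of_deriv_le (μ := volume)
    (F := fun z w => (w - z)⁻¹ • f w) (F' := fun z w => ((w - z)⁻¹) ^ 2 * f w) (x₀ := z0)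
    (s := Metric.ball z0 (δ / 2)) (bound := fun w => ((δ / 2)⁻¹) ^ 2 * ‖f w‖)
    (Metric.ball_mem_nhds z0 (half_pos hδ))
    (Eventually.of_forall fun z => (CauchyB.aesm hf.meas z).aestronglyMeasurable)
    (hf.integrable_cauchy z0)
    (((((measurable_id.sub_const z0).inv).pow_const 2).stronglyMeasurable.mul
      hf.meas).aestronglyMeasurable)
    (Eventually.of_forall fun w z hz => by
      rw [norm_mul, norm_pow, norm_inv]
      by_cases hw : f w = 0
      · rw [hw, norm_zero, mul_zero, mul_zero]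
      · have h1 := hfar z hz w hw
        gcongr)
    (hf.integrable.norm.const_mul _)
    (Eventually.of_forall fun w z hz => by
      by_cases hw : f w = 0
      · simp only [hw, smul_zero, mul_zero]
        exact hasDerivAt_const z (0 : ℂ)
      · have h1 := hfar z hz w hw
        have h2 : w - z ≠ 0 := by
          intro h
          rw [h, norm_zero] at h1
          linarith
        have h3 : HasDerivAt (fun z => w - z) (-1) z := by
          simpa using (hasDerivAt_id z).const_sub w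
        have h4 := (h3.inv h2).mul_const (f w)
        have h5 : -(-1 : ℂ) / (w - z) ^ 2 * f w = ((w - z)⁻¹) ^ 2 * f w := by
          rw [neg_neg, inv_pow, one_div]
        rw [h5] at h4
        exact h4)
  exact key.2.differentiableAt.differentiableWithinAt

theorem CauchyB.meas_prod {f : ℂ → E} (hf : StronglyMeasurable f) :
    StronglyMeasurable fun p : ℂ × ℂ => (p.2 - p.1)⁻¹ • f p.2 :=
  ((measurable_snd.sub measurable_fst).inv.stronglyMeasurable).smul
    (hf.comp_measurable measurable_snd)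

theorem CT_antisymm {f g : ℂ → ℂ} (hf : Nice f) (hg : Nice g) :
    ∫ z, CT f z * g z = - ∫ z, f z * CT g z := by
  obtain ⟨B, hB0, hB⟩ := hf.exists_integral_le
  have hm : StronglyMeasurable fun p : ℂ × ℂ => (p.2 - p.1)⁻¹ • f p.2 * g p.1 :=
    (CauchyB.meas_prod hf.meas).mul (hg.meas.comp_measurable measurable_fst)
  have hint : Integrable (fun p : ℂ × ℂ => (p.2 - p.1)⁻¹ • f p.2 * g p.1)
      (volume.prod volume) := by
    rw [integrable_prod_iff hm.aestronglyMeasurable]
    refine ⟨Eventually.of_forall fun z => (hf.integrable_cauchy z).mul_const (g z), ?_⟩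
    refine (hg.integrable.norm.const_mul B).mono' ?_ ?_
    · exact hm.norm.integral_prod_right.aestronglyMeasurable
    · refine Eventually.of_forall fun z => ?_
      rw [Real.norm_eq_abs, abs_of_nonneg (integral_nonneg fun _ => norm_nonneg _)]
      have e : ∫ w, ‖(w - z)⁻¹ • f w * g z‖ = (∫ w, ‖w - z‖⁻¹ * ‖f w‖) * ‖g z‖ := by
        rw [← integral_mul_const]
        congr 1
        funext w
        rw [norm_mul, norm_smul, norm_inv]
      show ∫ w, ‖(w - z)⁻¹ • f w * g z‖ ≤ _
      rw [e]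
      exact mul_le_mul_of_nonneg_right (hB z) (norm_nonneg _)
  have h1 : ∫ z, CT f z * g z = ∫ z, ∫ w, (w - z)⁻¹ • f w * g z := by
    congr 1
    funext z
    rw [CT, integral_mul_const]
  rw [h1, integral_integral_swap (f := fun z w => (w - z)⁻¹ • f w * g z) hint, ← integral_neg]
  congr 1
  funext w
  rw [CT, ← integral_const_mul, ← integral_neg]
  congr 1
  funext z
  have : (w - z)⁻¹ = -(z - w)⁻¹ := by rw [← neg_sub, inv_neg]
  rw [this, smul_eq_mul, smul_eq_mul]
  ring

theorem CauchyB.integrable_prod {f : ℂ → E} (hf : Integrable f) (x : ℂ) {r : ℝ} (hr : 0 ≤ r) :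
    Integrable (fun p : ℂ × ℂ => (p.2 - p.1)⁻¹ • f p.2)
      ((volume.restrict (Metric.closedBall x r)).prod volume) ∧
    (∫ w, ∫ z in Metric.closedBall x r, ‖(w - z)⁻¹ • f w‖) ≤
      3 * Real.pi * r * ∫ w, ‖f w‖ := by
  have hm : AEStronglyMeasurable (fun p : ℂ × ℂ => (p.2 - p.1)⁻¹ • f p.2)
      ((volume.restrict (Metric.closedBall x r)).prod volume) :=
    ((measurable_snd.sub measurable_fst).inv.stronglyMeasurable).aestronglyMeasurable.smul
      hf.1.comp_snd
  have hz : ∀ w, IntegrableOn (fun z => ‖(w - z)⁻¹ • f w‖) (Metric.closedBall x r) := by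
    intro w
    have h1 := (integrableOn_inv_closedBall x w r).mul_const ‖f w‖
    refine h1.congr (Eventually.of_forall fun z => ?_)
    show ‖z - w‖⁻¹ * ‖f w‖ = ‖(w - z)⁻¹ • f w‖
    rw [norm_smul, norm_inv, norm_sub_rev]
  have hle : ∀ w, ∫ z in Metric.closedBall x r, ‖(w - z)⁻¹ • f w‖ ≤
      3 * Real.pi * r * ‖f w‖ := by
    intro w
    have e : ∫ z in Metric.closedBall x r, ‖(w - z)⁻¹ • f w‖ =
        (∫ z in Metric.closedBall x r, ‖z - w‖⁻¹) * ‖f w‖ := by
      rw [← integral_mul_const]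
      congr 1
      funext z
      rw [norm_smul, norm_inv, norm_sub_rev]
    rw [e]
    exact mul_le_mul_of_nonneg_right (setIntegral_inv_closedBall_le x w hr) (norm_nonneg _)
  have hmi : AEStronglyMeasurable
      (fun w => ∫ z in Metric.closedBall x r, ‖(w - z)⁻¹ • f w‖) volume :=
    hm.norm.prod_swap.integral_prod_right'
  have hi : Integrable (fun w => ∫ z in Metric.closedBall x r, ‖(w - z)⁻¹ • f w‖) := by
    refine (hf.norm.const_mul (3 * Real.pi * r)).mono' hmi (Eventually.of_forall fun w => ?_)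
    rw [Real.norm_eq_abs, abs_of_nonneg (integral_nonneg fun _ => norm_nonneg _)]
    exact hle w
  constructor
  · rw [integrable_prod_iff' hm]
    refine ⟨Eventually.of_forall fun w => ?_, hi⟩
    have hms : StronglyMeasurable fun z : ℂ => (w - z)⁻¹ • f w :=
      ((measurable_const.sub measurable_id).inv.stronglyMeasurable).smul_const (f w)
    exact (integrable_norm_iff hms.aestronglyMeasurable).mp (hz w)
  · calc (∫ w, ∫ z in Metric.closedBall x r, ‖(w - z)⁻¹ • f w‖)
        ≤ ∫ w, 3 * Real.pi * r * ‖f w‖ := integral_mono hi (hf.norm.const_mul _) hle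
      _ = 3 * Real.pi * r * ∫ w, ‖f w‖ := integral_const_mul _ _

/-- for merely integrable `f` -/
theorem setIntegral_norm_CT_le {f : ℂ → E} (hf : Integrable f) (x : ℂ) {r : ℝ} (hr : 0 ≤ r) :
    IntegrableOn (fun z => ‖CT f z‖) (Metric.closedBall x r) ∧
      ∫ z in Metric.closedBall x r, ‖CT f z‖ ≤ 3 * Real.pi * r * ∫ w, ‖f w‖ := by
  obtain ⟨h1, h2⟩ := CauchyB.integrable_prod hf x hr
  have h3 : IntegrableOn (fun z => ‖CT f z‖) (Metric.closedBall x r) := h1.integral_prod_left.norm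
  refine ⟨h3, le_trans ?_ h2⟩
  have h4 := integral_integral_swap (f := fun z w => ‖(w - z)⁻¹ • f w‖) h1.norm
  rw [← h4]
  refine integral_mono h3 h1.norm.integral_prod_left ?_
  intro z
  exact norm_integral_le_integral_norm _

/-- for merely integrable `f`, absolute convergence almost everywhere -/
theorem ae_integrable_cauchy {f : ℂ → E} (hf : Integrable f) :
    ∀ᵐ z : ℂ, Integrable (fun w => (w - z)⁻¹ • f w) := by
  have h1 : ∀ n : ℕ, ∀ᵐ z ∂(volume.restrict (Metric.closedBall (0 : ℂ) n)),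
      Integrable (fun w => (w - z)⁻¹ • f w) := fun n =>
    (CauchyB.integrable_prod hf 0 (Nat.cast_nonneg n)).1.prod_right_ae
  have h2 : (univ : Set ℂ) = ⋃ n : ℕ, Metric.closedBall (0 : ℂ) n := by
    symm
    rw [eq_univ_iff_forall]
    intro z
    rw [mem_iUnion]
    obtain ⟨n, hn⟩ := exists_nat_ge ‖z‖
    exact ⟨n, mem_closedBall_zero_iff.mpr hn⟩
  have h3 := (ae_restrict_iUnion_iff (μ := (volume : Measure ℂ))
    (fun n : ℕ => Metric.closedBall (0 : ℂ) n)
    (fun z => Integrable (fun w => (w - z)⁻¹ • f w))).mpr h1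
  rw [← h2, Measure.restrict_univ] at h3
  exact h3

theorem CT_fst {f : ℂ → ℂ × ℂ} (hf : Nice f) (z : ℂ) : (CT f z).1 = CT (fun w => (f w).1) z := by
  unfold CT
  rw [fst_integral (hf.integrable_cauchy z)]
  rfl

theorem CT_snd {f : ℂ → ℂ × ℂ} (hf : Nice f) (z : ℂ) : (CT f z).2 = CT (fun w => (f w).2) z := by
  unfold CT
  rw [snd_integral (hf.integrable_cauchy z)]
  rfl

end DH
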