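import Mathlib

open Set

namespace DH

/-- A path covered by finitely many closed balls: there is a chain of distinct balls from the
start to the end, consecutive ones being close. -/
theorem exists_chain (γ : ℝ → ℂ) (hγ : Continuous γ) {a b : ℝ} (hab : a ≤ b) (u : Finset ℂ)
    (r : ℂ → ℝ) (hcov : ∀ t ∈ Icc a b, ∃ x ∈ u, γ t ∈ Metric.closedBall x (r x)) :
    ∃ (n : ℕ) (c : ℕ → ℂ), (∀ i ≤ n, c i ∈ u) ∧ (∀ i ≤ n, ∀ j ≤ n, c i = c j → i = j) ∧
      (∀ i < n, ‖c (i + 1) - c i‖ ≤ r (c i) + r (c (i + 1))) ∧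
      ‖γ a - c 0‖ ≤ r (c 0) ∧ ‖γ b - c n‖ ≤ r (c n) := by
  classical
  let G : SimpleGraph ℂ :=
    { Adj := fun x y => x ≠ y ∧ x ∈ u ∧ y ∈ u ∧
        (Metric.closedBall x (r x) ∩ Metric.closedBall y (r y)).Nonempty
      symm := ⟨fun x y h => ⟨h.1.symm, h.2.2.1, h.2.1, by rw [inter_comm]; exact h.2.2.2⟩⟩
      loopless := ⟨fun x h => h.1 rfl⟩ }
  obtain ⟨c0, hc0u, hc0⟩ := hcov a (left_mem_Icc.2 hab)
  let S : Finset ℂ := u.filter fun x => G.Reachable c0 x
  let A : Set ℝ := ⋃ x ∈ S, γ ⁻¹' (Metric.closedBall x (r x))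
  let B : Set ℝ := ⋃ x ∈ u \ S, γ ⁻¹' (Metric.closedBall x (r x))
  have hA : IsClosed A := isClosed_biUnion_finset fun x _ => Metric.isClosed_closedBall.preimage hγ
  have hB : IsClosed B := isClosed_biUnion_finset fun x _ => Metric.isClosed_closedBall.preimage hγ
  have hcovAB : Icc a b ⊆ A ∪ B := by
    intro t ht
    obtain ⟨x, hxu, hx⟩ := hcov t ht
    by_cases hxS : x ∈ S
    · exact Or.inl (mem_biUnion hxS hx)
    · exact Or.inr (mem_biUnion (Finset.mem_sdiff.2 ⟨hxu, hxS⟩) hx)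
  have hbA : b ∈ A := by
    by_contra hb
    have hbB : b ∈ B := (hcovAB (right_mem_Icc.2 hab)).resolve_left hb
    have haA : a ∈ A := mem_biUnion (Finset.mem_filter.2 ⟨hc0u, SimpleGraph.Reachable.refl _⟩) hc0
    have hconn := isPreconnected_closed_iff.1 (isPreconnected_Icc (a := a) (b := b)) A B hA hB hcovAB
      ⟨a, left_mem_Icc.2 hab, haA⟩ ⟨b, right_mem_Icc.2 hab, hbB⟩
    obtain ⟨t, _, htA, htB⟩ := hconn
    obtain ⟨x, hxS, hx⟩ := mem_iUnion₂.1 htA
    obtain ⟨y, hyS, hy⟩ := mem_iUnion₂.1 htB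
    obtain ⟨hyu, hyS⟩ := Finset.mem_sdiff.1 hyS
    obtain ⟨hxu, hxr⟩ := Finset.mem_filter.1 hxS
    apply hyS
    rw [Finset.mem_filter]
    refine ⟨hyu, hxr.trans ?_⟩
    by_cases hxy : x = y
    · subst hxy; exact SimpleGraph.Reachable.refl _
    · exact SimpleGraph.Adj.reachable ⟨hxy, hxu, hyu, ⟨γ t, hx, hy⟩⟩
  obtain ⟨cn, hcnS, hcn⟩ := mem_iUnion₂.1 hbA
  obtain ⟨hcnu, hreach⟩ := Finset.mem_filter.1 hcnS
  obtain ⟨p, hp⟩ := hreach.exists_isPath
  have hmem : ∀ i ≤ p.length, p.getVert i ∈ u := by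
    intro i hi
    rcases Nat.eq_zero_or_pos i with h0 | h0
    · subst h0; rw [SimpleGraph.Walk.getVert_zero]; exact hc0u
    · have := p.adj_getVert_succ (i := i - 1) (by omega)
      rw [Nat.sub_add_cancel h0] at this
      exact this.2.2.1
  refine ⟨p.length, p.getVert, hmem, ?_, ?_, ?_, ?_⟩
  · intro i hi j hj hij
    exact hp.getVert_injOn hi hj hij
  · intro i hi
    obtain ⟨w, hw1, hw2⟩ := (p.adj_getVert_succ hi).2.2.2
    rw [Metric.mem_closedBall] at hw1 hw2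
    rw [← dist_eq_norm]
    calc dist (p.getVert (i + 1)) (p.getVert i)
        ≤ dist (p.getVert (i + 1)) w + dist w (p.getVert i) := dist_triangle _ _ _
      _ ≤ r (p.getVert (i + 1)) + r (p.getVert i) := by
          rw [dist_comm (p.getVert (i + 1)) w]; exact add_le_add hw2 hw1
      _ = _ := add_comm _ _
  · rw [SimpleGraph.Walk.getVert_zero, ← dist_eq_norm]
    exact hc0
  · rw [SimpleGraph.Walk.getVert_length, ← dist_eq_norm]
    exact hcn

end DH
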