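import Mathlib

/-! # Definitions for MP_128c63_an (boundary limits along arcs at distinguished homomorphisms) -/

open MeasureTheory Set Filter Topology
open scoped ComplexConjugate

namespace DH

/-- bounded, strongly measurable, compactly supported functions on the plane -/
structure Nice {E : Type*} [NormedAddCommGroup E] (f : ℂ → E) : Prop where
  meas : StronglyMeasurable f
  bdd : ∃ B : ℝ, ∀ z, ‖f z‖ ≤ B
  supp : ∃ R : ℝ, ∀ z, R < ‖z‖ → f z = 0

/-- The Cauchy transform `C f (z) = ∫ f(w) / (w - z) dA(w)`. -/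
noncomputable def CT {E : Type*} [NormedAddCommGroup E] [NormedSpace ℂ E] (f : ℂ → E) (z : ℂ) : E :=
  ∫ w, (w - z)⁻¹ • f w

/-- Symmetrised kernel: `2 Re` of the three apex terms (equals the square of the Menger curvature). -/
noncomputable def SS (x y z : ℂ) : ℝ :=
  2 * ((x - z)⁻¹ * conj ((y - z)⁻¹)).re + 2 * ((y - x)⁻¹ * conj ((z - x)⁻¹)).re
    + 2 * ((z - y)⁻¹ * conj ((x - y)⁻¹)).re

/-- `U ρ (z) = ∬ SS x y z ρ(x) ρ(y)`, given by its closed formula. -/
noncomputable def U (ρ : ℂ → ℝ) (z : ℂ) : ℝ :=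
  2 * ‖CT (fun w => (ρ w : ℂ)) z‖ ^ 2
    - 4 * (CT (fun w => conj (CT (fun v => (ρ v : ℂ)) w) * (ρ w : ℂ)) z).re

/-- sample points `p + e (t0 + k h + i G k)` -/
noncomputable def pt (p e : ℂ) (t0 h : ℝ) (G : ℕ → ℝ) (k : ℕ) : ℂ :=
  p + e * (((t0 + k * h : ℝ) : ℂ) + (G k : ℂ) * Complex.I)

/-- density of the measure `∑_{k ∈ T} h · (uniform probability on the disk of radius h/4 at z_k)` -/
noncomputable def dens (T : Finset ℕ) (z : ℕ → ℂ) (h : ℝ) (w : ℂ) : ℝ :=
  ∑ k ∈ T, (Metric.closedBall (z k) (h / 4)).indicator (fun _ => 16 / (Real.pi * h)) w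

/-- far field: the part of `k` outside the open ball `B(x,R)` -/
noncomputable def far {E : Type*} [NormedAddCommGroup E] (k : ℂ → E) (x : ℂ) (R : ℝ) : ℂ → E :=
  (Metric.ball x R)ᶜ.indicator k

/-- near field: the part of `k` inside the open ball `B(x,R)` -/
noncomputable def near {E : Type*} [NormedAddCommGroup E] (k : ℂ → E) (x : ℂ) (R : ℝ) : ℂ → E :=
  (Metric.ball x R).indicator k

/-- truncated transform at the centre -/
noncomputable def HH {E : Type*} [NormedAddCommGroup E] [NormedSpace ℂ E] (k : ℂ → E) (x : ℂ) (R : ℝ) : ℝ :=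
  ‖CT (far k x R) x‖

/-- Poisson-like growth functional -/
noncomputable def GG {E : Type*} [NormedAddCommGroup E] (k : ℂ → E) (x : ℂ) (R : ℝ) : ℝ :=
  ∫ w, min R⁻¹ (R / ‖w - x‖ ^ 2) * ‖k w‖

/-- A configuration at scale `ρ`: a path along which `C k` is at least `1` on average at scale `ρ`. -/
structure Config {E : Type*} [NormedAddCommGroup E] [NormedSpace ℂ E] (ρ : ℝ) (γ : ℝ → ℂ) (a b : ℝ)
    (k : ℂ → E) : Prop where
  nice : Nice k
  le : a ≤ b
  cont : Continuous γ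
  large : ∀ t ∈ Icc a b, Real.pi * ρ ^ 2 ≤ ∫ z in Metric.closedBall (γ t) ρ, ‖CT k z‖

/-- the induction predicate -/
def PP (E : Type*) [NormedAddCommGroup E] [NormedSpace ℂ E] (ρ D Λ : ℝ) : Prop :=
  ∀ (γ : ℝ → ℂ) (a b : ℝ) (k : ℂ → E), Config ρ γ a b k → ‖γ b - γ a‖ ≤ D →
    ‖γ b - γ a‖ ≤ Λ * ∫ w, ‖k w‖

/-- weak type bound for a measure with density `ρ` (for `E`-valued densities) -/
def WeakType (E : Type*) [NormedAddCommGroup E] [NormedSpace ℂ E] (ρ : ℂ → ℝ) (CW : ℝ) : Prop :=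
  ∀ k : ℂ → E, Nice k → ∀ t : ℝ, 0 < t →
    ∫ z in {z | t < ‖CT k z‖}, ρ z ≤ CW * (∫ w, ‖k w‖) / t

end DH
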