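import Mathlib

namespace DH

theorem rising_sun_aux (N : ℕ) (V : ℕ → ℝ) (hV : ∀ k l, k ≤ l → l < N → V k ≤ V l) (c : ℝ)
    (hc : 0 < c) (P : ℕ → Prop) [DecidablePred P]
    (hP : ∀ k, P k ↔ ∃ l, k < l ∧ l < N ∧ c * ((l : ℝ) - k) < V l - V k) :
    ∀ d m : ℕ, m + d + 1 = N →
      c * ((Finset.Ico m N).filter P).card ≤ V (N - 1) - V m := by
  intro d
  induction d using Nat.strong_induction_on with
  | _ d ih =>
    intro m hm
    by_cases hPm : P m
    · obtain ⟨l, hml, hlN, hl⟩ := (hP m).mp hPm
      have h1 := ih (N - 1 - l) (by omega) l (by omega)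
      have h2 : Finset.Ico m N = Finset.Ico m l ∪ Finset.Ico l N :=
        (Finset.Ico_union_Ico_eq_Ico hml.le hlN.le).symm
      have h3 : ((Finset.Ico m N).filter P).card ≤ (l - m) + ((Finset.Ico l N).filter P).card := by
        rw [h2, Finset.filter_union]
        refine (Finset.card_union_le _ _).trans ?_
        gcongr
        refine (Finset.card_filter_le _ _).trans ?_
        simp
      have h4 : (((Finset.Ico m N).filter P).card : ℝ)
          ≤ ((l : ℝ) - m) + ((Finset.Ico l N).filter P).card := by
        have h5 : (((Finset.Ico m N).filter P).card : ℝ)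
          ≤ (((l - m) + ((Finset.Ico l N).filter P).card : ℕ) : ℝ) := by exact_mod_cast h3
        rw [Nat.cast_add, Nat.cast_sub hml.le] at h5
        exact h5
      have h6 := mul_le_mul_of_nonneg_left h4 hc.le
      rw [mul_add] at h6
      linarith
    · rcases Nat.eq_zero_or_pos d with rfl | hd
      · have h1 : (Finset.Ico m N).filter P = ∅ := by
          rw [Finset.filter_eq_empty_iff]
          intro k hk
          rw [Finset.mem_Ico] at hk
          obtain rfl : k = m := by omega
          exact hPm
        have h2 : N - 1 = m := by omega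
        rw [h1, h2]
        simp
      · have h1 : (Finset.Ico m N).filter P = (Finset.Ico (m + 1) N).filter P := by
          ext k
          simp only [Finset.mem_filter, Finset.mem_Ico]
          constructor
          · rintro ⟨⟨h1, h2⟩, h3⟩
            refine ⟨⟨?_, h2⟩, h3⟩
            rcases Nat.eq_or_lt_of_le h1 with h | h
            · subst h
              exact absurd h3 hPm
            · exact h
          · rintro ⟨⟨h1, h2⟩, h3⟩
            exact ⟨⟨by omega, h2⟩, h3⟩
        rw [h1]
        have h2 := ih (d - 1) (by omega) (m + 1) (by omega)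
        have h3 := hV m (m + 1) (by omega) (by omega)
        linarith

/-- one-sided discrete maximal (rising sun) lemma -/
theorem rising_sun (N : ℕ) (V : ℕ → ℝ) (hV : ∀ k l, k ≤ l → l < N → V k ≤ V l) (c : ℝ)
    (hc : 0 < c) [DecidablePred fun k => ∃ l, k < l ∧ l < N ∧ c * ((l : ℝ) - k) < V l - V k] :
    c * ((Finset.range N).filter
        (fun k => ∃ l, k < l ∧ l < N ∧ c * ((l : ℝ) - k) < V l - V k)).card ≤ V (N - 1) - V 0 := by
  rcases Nat.eq_zero_or_pos N with rfl | hN
  · simp
  · have h := rising_sun_aux N V hV c hc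
      (fun k => ∃ l, k < l ∧ l < N ∧ c * ((l : ℝ) - k) < V l - V k) (fun k => Iff.rfl)
      (N - 1) 0 (by omega)
    rw [Finset.range_eq_Ico]
    exact h

/-- large subset on which a sequence of bounded variation is Lipschitz -/
theorem exists_lipschitz_subset (N : ℕ) (G V : ℕ → ℝ)
    (hV : ∀ k l, k ≤ l → l < N → |G l - G k| ≤ V l - V k) (c : ℝ) (hc : 0 < c)
    (hTV : 4 * (V (N - 1) - V 0) ≤ c * N) :
    ∃ T : Finset ℕ, T ⊆ Finset.range N ∧ N ≤ 2 * T.card ∧
      ∀ k ∈ T, ∀ l ∈ T, |G k - G l| ≤ c * |(k : ℝ) - l| := by
  classical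
  have hV' : ∀ k l, k ≤ l → l < N → V k ≤ V l := fun k l hkl hl => by
    have := (abs_nonneg _).trans (hV k l hkl hl)
    linarith
  have h1 := rising_sun N V hV' c hc
  set P : ℕ → Prop := fun k => ∃ l, k < l ∧ l < N ∧ c * ((l : ℝ) - k) < V l - V k with hP
  refine ⟨(Finset.range N).filter (fun k => ¬ P k), Finset.filter_subset _ _, ?_, ?_⟩
  · have h2 : ((Finset.range N).filter P).card + ((Finset.range N).filter (fun k => ¬ P k)).card
        = N := by
      have := Finset.card_filter_add_card_filter_not (s := Finset.range N) P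
      simpa using this
    have h3 : 4 * ((((Finset.range N).filter P).card : ℕ) : ℝ) ≤ N := by
      by_contra hcon
      push Not at hcon
      have := mul_lt_mul_of_pos_left hcon hc
      have h4 : c * (4 * ((((Finset.range N).filter P).card : ℕ) : ℝ)) ≤ c * N := by
        calc c * (4 * ((((Finset.range N).filter P).card : ℕ) : ℝ))
            = 4 * (c * ((((Finset.range N).filter P).card : ℕ) : ℝ)) := by ring
          _ ≤ 4 * (V (N - 1) - V 0) := by gcongr
          _ ≤ c * N := hTV
      linarith
    have h5 : 4 * ((Finset.range N).filter P).card ≤ N := by exact_mod_cast h3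
    omega
  · have key : ∀ k l : ℕ, k ≤ l → k ∈ (Finset.range N).filter (fun k => ¬ P k) →
        l ∈ (Finset.range N).filter (fun k => ¬ P k) → |G k - G l| ≤ c * |(k : ℝ) - l| := by
      intro k l hkl hk hl
      rw [Finset.mem_filter, Finset.mem_range] at hk hl
      rcases Nat.eq_or_lt_of_le hkl with rfl | hlt
      · simp
      · have h2 : V l - V k ≤ c * ((l : ℝ) - k) := by
          by_contra hcon
          push Not at hcon
          exact hk.2 ⟨l, hlt, hl.1, hcon⟩
        have h3 := hV k l hkl hl.1
        have h4 : |(k : ℝ) - l| = (l : ℝ) - k := by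
          rw [abs_sub_comm, abs_of_nonneg]
          have : (k : ℝ) ≤ l := by exact_mod_cast hkl
          linarith
        rw [h4, abs_sub_comm]
        linarith
    intro k hk l hl
    rcases le_total k l with h | h
    · exact key k l h hk hl
    · have := key l k h hl hk
      rwa [abs_sub_comm, abs_sub_comm (l : ℝ)] at this

end DH
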