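import Pool.Agent.H30.DH.Defs
import Pool.Agent.H30.DH.MaxLemma
import Pool.Agent.H30.DH.Chain

open Set

namespace DH

/-- Selection of a large Lipschitz set of sample points near a path covered by few balls.
`M = 10 L` is the Lipschitz constant, `h = (8/10) d / N` the spacing. -/
theorem exists_sample (γ : ℝ → ℂ) (hγ : Continuous γ) {a b : ℝ} (hab : a ≤ b) (u : Finset ℂ)
    (r : ℂ → ℝ) (hcov : ∀ t ∈ Icc a b, ∃ x ∈ u, γ t ∈ Metric.closedBall x (r x))
    (hr0 : ∀ x ∈ u, 0 ≤ r x) {d : ℝ} (hd : 0 < d) (hdd : ‖γ b - γ a‖ = d)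
    (hr : ∀ x ∈ u, r x ≤ d / 10) {L : ℝ} (hL : 0 < L) (hsum : ∑ x ∈ u, r x ≤ L * d)
    (N : ℕ) (hN : 0 < N) :
    ∃ (e : ℂ) (T : Finset ℕ) (G : ℕ → ℝ) (idx : ℕ → ℂ), ‖e‖ = 1 ∧ T ⊆ Finset.range N ∧
      N ≤ 2 * T.card ∧
      (∀ k ∈ T, ∀ l ∈ T, |G k - G l| ≤ (10 * L) * (8 / 10 * d / N) * |(k : ℝ) - l|) ∧
      (∀ k ∈ T, idx k ∈ u ∧ ‖pt (γ a) e (d / 10) (8 / 10 * d / N) G k - idx k‖ ≤ 4 * r (idx k)) := by
  classical
  obtain ⟨n, c, hcu, hcinj, hcstep, hc0, hcn⟩ := exists_chain γ hγ hab u r hcov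
  have hNR : (0 : ℝ) < N := by exact_mod_cast hN
  set h : ℝ := 8 / 10 * d / N with hh
  have hhpos : 0 < h := by positivity
  have hhN : h * N = 8 / 10 * d := by rw [hh]; field_simp
  set e : ℂ := (γ b - γ a) / (d : ℂ) with he
  have hdC : (d : ℂ) ≠ 0 := by exact_mod_cast hd.ne'
  have hen : ‖e‖ = 1 := by
    rw [he, norm_div, hdd, Complex.norm_real, Real.norm_eq_abs, abs_of_pos hd, div_self hd.ne']
  have hee : e * (starRingEnd ℂ) e = 1 := by
    rw [Complex.mul_conj, Complex.normSq_eq_norm_sq, hen]; norm_num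
  -- coordinates
  let W : ℂ → ℂ := fun z => (starRingEnd ℂ) e * (z - γ a)
  have hW : ∀ z, z = γ a + e * W z := by
    intro z
    have : e * W z = z - γ a := by
      change e * ((starRingEnd ℂ) e * (z - γ a)) = _
      rw [← mul_assoc, hee, one_mul]
    rw [this]; ring
  have hWsub : ∀ z w, ‖W z - W w‖ = ‖z - w‖ := by
    intro z w
    have : W z - W w = (starRingEnd ℂ) e * (z - w) := by
      change (starRingEnd ℂ) e * (z - γ a) - (starRingEnd ℂ) e * (w - γ a) = _
      ring
    rw [this, norm_mul, RCLike.norm_conj, hen, one_mul]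
  have hWb : (W (γ b)).re = d := by
    have : W (γ b) = (d : ℂ) := by
      change (starRingEnd ℂ) e * (γ b - γ a) = _
      have h1 : γ b - γ a = e * d := by rw [he]; field_simp
      rw [h1, ← mul_assoc, mul_comm ((starRingEnd ℂ) e), hee, one_mul]
    rw [this, Complex.ofReal_re]
  have hWa : (W (γ a)).re = 0 := by
    have : W (γ a) = 0 := by
      change (starRingEnd ℂ) e * (γ a - γ a) = _
      rw [sub_self, mul_zero]
    rw [this, Complex.zero_re]
  let X : ℂ → ℝ := fun z => (W z).re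
  let Y : ℂ → ℝ := fun z => (W z).im
  have hXsub : ∀ z w, |X z - X w| ≤ ‖z - w‖ := by
    intro z w
    rw [← hWsub z w]
    have := Complex.abs_re_le_norm (W z - W w)
    rwa [Complex.sub_re] at this
  have hYsub : ∀ z w, |Y z - Y w| ≤ ‖z - w‖ := by
    intro z w
    rw [← hWsub z w]
    have := Complex.abs_im_le_norm (W z - W w)
    rwa [Complex.sub_im] at this
  have hX0 : X (c 0) ≤ d / 10 := by
    have h1 := hXsub (γ a) (c 0)
    have h2 := hr (c 0) (hcu 0 (Nat.zero_le _))
    have h3 : X (γ a) = 0 := hWa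
    rw [h3, zero_sub, abs_neg] at h1
    linarith [le_abs_self (X (c 0))]
  have hXn : 9 / 10 * d ≤ X (c n) := by
    have h1 := hXsub (γ b) (c n)
    have h2 := hr (c n) (hcu n le_rfl)
    have h3 : X (γ b) = d := hWb
    rw [h3] at h1
    linarith [le_abs_self (d - X (c n))]
  -- the index function
  let t : ℕ → ℝ := fun k => d / 10 + k * h
  have htlt : ∀ k < N, t k < 9 / 10 * d := by
    intro k hk
    have : (k : ℝ) * h < N * h := by
      apply mul_lt_mul_of_pos_right _ hhpos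
      exact_mod_cast hk
    have h2 : (N : ℝ) * h = 8 / 10 * d := by rw [mul_comm]; exact hhN
    change d / 10 + (k : ℝ) * h < 9 / 10 * d
    linarith
  have htge : ∀ k, d / 10 ≤ t k := by
    intro k
    change d / 10 ≤ d / 10 + (k : ℝ) * h
    have : 0 ≤ (k : ℝ) * h := by positivity
    linarith
  have htmono : ∀ k l, k ≤ l → t k ≤ t l := by
    intro k l hkl
    have : (k : ℝ) * h ≤ l * h := by
      apply mul_le_mul_of_nonneg_right _ hhpos.le
      exact_mod_cast hkl
    change d / 10 + (k : ℝ) * h ≤ d / 10 + (l : ℝ) * h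
    linarith
  let j : ℕ → ℕ := fun k => Nat.findGreatest (fun i => X (c i) ≤ t k) n
  have hj1 : ∀ k, X (c (j k)) ≤ t k := by
    intro k
    exact Nat.findGreatest_spec (P := fun i => X (c i) ≤ t k) (Nat.zero_le n)
      (hX0.trans (htge k))
  have hjle : ∀ k, j k ≤ n := fun k => Nat.findGreatest_le n
  have hjlt : ∀ k < N, j k < n := by
    intro k hk
    rcases lt_or_eq_of_le (hjle k) with h1 | h1
    · exact h1
    · exfalso
      have h2 := hj1 k
      rw [h1] at h2
      linarith [htlt k hk]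
  have hj2 : ∀ k < N, t k < X (c (j k + 1)) := by
    intro k hk
    have := Nat.findGreatest_is_greatest (P := fun i => X (c i) ≤ t k) (n := n)
      (k := j k + 1) (Nat.lt_succ_self _) (hjlt k hk)
    exact not_le.1 this
  have hjmono : ∀ k l, k ≤ l → j k ≤ j l := by
    intro k l hkl
    exact Nat.findGreatest_mono (fun i hi => le_trans hi (htmono k l hkl)) le_rfl
  let G : ℕ → ℝ := fun k => Y (c (j k))
  let D : ℕ → ℝ := fun i => |Y (c (i + 1)) - Y (c i)|
  let V : ℕ → ℝ := fun k => ∑ i ∈ Finset.range (j k), D i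
  have hV : ∀ k l, k ≤ l → l < N → |G l - G k| ≤ V l - V k := by
    intro k l hkl _
    have h1 : V l - V k = ∑ i ∈ Finset.Ico (j k) (j l), D i := by
      change ∑ i ∈ Finset.range (j l), D i - ∑ i ∈ Finset.range (j k), D i = _
      rw [Finset.sum_Ico_eq_sub _ (hjmono k l hkl)]
    have h2 : G l - G k = ∑ i ∈ Finset.Ico (j k) (j l), (Y (c (i + 1)) - Y (c i)) := by
      rw [Finset.sum_Ico_sub (f := fun i => Y (c i)) (hjmono k l hkl)]
    rw [h1, h2]
    exact Finset.abs_sum_le_sum_abs _ _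
  have hsumc : ∑ i ∈ Finset.range (n + 1), r (c i) ≤ L * d := by
    refine le_trans ?_ hsum
    have hinj : Set.InjOn c (Finset.range (n + 1) : Finset ℕ) := by
      intro i hi k hk hik
      have hi' := Finset.mem_range.1 (Finset.mem_coe.1 hi)
      have hk' := Finset.mem_range.1 (Finset.mem_coe.1 hk)
      exact hcinj i (by omega) k (by omega) hik
    rw [← Finset.sum_image (f := r) hinj]
    apply Finset.sum_le_sum_of_subset_of_nonneg
    · intro x hx
      obtain ⟨i, hi, rfl⟩ := Finset.mem_image.1 hx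
      exact hcu i (by have := Finset.mem_range.1 hi; omega)
    · intro x hx _
      exact hr0 x hx
  have hDle : ∀ i < n, D i ≤ r (c i) + r (c (i + 1)) := by
    intro i hi
    exact (hYsub _ _).trans (hcstep i hi)
  have hrc : ∀ i ≤ n, 0 ≤ r (c i) := fun i hi => hr0 _ (hcu i hi)
  have hTV0 : V (N - 1) - V 0 ≤ 2 * (L * d) := by
    have h0 : 0 ≤ V 0 := Finset.sum_nonneg fun i _ => abs_nonneg _
    have h1 : V (N - 1) ≤ ∑ i ∈ Finset.range n, D i := by
      apply Finset.sum_le_sum_of_subset_of_nonneg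
      · exact Finset.range_subset_range.2 (hjle _)
      · intro i _ _; exact abs_nonneg _
    have h2 : ∑ i ∈ Finset.range n, D i ≤ ∑ i ∈ Finset.range n, (r (c i) + r (c (i + 1))) :=
      Finset.sum_le_sum fun i hi => hDle i (Finset.mem_range.1 hi)
    rw [Finset.sum_add_distrib] at h2
    have h3 : ∑ i ∈ Finset.range n, r (c i) ≤ ∑ i ∈ Finset.range (n + 1), r (c i) := by
      rw [Finset.sum_range_succ]
      linarith [hrc n le_rfl]
    have h4 : ∑ i ∈ Finset.range n, r (c (i + 1)) ≤ ∑ i ∈ Finset.range (n + 1), r (c i) := by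
      rw [Finset.sum_range_succ']
      linarith [hrc 0 (Nat.zero_le _)]
    linarith
  have hc : 0 < 10 * L * h := by positivity
  obtain ⟨T, hTN, hTcard, hTlip⟩ := exists_lipschitz_subset N G V hV (10 * L * h) hc (by
    have : 10 * L * h * N = 8 * L * d := by
      rw [mul_assoc (10 * L), hhN]; ring
    rw [this]
    linarith)
  refine ⟨e, T, G, fun k => if r (c (j k + 1)) ≤ r (c (j k)) then c (j k) else c (j k + 1),
    hen, hTN, hTcard, hTlip, ?_⟩
  intro k hk
  have hkN : k < N := Finset.mem_range.1 (hTN hk)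
  have hstep := hcstep (j k) (hjlt k hkN)
  have hpt : ‖pt (γ a) e (d / 10) h G k - c (j k)‖ ≤ r (c (j k)) + r (c (j k + 1)) := by
    have h1 : pt (γ a) e (d / 10) h G k - c (j k) = e * ((t k - X (c (j k)) : ℝ) : ℂ) := by
      conv_lhs => rw [hW (c (j k))]
      unfold pt
      have h2 : W (c (j k)) = ((X (c (j k)) : ℝ) : ℂ) + ((Y (c (j k)) : ℝ) : ℂ) * Complex.I :=
        (Complex.re_add_im _).symm
      rw [h2]
      change γ a + e * (((d / 10 + (k : ℝ) * h : ℝ) : ℂ) + ((Y (c (j k)) : ℝ) : ℂ) * Complex.I) -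
        (γ a + e * (((X (c (j k)) : ℝ) : ℂ) + ((Y (c (j k)) : ℝ) : ℂ) * Complex.I)) =
        e * ((d / 10 + (k : ℝ) * h - X (c (j k)) : ℝ) : ℂ)
      push_cast
      ring
    rw [h1, norm_mul, hen, one_mul, Complex.norm_real, Real.norm_eq_abs,
      abs_of_nonneg (sub_nonneg.2 (hj1 k))]
    have h3 := hXsub (c (j k + 1)) (c (j k))
    have h4 := hj2 k hkN
    have h5 := le_abs_self (X (c (j k + 1)) - X (c (j k)))
    linarith
  dsimp only
  split_ifs with hcase
  · refine ⟨hcu _ (hjle k), ?_⟩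
    have := hrc (j k) (hjle k)
    linarith
  · refine ⟨hcu _ (hjlt k hkN), ?_⟩
    have h6 : ‖pt (γ a) e (d / 10) h G k - c (j k + 1)‖ ≤
        ‖pt (γ a) e (d / 10) h G k - c (j k)‖ + ‖c (j k + 1) - c (j k)‖ := by
      have := norm_sub_le (pt (γ a) e (d / 10) h G k - c (j k)) (c (j k + 1) - c (j k))
      rwa [sub_sub_sub_cancel_right] at this
    push Not at hcase
    linarith

end DH
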