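import Mathlib

open Set

namespace DH

/-- finite Vitali selection for radii bounded below and above over a bounded set -/
theorem vitali_cover {ρ B : ℝ} (hρ : 0 < ρ) (S : Set ℂ) (hS : Bornology.IsBounded S) (r : ℂ → ℝ)
    (hr : ∀ x ∈ S, ρ ≤ r x ∧ r x ≤ B) :
    ∃ u : Finset ℂ, (∀ x ∈ u, x ∈ S) ∧
      (∀ x ∈ u, ∀ y ∈ u, x ≠ y →
        Disjoint (Metric.closedBall x (8 * r x)) (Metric.closedBall y (8 * r y))) ∧
      ∀ x ∈ S, ∃ y ∈ u, x ∈ Metric.closedBall y (40 * r y) := by
  obtain ⟨u, huS, hud, hucov⟩ := Vitali.exists_disjoint_subfamily_covering_enlargement_closedBall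
    S (fun x : ℂ => x) (fun x => 8 * r x) (8 * B) (fun x hx => by
      have := (hr x hx).2
      show 8 * r x ≤ 8 * B
      linarith) 5 (by norm_num)
  -- u is finite: totally bounded set with separated points
  have hfin : u.Finite := by
    have htb : TotallyBounded S := by
      exact hS.isCompact_closure.totallyBounded.subset subset_closure
    rw [Metric.totallyBounded_iff] at htb
    obtain ⟨t, htfin, ht⟩ := htb ρ hρ
    -- choose for each x in u a point of t with x in ball
    have hch : ∀ x ∈ u, ∃ y ∈ t, x ∈ Metric.ball y ρ := by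
      intro x hx
      have := ht (huS hx)
      simpa using this
    choose! g hgt hgb using hch
    apply Set.Finite.of_finite_image (f := g) (htfin.subset (by
      rintro _ ⟨x, hx, rfl⟩
      exact hgt x hx))
    intro x hx y hy hxy
    by_contra hne
    have hd := hud hx hy hne
    have hdis : Disjoint (Metric.closedBall x (8 * r x)) (Metric.closedBall y (8 * r y)) := hd
    have h1 := hgb x hx
    have h2 := hgb y hy
    rw [hxy] at h1
    have h3 : dist x y < 2 * ρ := by
      have h1' := Metric.mem_ball.1 h1
      have h2' := Metric.mem_ball.1 h2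
      calc dist x y ≤ dist x (g y) + dist y (g y) := dist_triangle_right _ _ _
        _ < 2 * ρ := by
          have h1'' : dist x (g y) < ρ := h1'
          linarith
    have hrx := (hr x (huS hx)).1
    have hry := (hr y (huS hy)).1
    have h4 : y ∈ Metric.closedBall x (8 * r x) := by
      rw [Metric.mem_closedBall, dist_comm]
      linarith
    have h5 : y ∈ Metric.closedBall y (8 * r y) := by
      rw [Metric.mem_closedBall, dist_self]
      linarith
    exact Set.disjoint_left.1 hdis h4 h5
  refine ⟨hfin.toFinset, fun x hx => huS (hfin.mem_toFinset.1 hx), fun x hx y hy hne => ?_, ?_⟩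
  · exact hud (hfin.mem_toFinset.1 hx) (hfin.mem_toFinset.1 hy) hne
  · intro x hx
    obtain ⟨y, hy, hsub⟩ := hucov x hx
    refine ⟨y, hfin.mem_toFinset.2 hy, ?_⟩
    have h1 : x ∈ Metric.closedBall x (8 * r x) := by
      rw [Metric.mem_closedBall, dist_self]
      have := (hr x hx).1
      linarith
    have h2 := hsub h1
    have h3 : (5 : ℝ) * (8 * r y) = 40 * r y := by ring
    simpa only [h3] using h2

end DH
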