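import Pool.Agent.H30.DH.Local
import Pool.Agent.H30.DH.VitaliB
import Pool.Agent.H30.DH.Sample
import Pool.Agent.H30.DH.BigMeasure

open MeasureTheory Set Filter Topology

namespace DH

section

variable {E : Type*} [NormedAddCommGroup E] [NormedSpace ℂ E]

theorem sum_near_le {k : ℂ → E} (hk : Nice k) (u : Finset ℂ) (R : ℂ → ℝ)
    (hdisj : ∀ x ∈ u, ∀ y ∈ u, x ≠ y → Disjoint (Metric.ball x (R x)) (Metric.ball y (R y))) :
    ∑ x ∈ u, ∫ w, ‖near k x (R x) w‖ ≤ ∫ w, ‖k w‖ := by
  classical
  rw [← integral_finsetSum u (fun x _ => (nice_near hk x (R x)).integrable.norm)]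
  apply integral_mono (integrable_finsetSum u (fun x _ => (nice_near hk x (R x)).integrable.norm))
    hk.integrable.norm
  intro w
  dsimp only
  by_cases h : ∃ x ∈ u, w ∈ Metric.ball x (R x)
  · obtain ⟨x, hx, hwx⟩ := h
    rw [Finset.sum_eq_single x]
    · unfold near
      rw [Set.indicator_of_mem hwx]
    · intro y hy hyx
      have : w ∉ Metric.ball y (R y) := fun hwy =>
        (Set.disjoint_left.mp (hdisj x hx y hy (Ne.symm hyx)) hwx) hwy
      unfold near
      rw [Set.indicator_of_notMem this, norm_zero]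
    · intro h; exact absurd hx h
  · push Not at h
    rw [Finset.sum_eq_zero]
    · exact norm_nonneg _
    · intro x hx
      unfold near
      rw [Set.indicator_of_notMem (h x hx), norm_zero]

end

/-- the descent step -/
theorem descent : ∃ C0 : ℝ, 0 < C0 ∧ ∀ ρ D Λ : ℝ, 0 < ρ → C0 ≤ Λ →
    PP (ℂ × ℂ) ρ D Λ → PP (ℂ × ℂ) ρ D (Λ / 2) := by
  classical
  obtain ⟨CW, hCW, hmeas⟩ := exists_measure 800 (by norm_num)
  obtain ⟨δ, hδ, hδ1, hδ2⟩ : ∃ δ : ℝ, 0 < δ ∧ δ ≤ 1 / 10000 ∧ 1000000 * CW * δ ≤ 1 := by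
    refine ⟨min (1 / 10000) (1 / (1000000 * CW)), by positivity, min_le_left _ _, ?_⟩
    calc 1000000 * CW * min (1 / 10000) (1 / (1000000 * CW))
        ≤ 1000000 * CW * (1 / (1000000 * CW)) := by
          apply mul_le_mul_of_nonneg_left (min_le_right _ _); positivity
      _ = 1 := by field_simp
  have hδ3 : δ ≤ 1 / 100 := by linarith
  refine ⟨max (640 * CW) (100000 / δ), by positivity, ?_⟩
  intro ρ D Λ hρ hΛ hPP γ a b k hc hD
  have hΛ1 : 640 * CW ≤ Λ := (le_max_left _ _).trans hΛ
  have hΛ2 : 100000 / δ ≤ Λ := (le_max_right _ _).trans hΛ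
  have hΛ0 : 0 < Λ := lt_of_lt_of_le (by positivity) hΛ1
  have hΛδ : 100000 ≤ Λ * δ := by rwa [div_le_iff₀ hδ] at hΛ2
  by_contra hlt
  push Not at hlt
  set m := ∫ w, ‖k w‖ with hm
  set d := ‖γ b - γ a‖ with hd
  have hmpos : 0 < m := lt_of_lt_of_le (by positivity) (hc.mass hρ)
  have hdpos : 0 < d := lt_of_le_of_lt (by positivity) hlt
  have hΛm : Λ * m < 2 * d := by linarith
  have hmδ : m / δ ≤ d / 50000 := by
    rw [div_le_div_iff₀ hδ (by norm_num)]
    have h1 : 100000 * m ≤ Λ * δ * m := mul_le_mul_of_nonneg_right hΛδ hmpos.le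
    have h2 : Λ * δ * m = δ * (Λ * m) := by ring
    have h3 : δ * (Λ * m) ≤ δ * (2 * d) := mul_le_mul_of_nonneg_left hΛm.le hδ.le
    nlinarith
  -- stopping scales
  have hS : ∀ x ∈ γ '' Icc a b, ∃ r : ℝ, ρ ≤ r ∧ r ≤ m / δ ∧ ¬ Good k δ x r ∧
      ∀ R, 2 * r ≤ R → Good k δ x R := by
    rintro x ⟨t, ht, rfl⟩
    exact hc.exists_scale hρ hδ hδ3 ht
  choose! r hr1 hr2 hr3 hr4 using hS
  have hSb : Bornology.IsBounded (γ '' Icc a b) :=
    (isCompact_Icc.image hc.cont).isBounded
  obtain ⟨u, huS, hudisj, hucov⟩ := vitali_cover hρ (γ '' Icc a b) hSb r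
    (fun x hx => ⟨hr1 x hx, hr2 x hx⟩)
  have hr0 : ∀ x ∈ u, 0 < r x := fun x hx => hρ.trans_le (hr1 x (huS x hx))
  -- length bound
  have hlen : ∑ x ∈ u, r x ≤ Λ * m := by
    have h1 : ∀ x ∈ u, r x ≤ Λ * ∫ w, ‖near k x (8 * r x) w‖ := by
      intro x hx
      obtain ⟨t, ht, htx⟩ := huS x hx
      subst htx
      refine hc.local_mass hρ hPP hD hδ hδ3 ht (hr1 _ (huS _ hx)) ?_ (hr4 _ (huS _ hx))
      have := hr2 _ (huS _ hx)
      rw [← hd]
      linarith
    calc ∑ x ∈ u, r x ≤ ∑ x ∈ u, Λ * ∫ w, ‖near k x (8 * r x) w‖ := Finset.sum_le_sum h1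
      _ = Λ * ∑ x ∈ u, ∫ w, ‖near k x (8 * r x) w‖ := by rw [Finset.mul_sum]
      _ ≤ Λ * m := by
        apply mul_le_mul_of_nonneg_left _ hΛ0.le
        apply sum_near_le hc.nice u (fun x => 8 * r x)
        intro x hx y hy hxy
        exact (hudisj x hx y hy hxy).mono Metric.ball_subset_closedBall
          Metric.ball_subset_closedBall
  -- sample points
  obtain ⟨N, hN0, hN1⟩ : ∃ N : ℕ, 0 < N ∧ 8 / 10 * d / N ≤ ρ := by
    obtain ⟨N, hN⟩ := exists_nat_gt (8 / 10 * d / ρ)
    have hNpos : (0 : ℝ) < N := lt_of_le_of_lt (by positivity) hN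
    refine ⟨N, by exact_mod_cast hNpos, ?_⟩
    rw [div_le_iff₀ hNpos]
    rw [div_lt_iff₀ hρ] at hN
    linarith
  have hNpos : (0 : ℝ) < N := by exact_mod_cast hN0
  obtain ⟨e, T, G, idx, he, hT, hT2, hG, hidx⟩ := exists_sample γ hc.cont hc.le u
    (fun x => 40 * r x)
    (fun t ht => by
      obtain ⟨y, hy, hyy⟩ := hucov (γ t) ⟨t, ht, rfl⟩
      exact ⟨y, hy, hyy⟩)
    (fun x hx => by have := hr0 x hx; positivity) hdpos hd.symm
    (fun x hx => by
      have := hr2 x (huS x hx)
      show 40 * r x ≤ d / 10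
      linarith)
    (L := 80) (by norm_num)
    (by rw [← Finset.mul_sum]; linarith)
    N hN0
  set h := 8 / 10 * d / N with hh
  have hhpos : 0 < h := by positivity
  have hNh : h * N = 8 / 10 * d := by rw [hh]; field_simp
  obtain ⟨ρ', hρ', hρ'0, hρ'le, hρ'mass, hweak⟩ := hmeas N hN0 h hhpos T hT hT2 (γ a) e he (d / 10) G
    (by
      intro k hk l hl
      have := hG k hk l hl
      norm_num at this ⊢
      exact this)
  set z := pt (γ a) e (d / 10) h G with hz
  -- types
  set uI := u.filter (fun x => δ < GG k x (r x)) with huI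
  have hIlen : ∑ x ∈ uI, r x ≤ 2 / δ * m := by
    have h1 : ∀ x ∈ uI, r x ≤ 2 / δ * ∫ w, ‖near k x (2 * r x) w‖ := by
      intro x hx
      rw [huI, Finset.mem_filter] at hx
      have h2 := mass_of_GG_gt hc.nice x (hr0 x hx.1) hx.2 (hr4 x (huS x hx.1) _ le_rfl).2
      rw [div_mul_eq_mul_div, le_div_iff₀ hδ]
      linarith
    calc ∑ x ∈ uI, r x ≤ ∑ x ∈ uI, 2 / δ * ∫ w, ‖near k x (2 * r x) w‖ := Finset.sum_le_sum h1
      _ = 2 / δ * ∑ x ∈ uI, ∫ w, ‖near k x (2 * r x) w‖ := by rw [Finset.mul_sum]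
      _ ≤ 2 / δ * m := by
        apply mul_le_mul_of_nonneg_left _ (by positivity)
        apply sum_near_le hc.nice uI (fun x => 2 * r x)
        intro x hx y hy hxy
        have hxu := (Finset.mem_filter.mp hx).1
        have hyu := (Finset.mem_filter.mp hy).1
        refine (hudisj x hxu y hyu hxy).mono ?_ ?_
        · refine (Metric.ball_subset_ball ?_).trans Metric.ball_subset_closedBall
          have := hr0 x hxu
          show 2 * r x ≤ 8 * r x
          linarith
        · refine (Metric.ball_subset_ball ?_).trans Metric.ball_subset_closedBall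
          have := hr0 y hyu
          show 2 * r y ≤ 8 * r y
          linarith
  -- bad sets
  set S1 := T.filter (fun j => idx j ∈ uI) with hS1
  set B2 : ℂ → Set ℂ := fun x => {w | 1 / 16 < ‖CT (near k x (400 * r x)) w‖} with hB2
  set B3 : Set ℂ := {w | 1 / 16 < ‖CT k w‖} with hB3
  have hB2m : ∀ x, MeasurableSet (B2 x) := fun x =>
    measurableSet_lt measurable_const (nice_near hc.nice x _).continuous_CT.norm.measurable
  have hB3m : MeasurableSet B3 :=
    measurableSet_lt measurable_const hc.nice.continuous_CT.norm.measurable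
  -- points over type II balls
  have hkey : ∀ j ∈ T, j ∉ S1 → ∀ w ∈ Metric.closedBall (z j) (h / 4),
      (∃ x ∈ u, w ∈ B2 x) ∨ w ∈ B3 := by
    intro j hj hjS w hw
    obtain ⟨hxu, hxd⟩ := hidx j hj
    set x := idx j with hx
    have hxI : x ∉ uI := fun hxI => hjS (by rw [hS1, Finset.mem_filter]; exact ⟨hj, hxI⟩)
    have hGG : GG k x (r x) ≤ δ := by
      by_contra hcon
      push Not at hcon
      exact hxI (by rw [huI, Finset.mem_filter]; exact ⟨hxu, hcon⟩)
    have hxS := huS x hxu
    have hHH : 1 / 4 < HH k x (r x) := by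
      have := hr3 x hxS
      unfold Good at this
      by_contra hcon
      push Not at hcon
      exact this ⟨hcon, hGG⟩
    have hrx := hr0 x hxu
    have hρx := hr1 x hxS
    have hgood := hr4 x hxS (400 * r x) (by linarith)
    have h1 := HH_le_HH_add hc.nice x hrx (show r x ≤ 400 * r x by linarith)
    have h2 : 400 * r x / r x = 400 := by field_simp
    rw [h2] at h1
    have hwx : ‖w - x‖ ≤ 161 * r x := by
      have hw' : ‖w - z j‖ ≤ h / 4 := by rw [← dist_eq_norm]; exact Metric.mem_closedBall.mp hw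
      have : ‖w - x‖ ≤ ‖w - z j‖ + ‖z j - x‖ := by
        have := norm_add_le (w - z j) (z j - x)
        simpa using this
      have hxd' : ‖z j - x‖ ≤ 4 * (40 * r x) := hxd
      linarith
    have h3 := norm_CT_far_sub_le hc.nice (x := x) (z := w) (R := 400 * r x) (s := 161 * r x)
      (by positivity) (by linarith) (by positivity) hwx
    have h4 : 2 * (161 * r x) / (400 * r x) * GG k x (400 * r x) ≤ δ := by
      have h5 : 2 * (161 * r x) / (400 * r x) ≤ 1 := by
        rw [div_le_one (by positivity)]; linarith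
      calc _ ≤ 1 * GG k x (400 * r x) :=
            mul_le_mul_of_nonneg_right h5 (GG_nonneg k x (by positivity))
        _ ≤ δ := by rw [one_mul]; exact hgood.2
    have h6 : HH k x (400 * r x) = ‖CT (far k x (400 * r x)) x‖ := rfl
    have h7 : ‖CT (far k x (400 * r x)) x‖ ≤ ‖CT (far k x (400 * r x)) w‖ +
        ‖CT (far k x (400 * r x)) w - CT (far k x (400 * r x)) x‖ := by
      have := norm_sub_le (CT (far k x (400 * r x)) w)
        (CT (far k x (400 * r x)) w - CT (far k x (400 * r x)) x)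
      simpa using this
    have h8 := CT_near_add_far hc.nice x (400 * r x) w
    by_contra hcon
    push Not at hcon
    obtain ⟨hc1, hc2⟩ := hcon
    have h9 : ‖CT (near k x (400 * r x)) w‖ ≤ 1 / 16 := by
      have := hc1 x hxu
      simpa [hB2] using this
    have h10 : ‖CT k w‖ ≤ 1 / 16 := by simpa [hB3] using hc2
    have h11 : ‖CT (far k x (400 * r x)) w‖ ≤ ‖CT k w‖ + ‖CT (near k x (400 * r x)) w‖ := by
      have h12 : CT (far k x (400 * r x)) w = CT k w - CT (near k x (400 * r x)) w := by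
        rw [← h8]; abel
      rw [h12]
      exact norm_sub_le _ _
    have h13 := hgood.2
    linarith
  -- pointwise bound
  have hpt : ∀ w, ρ' w ≤ dens S1 z h w + ((∑ x ∈ u, (B2 x).indicator ρ' w) + B3.indicator ρ' w) := by
    intro w
    have hsum0 : 0 ≤ ∑ x ∈ u, (B2 x).indicator ρ' w :=
      Finset.sum_nonneg fun x _ => Set.indicator_nonneg (fun w _ => hρ'0 w) w
    have hB30 : 0 ≤ B3.indicator ρ' w := Set.indicator_nonneg (fun w _ => hρ'0 w) w
    have hd0 : 0 ≤ dens S1 z h w := dens_nonneg S1 z hhpos w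
    by_cases hw : (∃ x ∈ u, w ∈ B2 x) ∨ w ∈ B3
    · rcases hw with ⟨x, hx, hwx⟩ | hw3
      · have : ρ' w ≤ ∑ x ∈ u, (B2 x).indicator ρ' w := by
          calc ρ' w = (B2 x).indicator ρ' w := by rw [Set.indicator_of_mem hwx]
            _ ≤ _ := Finset.single_le_sum (f := fun x => (B2 x).indicator ρ' w)
                (fun x _ => Set.indicator_nonneg (fun w _ => hρ'0 w) w) hx
        linarith
      · have : B3.indicator ρ' w = ρ' w := Set.indicator_of_mem hw3 _
        linarith
    · have hdT : dens T z h w = dens S1 z h w := by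
        unfold dens
        symm
        apply Finset.sum_subset (Finset.filter_subset _ _)
        intro j hj hjS
        apply Set.indicator_of_notMem
        intro hwj
        exact hw (hkey j hj hjS w hwj)
      have := hρ'le w
      rw [hdT] at this
      linarith
  -- integrate
  have hI1 : Integrable (fun w => dens S1 z h w) := (nice_dens S1 z h).integrable
  have hI2 : ∀ x, Integrable (fun w => (B2 x).indicator ρ' w) := fun x =>
    hρ'.integrable.indicator (hB2m x)
  have hI3 : Integrable (fun w => B3.indicator ρ' w) := hρ'.integrable.indicator hB3m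
  have hI4 : Integrable (fun w => ∑ x ∈ u, (B2 x).indicator ρ' w) :=
    integrable_finsetSum u fun x _ => hI2 x
  have hint : ∫ w, ρ' w ≤ (∫ w, dens S1 z h w) +
      ((∑ x ∈ u, ∫ w in B2 x, ρ' w) + ∫ w in B3, ρ' w) := by
    calc ∫ w, ρ' w ≤ ∫ w, (dens S1 z h w +
          ((∑ x ∈ u, (B2 x).indicator ρ' w) + B3.indicator ρ' w)) :=
          integral_mono hρ'.integrable (hI1.add (hI4.add hI3)) hpt
      _ = _ := by
        have a1 : ∫ w, (dens S1 z h w +
            ((∑ x ∈ u, (B2 x).indicator ρ' w) + B3.indicator ρ' w)) =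
            (∫ w, dens S1 z h w) +
              ∫ w, ((∑ x ∈ u, (B2 x).indicator ρ' w) + B3.indicator ρ' w) :=
          integral_add hI1 (hI4.add hI3)
        have a2 : ∫ w, ((∑ x ∈ u, (B2 x).indicator ρ' w) + B3.indicator ρ' w) =
            (∫ w, ∑ x ∈ u, (B2 x).indicator ρ' w) + ∫ w, B3.indicator ρ' w :=
          integral_add hI4 hI3
        have a3 : ∫ w, ∑ x ∈ u, (B2 x).indicator ρ' w = ∑ x ∈ u, ∫ w in B2 x, ρ' w := by
          rw [integral_finsetSum u fun x _ => hI2 x]
          exact Finset.sum_congr rfl fun x _ => integral_indicator (hB2m x)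
        have a4 : ∫ w, B3.indicator ρ' w = ∫ w in B3, ρ' w := integral_indicator hB3m
        rw [a1, a2, a3, a4]
  -- type I part
  have hpart1 : ∫ w, dens S1 z h w ≤ 321 * (2 / δ * m) := by
    have h1 : ∀ x ∈ uI, ∫ w, dens (S1.filter (fun j => idx j = x)) z h w ≤ 321 * r x := by
      intro x hx
      have hxu := (Finset.mem_filter.mp hx).1
      have hrx := hr0 x hxu
      have hρx := hr1 x (huS x hxu)
      have := setIntegral_dens_le N hhpos T hT (γ a) e he (d / 10) G x (R := 160 * r x)
        (by positivity) (S1.filter (fun j => idx j = x))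
        ((Finset.filter_subset _ _).trans (Finset.filter_subset _ _))
        (by
          intro j hj
          rw [Finset.mem_filter] at hj
          have hjT := (Finset.mem_filter.mp hj.1).1
          have := (hidx j hjT).2
          rw [hj.2] at this
          have h40 : 4 * (40 * r x) = 160 * r x := by ring
          rw [← h40]
          exact this)
      linarith
    have h2 : ∫ w, dens S1 z h w = ∑ x ∈ uI, ∫ w, dens (S1.filter (fun j => idx j = x)) z h w := by
      rw [integral_dens S1 z hhpos]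
      simp_rw [integral_dens _ z hhpos]
      rw [← Finset.mul_sum]
      congr 1
      rw [Finset.card_eq_sum_card_fiberwise (f := idx) (t := uI)]
      · push_cast
        rfl
      · intro j hj
        exact (Finset.mem_filter.mp hj).2
    rw [h2]
    calc _ ≤ ∑ x ∈ uI, 321 * r x := Finset.sum_le_sum h1
      _ = 321 * ∑ x ∈ uI, r x := by rw [Finset.mul_sum]
      _ ≤ 321 * (2 / δ * m) := by linarith
  -- near parts
  have hpart2 : ∑ x ∈ u, ∫ w in B2 x, ρ' w ≤ 6400 * CW * δ * (2 * d) := by
    have h1 : ∀ x ∈ u, ∫ w in B2 x, ρ' w ≤ 6400 * CW * δ * r x := by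
      intro x hx
      have hrx := hr0 x hx
      have h2 := hweak (near k x (400 * r x)) (nice_near hc.nice x _) (1 / 16) (by norm_num)
      have h3 := mass_near_le hc.nice x (R := 400 * r x) (by positivity)
      have h4 := (hr4 x (huS x hx) (400 * r x) (by linarith)).2
      have h5 : 400 * r x * GG k x (400 * r x) ≤ 400 * r x * δ :=
        mul_le_mul_of_nonneg_left h4 (by positivity)
      calc ∫ w in B2 x, ρ' w ≤ CW * (∫ w, ‖near k x (400 * r x) w‖) / (1 / 16) := h2
        _ = 16 * CW * (∫ w, ‖near k x (400 * r x) w‖) := by ring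
        _ ≤ 16 * CW * (400 * r x * δ) :=
          mul_le_mul_of_nonneg_left (h3.trans h5) (by positivity)
        _ = 6400 * CW * δ * r x := by ring
    calc _ ≤ ∑ x ∈ u, 6400 * CW * δ * r x := Finset.sum_le_sum h1
      _ = 6400 * CW * δ * ∑ x ∈ u, r x := by rw [Finset.mul_sum]
      _ ≤ 6400 * CW * δ * (2 * d) :=
        mul_le_mul_of_nonneg_left (hlen.trans hΛm.le) (by positivity)
  have hpart3 : ∫ w in B3, ρ' w ≤ 16 * CW * m := by
    have h2 := hweak k hc.nice (1 / 16) (by norm_num)
    calc ∫ w in B3, ρ' w ≤ CW * (∫ w, ‖k w‖) / (1 / 16) := h2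
      _ = 16 * CW * m := by rw [hm]; ring
  -- contradiction
  have e1 : 321 * (2 / δ * m) ≤ d / 50 := by
    have : 321 * (2 / δ * m) = 642 * (m / δ) := by ring
    rw [this]
    linarith
  have e2 : 6400 * CW * δ * (2 * d) ≤ d / 50 := by
    have : 6400 * CW * δ * (2 * d) = (1000000 * CW * δ) * (12800 / 1000000 * d) := by ring
    rw [this]
    calc _ ≤ 1 * (12800 / 1000000 * d) := mul_le_mul_of_nonneg_right hδ2 (by positivity)
      _ ≤ d / 50 := by linarith
  have e3 : 16 * CW * m ≤ d / 20 := by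
    have h1 : 640 * CW * m ≤ Λ * m := mul_le_mul_of_nonneg_right hΛ1 hmpos.le
    linarith
  have e4 : h * N / 4 = d / 5 := by rw [hNh]; ring
  rw [e4] at hρ'mass
  linarith

end DH
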