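import Mathlib

namespace DH

/-- sum over ordered triples of distinct indices -/
private noncomputable def T3 (N : ℕ) (F : ℕ → ℕ → ℕ → ℝ) : ℝ :=
  ∑ i ∈ Finset.range N, ∑ j ∈ Finset.range N, ∑ k ∈ Finset.range N,
    if i ≠ j ∧ i ≠ k ∧ j ≠ k then F i j k else 0

private lemma T3_cyc (N : ℕ) (F : ℕ → ℕ → ℕ → ℝ) : T3 N (fun i j k => F j k i) = T3 N F := by
  unfold T3
  rw [Finset.sum_comm]
  apply Finset.sum_congr rfl
  intro j _
  rw [Finset.sum_comm]
  apply Finset.sum_congr rfl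
  intro k _
  apply Finset.sum_congr rfl
  intro i _
  by_cases h : j ≠ k ∧ j ≠ i ∧ k ≠ i
  · rw [if_pos h, if_pos ⟨h.2.1.symm, h.2.2.symm, h.1⟩]
  · rw [if_neg h, if_neg]
    intro h'
    exact h ⟨h'.2.2, h'.1.symm, h'.2.1.symm⟩

private lemma T3_add (N : ℕ) (F G : ℕ → ℕ → ℕ → ℝ) :
    T3 N (fun i j k => F i j k + G i j k) = T3 N F + T3 N G := by
  unfold T3
  simp_rw [← Finset.sum_add_distrib]
  apply Finset.sum_congr rfl; intro i _
  apply Finset.sum_congr rfl; intro j _
  apply Finset.sum_congr rfl; intro k _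
  split_ifs <;> simp

private lemma T3_congr (N : ℕ) {F G : ℕ → ℕ → ℕ → ℝ}
    (h : ∀ i j k, i ≠ j → i ≠ k → j ≠ k → F i j k = G i j k) : T3 N F = T3 N G := by
  unfold T3
  apply Finset.sum_congr rfl; intro i _
  apply Finset.sum_congr rfl; intro j _
  apply Finset.sum_congr rfl; intro k _
  split_ifs with hh
  · exact h i j k hh.1 hh.2.1 hh.2.2
  · rfl

private lemma sum_erase_ite (s : Finset ℕ) (i : ℕ) (f : ℕ → ℝ) :
    ∑ j ∈ s.erase i, f j = ∑ j ∈ s, if j ≠ i then f j else 0 := by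
  rw [← Finset.sum_filter, Finset.filter_ne']

private lemma T3_eq (N : ℕ) (F : ℕ → ℕ → ℕ → ℝ) :
    ∑ i ∈ Finset.range N, ∑ j ∈ (Finset.range N).erase i,
      ∑ k ∈ ((Finset.range N).erase i).erase j, F i j k = T3 N F := by
  unfold T3
  apply Finset.sum_congr rfl; intro i _
  rw [sum_erase_ite]
  apply Finset.sum_congr rfl; intro j _
  rw [sum_erase_ite, sum_erase_ite]
  split_ifs with h
  · apply Finset.sum_congr rfl; intro k _
    by_cases h1 : k ≠ i
    · by_cases h2 : k ≠ j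
      · rw [if_pos h1, if_pos h2, if_pos ⟨h.symm, h1.symm, h2.symm⟩]
      · rw [if_pos h1, if_neg h2, if_neg]
        intro h'; exact h2 h'.2.2.symm
    · rw [if_neg h1, if_neg]
      intro h'; exact h1 h'.2.1.symm
  · symm
    apply Finset.sum_eq_zero
    intro k _
    rw [if_neg]
    intro h'; exact h h'.1.symm

private noncomputable def hm (n : ℕ) : ℝ := ∑ m ∈ Finset.range n, 1 / ((m : ℝ) + 1)

private lemma hm_mono {a b : ℕ} (h : a ≤ b) : hm a ≤ hm b := by
  unfold hm
  apply Finset.sum_le_sum_of_subset_of_nonneg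
  · exact Finset.range_mono h
  · intro i _ _
    positivity

private lemma sum_inv (j n : ℕ) :
    ∑ k ∈ (Finset.range (j + 1 + n)).erase j, 1 / ((k : ℝ) - j) = hm n - hm j := by
  induction n with
  | zero =>
    have e : (Finset.range (j + 1 + 0)).erase j = Finset.range j := by
      ext x; simp [Finset.mem_erase]; omega
    rw [e]
    have : hm 0 = 0 := by simp [hm]
    rw [this, zero_sub]
    unfold hm
    rw [← Finset.sum_range_reflect, ← Finset.sum_neg_distrib]
    apply Finset.sum_congr rfl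
    intro k hk
    rw [Finset.mem_range] at hk
    have h1 : ((j - 1 - k : ℕ) : ℝ) = j - 1 - k := by
      rw [Nat.cast_sub (by omega), Nat.cast_sub (by omega)]; simp
    rw [h1]
    have h5 : (j : ℝ) - 1 - k - j = -((k : ℝ) + 1) := by ring
    rw [h5, one_div, one_div, inv_neg]
  | succ n ih =>
    have e : (Finset.range (j + 1 + (n + 1))).erase j =
        insert (j + 1 + n) ((Finset.range (j + 1 + n)).erase j) := by
      ext x; simp [Finset.mem_erase]; omega
    rw [e, Finset.sum_insert (by simp), ih]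
    have : hm (n + 1) = hm n + 1 / ((n : ℝ) + 1) := by unfold hm; rw [Finset.sum_range_succ]
    rw [this]
    have h5 : ((j + 1 + n : ℕ) : ℝ) - j = n + 1 := by push_cast; ring
    rw [h5]
    ring

private lemma A_lt {N i j : ℕ} (hij : i < j) (hj : j < N) :
    ∑ k ∈ ((Finset.range N).erase i).erase j, 1 / (((k : ℝ) - i) * ((k : ℝ) - j))
      ≤ 2 / ((j : ℝ) - i) ^ 2 := by
  have hr : (0 : ℝ) < (j : ℝ) - i := by
    have : (i : ℝ) < j := by exact_mod_cast hij
    linarith
  have h1 : ∑ k ∈ ((Finset.range N).erase i).erase j, 1 / (((k : ℝ) - i) * ((k : ℝ) - j)) =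
      (1 / ((j : ℝ) - i)) * (∑ k ∈ ((Finset.range N).erase i).erase j, 1 / ((k : ℝ) - j)
        - ∑ k ∈ ((Finset.range N).erase i).erase j, 1 / ((k : ℝ) - i)) := by
    rw [← Finset.sum_sub_distrib, Finset.mul_sum]
    apply Finset.sum_congr rfl
    intro k hk
    rw [Finset.mem_erase, Finset.mem_erase] at hk
    have a1 : (k : ℝ) - j ≠ 0 := by
      intro h; apply hk.1; exact_mod_cast (sub_eq_zero.mp h)
    have a2 : (k : ℝ) - i ≠ 0 := by
      intro h; apply hk.2.1; exact_mod_cast (sub_eq_zero.mp h)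
    field_simp
    ring
  have hji : j ∈ (Finset.range N).erase i := by
    rw [Finset.mem_erase, Finset.mem_range]; omega
  have hij' : i ∈ (Finset.range N).erase j := by
    rw [Finset.mem_erase, Finset.mem_range]; omega
  have s1 : ∑ k ∈ ((Finset.range N).erase i).erase j, 1 / ((k : ℝ) - j) =
      hm (N - 1 - j) - hm j + 1 / ((j : ℝ) - i) := by
    rw [Finset.erase_right_comm]
    have h2 := Finset.add_sum_erase _ (fun k : ℕ => 1 / ((k : ℝ) - j)) hij'
    have h3 := sum_inv j (N - 1 - j)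
    have h4 : j + 1 + (N - 1 - j) = N := by omega
    rw [h4] at h3
    rw [h3] at h2
    have h5 : 1 / ((i : ℝ) - j) = - (1 / ((j : ℝ) - i)) := by
      rw [← neg_sub (j : ℝ) i, one_div, one_div, inv_neg]
    rw [h5] at h2
    linarith
  have s2 : ∑ k ∈ ((Finset.range N).erase i).erase j, 1 / ((k : ℝ) - i) =
      hm (N - 1 - i) - hm i - 1 / ((j : ℝ) - i) := by
    have h2 := Finset.add_sum_erase _ (fun k : ℕ => 1 / ((k : ℝ) - i)) hji
    have h3 := sum_inv i (N - 1 - i)
    have h4 : i + 1 + (N - 1 - i) = N := by omega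
    rw [h4] at h3
    rw [h3] at h2
    linarith
  rw [h1, s1, s2]
  have m1 : hm (N - 1 - j) ≤ hm (N - 1 - i) := hm_mono (by omega)
  have m2 : hm i ≤ hm j := hm_mono hij.le
  have h6 : hm (N - 1 - j) - hm j + 1 / ((j : ℝ) - i) - (hm (N - 1 - i) - hm i - 1 / ((j : ℝ) - i))
      ≤ 2 * (1 / ((j : ℝ) - i)) := by linarith
  have h7 : (0 : ℝ) ≤ 1 / ((j : ℝ) - i) := by positivity
  calc (1 / ((j : ℝ) - i)) * (hm (N - 1 - j) - hm j + 1 / ((j : ℝ) - i) -
        (hm (N - 1 - i) - hm i - 1 / ((j : ℝ) - i)))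
      ≤ (1 / ((j : ℝ) - i)) * (2 * (1 / ((j : ℝ) - i))) := mul_le_mul_of_nonneg_left h6 h7
    _ = 2 / ((j : ℝ) - i) ^ 2 := by field_simp

private lemma A_le {N i j : ℕ} (hij : i ≠ j) (hi : i < N) (hj : j < N) :
    ∑ k ∈ ((Finset.range N).erase i).erase j, 1 / (((k : ℝ) - i) * ((k : ℝ) - j))
      ≤ 2 / ((j : ℝ) - i) ^ 2 := by
  rcases lt_or_gt_of_ne hij with h | h
  · exact A_lt h hj
  · have h1 := A_lt (N := N) h hi
    rw [Finset.erase_right_comm]
    have h2 : ((j : ℝ) - i) ^ 2 = ((i : ℝ) - j) ^ 2 := by ring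
    rw [h2]
    refine le_trans (le_of_eq ?_) h1
    apply Finset.sum_congr rfl
    intro k _
    rw [mul_comm]

private lemma sum_sq_le' (n : ℕ) :
    ∑ m ∈ Finset.range (n + 1), 1 / ((m : ℝ) + 1) ^ 2 ≤ 2 - 1 / ((n : ℝ) + 1) := by
  induction n with
  | zero => norm_num
  | succ n ih =>
    rw [Finset.sum_range_succ]
    push_cast
    have h2 : (0 : ℝ) < (n : ℝ) + 1 := by positivity
    have h3 : (0 : ℝ) < (n : ℝ) + 1 + 1 := by positivity
    have h1 : 1 / ((n : ℝ) + 1 + 1) ^ 2 ≤ 1 / ((n : ℝ) + 1) - 1 / ((n : ℝ) + 1 + 1) := by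
      rw [div_sub_div _ _ h2.ne' h3.ne', div_le_div_iff₀ (by positivity) (by positivity)]
      nlinarith
    linarith

private lemma sum_sq_le (n : ℕ) : ∑ m ∈ Finset.range n, 1 / ((m : ℝ) + 1) ^ 2 ≤ 2 := by
  rcases n with _ | n
  · simp
  · have := sum_sq_le' n
    have h2 : (0 : ℝ) < 1 / ((n : ℝ) + 1) := by positivity
    linarith

private lemma sum_sq_two {N i : ℕ} (hi : i < N) :
    ∑ j ∈ (Finset.range N).erase i, 1 / ((j : ℝ) - i) ^ 2 ≤ 4 := by
  have hsplit : (Finset.range N).erase i = Finset.range i ∪ Finset.Ico (i + 1) N := by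
    ext x
    simp only [Finset.mem_erase, Finset.mem_range, Finset.mem_union, Finset.mem_Ico]
    omega
  have hdisj : Disjoint (Finset.range i) (Finset.Ico (i + 1) N) := by
    rw [Finset.disjoint_left]
    intro x hx hx'
    rw [Finset.mem_range] at hx
    rw [Finset.mem_Ico] at hx'
    omega
  rw [hsplit, Finset.sum_union hdisj]
  have h1 : ∑ j ∈ Finset.range i, 1 / ((j : ℝ) - i) ^ 2 ≤ 2 := by
    refine le_trans (le_of_eq ?_) (sum_sq_le i)
    rw [← Finset.sum_range_reflect]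
    apply Finset.sum_congr rfl
    intro k hk
    rw [Finset.mem_range] at hk
    have h1 : ((i - 1 - k : ℕ) : ℝ) = i - 1 - k := by
      rw [Nat.cast_sub (by omega), Nat.cast_sub (by omega)]; simp
    rw [h1]
    have h5 : (i : ℝ) - 1 - k - i = -((k : ℝ) + 1) := by ring
    rw [h5, neg_sq]
  have h2 : ∑ j ∈ Finset.Ico (i + 1) N, 1 / ((j : ℝ) - i) ^ 2 ≤ 2 := by
    refine le_trans (le_of_eq ?_) (sum_sq_le (N - (i + 1)))
    rw [Finset.sum_Ico_eq_sum_range]
    apply Finset.sum_congr rfl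
    intro k _
    have : ((i + 1 + k : ℕ) : ℝ) - i = k + 1 := by push_cast; ring
    rw [this]
  linarith

/-- Discrete telescoping inequality for the curvature of Lipschitz graphs. -/
theorem telescope (N : ℕ) (y : ℕ → ℝ) (M : ℝ) (hM : 0 ≤ M)
    (h : ∀ i < N, ∀ j < N, |y i - y j| ≤ M * |(i : ℝ) - j|) :
    ∑ i ∈ Finset.range N, ∑ j ∈ (Finset.range N).erase i,
      ∑ k ∈ ((Finset.range N).erase i).erase j,
        ((y j - y i) / ((j : ℝ) - i) - (y k - y j) / ((k : ℝ) - j)) ^ 2 / ((k : ℝ) - i) ^ 2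
      ≤ 24 * M ^ 2 * N := by
  rw [T3_eq N (fun i j k =>
    ((y j - y i) / ((j : ℝ) - i) - (y k - y j) / ((k : ℝ) - j)) ^ 2 / ((k : ℝ) - i) ^ 2)]
  set F : ℕ → ℕ → ℕ → ℝ := fun i j k =>
    ((y j - y i) ^ 2 / ((j : ℝ) - i)) / (((j : ℝ) - i) * ((k : ℝ) - j) * ((k : ℝ) - i)) with hF
  have e1 : T3 N (fun i j k =>
      ((y j - y i) / ((j : ℝ) - i) - (y k - y j) / ((k : ℝ) - j)) ^ 2 / ((k : ℝ) - i) ^ 2) =
      T3 N F + T3 N F + T3 N F := by
    have e2 : T3 N F + T3 N F + T3 N F =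
        T3 N (fun i j k => F i j k + F j k i + F k i j) := by
      rw [T3_add N (fun i j k => F i j k + F j k i) (fun i j k => F k i j),
        T3_add N F (fun i j k => F j k i), T3_cyc,
        T3_cyc N (fun i j k => F j k i), T3_cyc]
    rw [e2]
    apply T3_congr
    intro i j k hij hik hjk
    have a1 : (j : ℝ) - i ≠ 0 := by
      intro hh; apply hij; exact_mod_cast (sub_eq_zero.mp hh).symm
    have a2 : (k : ℝ) - i ≠ 0 := by
      intro hh; apply hik; exact_mod_cast (sub_eq_zero.mp hh).symm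
    have a3 : (k : ℝ) - j ≠ 0 := by
      intro hh; apply hjk; exact_mod_cast (sub_eq_zero.mp hh).symm
    have a4 : (i : ℝ) - j ≠ 0 := by
      intro hh; apply hij; exact_mod_cast (sub_eq_zero.mp hh)
    have a5 : (i : ℝ) - k ≠ 0 := by
      intro hh; apply hik; exact_mod_cast (sub_eq_zero.mp hh)
    have a6 : (j : ℝ) - k ≠ 0 := by
      intro hh; apply hjk; exact_mod_cast (sub_eq_zero.mp hh)
    simp only [hF]
    have b4 : (i : ℝ) - j = -((j : ℝ) - i) := by ring
    have b5 : (i : ℝ) - k = -((k : ℝ) - i) := by ring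
    have b6 : (j : ℝ) - k = -((k : ℝ) - j) := by ring
    rw [b4, b5, b6]
    obtain ⟨p, hp⟩ : ∃ p, p = (j : ℝ) - i := ⟨_, rfl⟩
    obtain ⟨q, hq⟩ : ∃ q, q = (k : ℝ) - j := ⟨_, rfl⟩
    have hki : (k : ℝ) - i = p + q := by rw [hp, hq]; ring
    rw [hki] at a2 ⊢
    rw [← hp] at a1 ⊢
    rw [← hq] at a3 ⊢
    obtain ⟨P, hP⟩ : ∃ P, P = y j - y i := ⟨_, rfl⟩
    obtain ⟨Q, hQ⟩ : ∃ Q, Q = y k - y j := ⟨_, rfl⟩
    have hyki : y i - y k = -(P + Q) := by rw [hP, hQ]; ring
    rw [hyki, ← hP, ← hQ]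
    field_simp
    ring
  rw [e1]
  have e3 : T3 N F ≤ 8 * M ^ 2 * N := by
    rw [← T3_eq]
    have h1 : ∀ i ∈ Finset.range N, ∑ j ∈ (Finset.range N).erase i,
        ∑ k ∈ ((Finset.range N).erase i).erase j, F i j k ≤ 8 * M ^ 2 := by
      intro i hi
      rw [Finset.mem_range] at hi
      have h2 : ∀ j ∈ (Finset.range N).erase i,
          ∑ k ∈ ((Finset.range N).erase i).erase j, F i j k ≤
            2 * M ^ 2 * (1 / ((j : ℝ) - i) ^ 2) := by
        intro j hj
        rw [Finset.mem_erase, Finset.mem_range] at hj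
        have a1 : (j : ℝ) - i ≠ 0 := by
          intro hh; apply hj.1; exact_mod_cast (sub_eq_zero.mp hh)
        have h3 : ∑ k ∈ ((Finset.range N).erase i).erase j, F i j k =
            ((y j - y i) / ((j : ℝ) - i)) ^ 2 *
            ∑ k ∈ ((Finset.range N).erase i).erase j, 1 / (((k : ℝ) - i) * ((k : ℝ) - j)) := by
          rw [Finset.mul_sum]
          apply Finset.sum_congr rfl
          intro k hk
          rw [Finset.mem_erase, Finset.mem_erase] at hk
          have a2 : (k : ℝ) - j ≠ 0 := by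
            intro hh; apply hk.1; exact_mod_cast (sub_eq_zero.mp hh)
          have a3 : (k : ℝ) - i ≠ 0 := by
            intro hh; apply hk.2.1; exact_mod_cast (sub_eq_zero.mp hh)
          simp only [hF]
          field_simp
        rw [h3]
        have h4 := A_le (Ne.symm hj.1) hi hj.2
        have h5 : ((y j - y i) / ((j : ℝ) - i)) ^ 2 ≤ M ^ 2 := by
          have h6 := h j hj.2 i hi
          rw [← sq_abs, abs_div]
          have h7 : 0 < |(j : ℝ) - i| := abs_pos.mpr a1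
          have h8 : |y j - y i| / |(j : ℝ) - i| ≤ M := by
            rw [div_le_iff₀ h7]; exact h6
          exact pow_le_pow_left₀ (by positivity) h8 2
        calc ((y j - y i) / ((j : ℝ) - i)) ^ 2 *
            ∑ k ∈ ((Finset.range N).erase i).erase j, 1 / (((k : ℝ) - i) * ((k : ℝ) - j))
            ≤ ((y j - y i) / ((j : ℝ) - i)) ^ 2 * (2 / ((j : ℝ) - i) ^ 2) :=
              mul_le_mul_of_nonneg_left h4 (sq_nonneg _)
          _ ≤ M ^ 2 * (2 / ((j : ℝ) - i) ^ 2) :=
              mul_le_mul_of_nonneg_right h5 (by positivity)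
          _ = 2 * M ^ 2 * (1 / ((j : ℝ) - i) ^ 2) := by ring
      refine (Finset.sum_le_sum h2).trans ?_
      rw [← Finset.mul_sum]
      have := sum_sq_two hi
      nlinarith [sq_nonneg M]
    refine (Finset.sum_le_sum h1).trans ?_
    rw [Finset.sum_const, Finset.card_range, nsmul_eq_mul]
    linarith
  linarith

end DH
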