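import Pool.Agent.H30.DH.Kernel
import Pool.Agent.H30.DH.Telescope

open scoped ComplexConjugate

namespace DH

/-- sum over the distinct triples -/
private noncomputable def TS (T : Finset ℕ) (f : ℕ → ℕ → ℕ → ℝ) : ℝ :=
  ∑ i ∈ T, ∑ j ∈ T, ∑ k ∈ T, if i ≠ j ∧ j ≠ k ∧ k ≠ i then f i j k else 0

private theorem TS_erase (T : Finset ℕ) (f : ℕ → ℕ → ℕ → ℝ) :
    ∑ i ∈ T, ∑ j ∈ T.erase i, ∑ k ∈ (T.erase i).erase j, f i j k = TS T f := by
  classical
  unfold TS
  apply Finset.sum_congr rfl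
  intro i _
  rw [← Finset.filter_ne', Finset.sum_filter]
  apply Finset.sum_congr rfl
  intro j _
  rw [← Finset.filter_ne', Finset.filter_filter, Finset.sum_filter]
  split_ifs with hj
  · apply Finset.sum_congr rfl
    intro k _
    by_cases h : k ≠ i ∧ k ≠ j
    · rw [if_pos h, if_pos ⟨hj.symm, h.2.symm, h.1⟩]
    · rw [if_neg h, if_neg (fun h' => h ⟨h'.2.2, h'.2.1.symm⟩)]
  · symm
    apply Finset.sum_eq_zero
    intro k _
    rw [if_neg (fun h' => hj h'.1.symm)]

private theorem TS_cyc (T : Finset ℕ) (f : ℕ → ℕ → ℕ → ℝ) :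
    TS T (fun i j k => f j k i) = TS T f := by
  unfold TS
  have h1 : ∀ F : ℕ → ℕ → ℕ → ℝ, ∑ i ∈ T, ∑ j ∈ T, ∑ k ∈ T, F j k i =
      ∑ i ∈ T, ∑ j ∈ T, ∑ k ∈ T, F i j k := by
    intro F
    rw [Finset.sum_comm]
    apply Finset.sum_congr rfl
    intro j _
    rw [Finset.sum_comm]
  rw [← h1 (fun i j k => if i ≠ j ∧ j ≠ k ∧ k ≠ i then f i j k else 0)]
  apply Finset.sum_congr rfl
  intro i _
  apply Finset.sum_congr rfl
  intro j _
  apply Finset.sum_congr rfl
  intro k _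
  have : (i ≠ j ∧ j ≠ k ∧ k ≠ i) ↔ (j ≠ k ∧ k ≠ i ∧ i ≠ j) := by tauto
  simp only [this]

private theorem TS_add (T : Finset ℕ) (f g : ℕ → ℕ → ℕ → ℝ) :
    TS T (fun i j k => f i j k + g i j k) = TS T f + TS T g := by
  unfold TS
  rw [← Finset.sum_add_distrib]
  apply Finset.sum_congr rfl
  intro i _
  rw [← Finset.sum_add_distrib]
  apply Finset.sum_congr rfl
  intro j _
  rw [← Finset.sum_add_distrib]
  apply Finset.sum_congr rfl
  intro k _
  split_ifs <;> simp

private theorem TS_mul (T : Finset ℕ) (c : ℝ) (f : ℕ → ℕ → ℕ → ℝ) :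
    TS T (fun i j k => c * f i j k) = c * TS T f := by
  unfold TS
  rw [Finset.mul_sum]
  apply Finset.sum_congr rfl
  intro i _
  rw [Finset.mul_sum]
  apply Finset.sum_congr rfl
  intro j _
  rw [Finset.mul_sum]
  apply Finset.sum_congr rfl
  intro k _
  split_ifs <;> simp

private theorem TS_le (T : Finset ℕ) (f g : ℕ → ℕ → ℕ → ℝ)
    (h : ∀ i j k, i ≠ j → j ≠ k → k ≠ i → f i j k ≤ g i j k) : TS T f ≤ TS T g := by
  unfold TS
  apply Finset.sum_le_sum
  intro i _
  apply Finset.sum_le_sum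
  intro j _
  apply Finset.sum_le_sum
  intro k _
  split_ifs with h1
  · exact h i j k h1.1 h1.2.1 h1.2.2
  · exact le_rfl

private theorem TS_subset {T T' : Finset ℕ} (hT : T ⊆ T') (f : ℕ → ℕ → ℕ → ℝ)
    (h : ∀ i j k, 0 ≤ f i j k) : TS T f ≤ TS T' f := by
  unfold TS
  have h0 : ∀ i j k, 0 ≤ (if i ≠ j ∧ j ≠ k ∧ k ≠ i then f i j k else 0) := by
    intro i j k
    split_ifs
    · exact h i j k
    · exact le_rfl
  calc ∑ i ∈ T, ∑ j ∈ T, ∑ k ∈ T, (if i ≠ j ∧ j ≠ k ∧ k ≠ i then f i j k else 0)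
      ≤ ∑ i ∈ T, ∑ j ∈ T', ∑ k ∈ T', (if i ≠ j ∧ j ≠ k ∧ k ≠ i then f i j k else 0) := by
        apply Finset.sum_le_sum
        intro i _
        calc _ ≤ ∑ j ∈ T, ∑ k ∈ T', (if i ≠ j ∧ j ≠ k ∧ k ≠ i then f i j k else 0) := by
              apply Finset.sum_le_sum
              intro j _
              exact Finset.sum_le_sum_of_subset_of_nonneg hT fun k _ _ => h0 i j k
          _ ≤ _ := Finset.sum_le_sum_of_subset_of_nonneg hT fun j _ _ =>
              Finset.sum_nonneg fun k _ => h0 i j k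
    _ ≤ _ := Finset.sum_le_sum_of_subset_of_nonneg hT fun i _ _ =>
        Finset.sum_nonneg fun j _ => Finset.sum_nonneg fun k _ => h0 i j k

private theorem norm_sum_sq (s : Finset ℕ) (v : ℕ → ℂ) :
    ‖∑ j ∈ s, v j‖ ^ 2 = ∑ i ∈ s, ∑ j ∈ s, (v i * conj (v j)).re := by
  rw [← Complex.normSq_eq_norm_sq]
  have h1 : Complex.normSq (∑ j ∈ s, v j) = ((∑ j ∈ s, v j) * conj (∑ j ∈ s, v j)).re := by
    rw [Complex.mul_conj, Complex.ofReal_re]
  rw [h1, map_sum, Finset.sum_mul_sum, Complex.re_sum]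
  apply Finset.sum_congr rfl
  intro i _
  rw [Complex.re_sum]

private theorem sum_inv_sq_le (N k : ℕ) (hk : k < N) :
    ∑ i ∈ (Finset.range N).erase k, (((i : ℝ) - k) ^ 2)⁻¹ ≤ 4 := by
  classical
  have h1 : (Finset.range N).erase k = Finset.range k ∪ Finset.Ioo k N := by
    ext i
    simp only [Finset.mem_erase, Finset.mem_range, Finset.mem_union, Finset.mem_Ioo]
    omega
  have h2 : Disjoint (Finset.range k) (Finset.Ioo k N) := by
    rw [Finset.disjoint_left]
    intro i hi hi'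
    rw [Finset.mem_range] at hi
    rw [Finset.mem_Ioo] at hi'
    omega
  rw [h1, Finset.sum_union h2]
  have h3 : ∑ i ∈ Finset.range k, (((i : ℝ) - k) ^ 2)⁻¹ =
      ∑ n ∈ Finset.Ioo 0 (k + 1), ((n : ℝ) ^ 2)⁻¹ := by
    apply Finset.sum_bij' (fun i _ => k - i) (fun n _ => k - n)
    · intro i hi
      rw [Finset.mem_range] at hi
      rw [Finset.mem_Ioo]
      omega
    · intro n hn
      rw [Finset.mem_Ioo] at hn
      rw [Finset.mem_range]
      omega
    · intro i hi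
      rw [Finset.mem_range] at hi
      omega
    · intro n hn
      rw [Finset.mem_Ioo] at hn
      omega
    · intro i hi
      rw [Finset.mem_range] at hi
      rw [Nat.cast_sub hi.le]
      congr 1
      ring
  have h4 : ∑ i ∈ Finset.Ioo k N, (((i : ℝ) - k) ^ 2)⁻¹ =
      ∑ n ∈ Finset.Ioo 0 (N - k), ((n : ℝ) ^ 2)⁻¹ := by
    apply Finset.sum_bij' (fun i _ => i - k) (fun n _ => n + k)
    · intro i hi
      rw [Finset.mem_Ioo] at hi ⊢
      omega
    · intro n hn
      rw [Finset.mem_Ioo] at hn ⊢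
      omega
    · intro i hi
      rw [Finset.mem_Ioo] at hi
      omega
    · intro n hn
      rw [Finset.mem_Ioo] at hn
      omega
    · intro i hi
      rw [Finset.mem_Ioo] at hi
      rw [Nat.cast_sub hi.1.le]
  have h5 := sum_Ioo_inv_sq_le (α := ℝ) 0 (k + 1)
  have h6 := sum_Ioo_inv_sq_le (α := ℝ) 0 (N - k)
  rw [h3, h4]
  norm_num at h5 h6 ⊢
  linarith

/-- `L²` bound for the discrete Cauchy transform on a Lipschitz graph. -/
theorem disc_energy (N : ℕ) (T : Finset ℕ) (hT : T ⊆ Finset.range N) (y : ℕ → ℝ) (M : ℝ)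
    (hM : 0 ≤ M) (h : ∀ i ∈ T, ∀ j ∈ T, |y i - y j| ≤ M * |(i : ℝ) - j|) :
    ∑ k ∈ T, ‖∑ j ∈ T.erase k,
        ((((j : ℝ) - k : ℝ) : ℂ) + ((y j - y k : ℝ) : ℂ) * Complex.I)⁻¹‖ ^ 2
      ≤ (4 + 16 * M ^ 2) * N := by
  classical
  -- extension
  obtain ⟨g, hg, hgT⟩ : ∃ g : ℕ → ℝ, (∀ i j, |g i - g j| ≤ M * |(i : ℝ) - j|) ∧
      ∀ i ∈ T, y i = g i := by
    have h1 : LipschitzOnWith ⟨M, hM⟩ y (T : Set ℕ) := by
      apply LipschitzOnWith.of_dist_le_mul
      intro i hi j hj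
      rw [Real.dist_eq, Nat.dist_eq]
      exact h i hi j hj
    obtain ⟨g, hg, hgT⟩ := h1.extend_real
    refine ⟨g, fun i j => ?_, fun i hi => hgT hi⟩
    have := hg.dist_le_mul i j
    rwa [Real.dist_eq, Nat.dist_eq] at this
  set ζ : ℕ → ℂ := fun k => ((k : ℝ) : ℂ) + (g k : ℂ) * Complex.I with hζ
  have hre : ∀ k, (ζ k).re = k := by
    intro k
    simp [hζ]
  have him : ∀ k, (ζ k).im = g k := by
    intro k
    simp [hζ]
  set f1 : ℕ → ℕ → ℕ → ℝ := fun i j k =>
    ((ζ i - ζ k)⁻¹ * conj ((ζ j - ζ k)⁻¹)).re with hf1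
  have hterm : ∀ k ∈ T, ∀ j ∈ T.erase k,
      ((((j : ℝ) - k : ℝ) : ℂ) + ((y j - y k : ℝ) : ℂ) * Complex.I)⁻¹ = (ζ j - ζ k)⁻¹ := by
    intro k hk j hj
    rw [hgT k hk, hgT j (Finset.mem_of_mem_erase hj)]
    congr 1
    simp only [hζ]
    push_cast
    ring
  have hLHS : ∑ k ∈ T, ‖∑ j ∈ T.erase k,
        ((((j : ℝ) - k : ℝ) : ℂ) + ((y j - y k : ℝ) : ℂ) * Complex.I)⁻¹‖ ^ 2 =
      ∑ k ∈ T, ∑ i ∈ T.erase k, f1 i i k + TS T (fun k i j => f1 i j k) := by
    rw [← TS_erase, ← Finset.sum_add_distrib]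
    apply Finset.sum_congr rfl
    intro k hk
    rw [Finset.sum_congr rfl (hterm k hk), norm_sum_sq, ← Finset.sum_add_distrib]
    apply Finset.sum_congr rfl
    intro i hi
    rw [Finset.add_sum_erase _ (fun j => f1 i j k) hi]
  rw [hLHS]
  -- the diagonal part
  have hdiag : ∑ k ∈ T, ∑ i ∈ T.erase k, f1 i i k ≤ 4 * N := by
    have h1 : ∀ i k, i ≠ k → f1 i i k ≤ (((i : ℝ) - k) ^ 2)⁻¹ := by
      intro i k hik
      have h2 : f1 i i k = (Complex.normSq (ζ i - ζ k))⁻¹ := by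
        simp only [hf1]
        rw [Complex.mul_conj, Complex.ofReal_re, map_inv₀]
      rw [h2]
      have h3 : (0 : ℝ) < ((i : ℝ) - k) ^ 2 := by
        have : (i : ℝ) - k ≠ 0 := by
          rw [sub_ne_zero]
          exact_mod_cast hik
        positivity
      apply inv_anti₀ h3
      rw [Complex.normSq_apply, Complex.sub_re, Complex.sub_im, hre, hre]
      nlinarith [mul_self_nonneg ((ζ i).im - (ζ k).im)]
    calc ∑ k ∈ T, ∑ i ∈ T.erase k, f1 i i k
        ≤ ∑ k ∈ T, (4 : ℝ) := by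
          apply Finset.sum_le_sum
          intro k hk
          have hkN := Finset.mem_range.1 (hT hk)
          refine le_trans ?_ (sum_inv_sq_le N k hkN)
          calc ∑ i ∈ T.erase k, f1 i i k ≤ ∑ i ∈ T.erase k, (((i : ℝ) - k) ^ 2)⁻¹ := by
                apply Finset.sum_le_sum
                intro i hi
                exact h1 i k (Finset.ne_of_mem_erase hi)
            _ ≤ _ := by
                apply Finset.sum_le_sum_of_subset_of_nonneg (Finset.erase_subset_erase _ hT)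
                intro i _ _
                positivity
      _ = 4 * T.card := by rw [Finset.sum_const, nsmul_eq_mul, mul_comm]
      _ ≤ 4 * N := by
          have := Finset.card_le_card hT
          rw [Finset.card_range] at this
          have h2 : (T.card : ℝ) ≤ N := by exact_mod_cast this
          linarith
  -- the off-diagonal part
  have hoff : TS T (fun k i j => f1 i j k) ≤ 16 * M ^ 2 * N := by
    have h1 : TS T (fun k i j => f1 i j k) = TS T f1 := TS_cyc T f1
    have h2 : TS T (fun i j k => f1 k i j) = TS T f1 := (TS_cyc T (fun i j k => f1 k i j)).symm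
    have h3 : TS T (fun i j k => SS (ζ i) (ζ j) (ζ k)) = 6 * TS T f1 := by
      have h4 : (fun i j k => SS (ζ i) (ζ j) (ζ k)) =
          fun i j k => (2 * f1 i j k + 2 * f1 j k i) + 2 * f1 k i j := by
        funext i j k
        rfl
      rw [h4, TS_add T (fun i j k => 2 * f1 i j k + 2 * f1 j k i) (fun i j k => 2 * f1 k i j),
        TS_add T (fun i j k => 2 * f1 i j k) (fun i j k => 2 * f1 j k i), TS_mul, TS_mul T 2 (fun i j k => f1 j k i),
        TS_mul T 2 (fun i j k => f1 k i j), TS_cyc T f1, h2]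
      ring
    have h5 : TS T (fun i j k => SS (ζ i) (ζ j) (ζ k)) ≤ TS T (fun i j k => 4 *
        (((g j - g i) / ((j : ℝ) - i) - (g k - g j) / ((k : ℝ) - j)) ^ 2 / ((k : ℝ) - i) ^ 2)) := by
      apply TS_le
      intro i j k hij hjk hki
      have e1 : (ζ i).re ≠ (ζ j).re := by rw [hre, hre]; exact_mod_cast hij
      have e2 : (ζ j).re ≠ (ζ k).re := by rw [hre, hre]; exact_mod_cast hjk
      have e3 : (ζ i).re ≠ (ζ k).re := by rw [hre, hre]; exact_mod_cast hki.symm
      have h6 := SS_le_slope e1 e2 e3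
      rw [hre, hre, hre, him, him, him] at h6
      rw [mul_div_assoc] at h6
      exact h6
    rw [TS_mul] at h5
    have h7 : TS T (fun i j k =>
        (((g j - g i) / ((j : ℝ) - i) - (g k - g j) / ((k : ℝ) - j)) ^ 2 / ((k : ℝ) - i) ^ 2)) ≤
        24 * M ^ 2 * N := by
      refine le_trans (TS_subset hT _ fun i j k => by positivity) ?_
      rw [← TS_erase]
      exact telescope N g M hM fun i _ j _ => hg i j
    rw [h1]
    rw [h3] at h5
    linarith
  linarith

end DH
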