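import Pool.Agent.H30.DH.CauchyB
import Pool.Agent.H30.DH.DiscEnergy

open MeasureTheory Set Filter Topology

namespace DH

theorem nice_dens (T : Finset ℕ) (z : ℕ → ℂ) (h : ℝ) : Nice (dens T z h) := by
  refine ⟨?_, ?_, ?_⟩
  · unfold dens
    refine Finset.stronglyMeasurable_fun_sum _ fun k _ => ?_
    exact StronglyMeasurable.indicator stronglyMeasurable_const Metric.isClosed_closedBall.measurableSet
  · refine ⟨∑ k ∈ T, |16 / (Real.pi * h)|, fun w => ?_⟩
    unfold dens
    refine (norm_sum_le _ _).trans (Finset.sum_le_sum fun k _ => ?_)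
    rw [Real.norm_eq_abs]
    by_cases hw : w ∈ Metric.closedBall (z k) (h / 4)
    · rw [indicator_of_mem hw]
    · rw [indicator_of_notMem hw, abs_zero]; exact abs_nonneg _
  · refine ⟨∑ k ∈ T, (‖z k‖ + |h / 4|), fun w hw => ?_⟩
    unfold dens
    refine Finset.sum_eq_zero fun k hk => ?_
    apply indicator_of_notMem
    intro hmem
    rw [mem_closedBall_iff_norm] at hmem
    have h1 : ‖z k‖ + |h / 4| ≤ ∑ k ∈ T, (‖z k‖ + |h / 4|) :=
      Finset.single_le_sum (f := fun k => ‖z k‖ + |h / 4|) (fun i _ => by positivity) hk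
    have h2 : ‖w‖ ≤ ‖z k‖ + ‖w - z k‖ := by
      have := norm_add_le (z k) (w - z k)
      rwa [add_sub_cancel] at this
    have h3 := le_abs_self (h / 4)
    linarith

theorem dens_nonneg (T : Finset ℕ) (z : ℕ → ℂ) {h : ℝ} (hh : 0 < h) (w : ℂ) :
    0 ≤ dens T z h w := by
  unfold dens
  refine Finset.sum_nonneg fun k _ => indicator_nonneg (fun _ _ => ?_) _
  have := Real.pi_pos
  positivity

theorem volume_disk (c : ℂ) {h : ℝ} (hh : 0 < h) :
    (volume (Metric.closedBall c (h / 4))).toReal = Real.pi * h ^ 2 / 16 := by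
  rw [Complex.volume_closedBall, ENNReal.toReal_mul, ENNReal.toReal_pow,
    ENNReal.toReal_ofReal (by positivity)]
  simp only [ENNReal.coe_toReal, NNReal.coe_real_pi]
  ring

theorem integral_dens (T : Finset ℕ) (z : ℕ → ℂ) {h : ℝ} (hh : 0 < h) :
    ∫ w, dens T z h w = h * T.card := by
  have hp := Real.pi_pos
  unfold dens
  rw [integral_finsetSum]
  · have : ∀ k ∈ T, ∫ w, (Metric.closedBall (z k) (h / 4)).indicator
        (fun _ => 16 / (Real.pi * h)) w = h := by
      intro k _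
      rw [integral_indicator Metric.isClosed_closedBall.measurableSet, setIntegral_const,
        Measure.real, volume_disk _ hh, smul_eq_mul]
      field_simp
    rw [Finset.sum_congr rfl this, Finset.sum_const, nsmul_eq_mul, mul_comm]
  · intro k _
    rw [integrable_indicator_iff Metric.isClosed_closedBall.measurableSet]
    exact integrableOn_const (by
      exact (isCompact_closedBall _ _).measure_lt_top.ne)

theorem sum_inv_sq_le (s : Finset ℕ) (k : ℕ) (hk : k ∉ s) :
    ∑ j ∈ s, (((j : ℝ) - k) ^ 2)⁻¹ ≤ 4 := by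
  classical
  have h1 : ∑ j ∈ s, (((j : ℝ) - k) ^ 2)⁻¹ =
      ∑ j ∈ s.filter (fun j => k < j), (((j : ℝ) - k) ^ 2)⁻¹ +
      ∑ j ∈ s.filter (fun j => ¬ k < j), (((j : ℝ) - k) ^ 2)⁻¹ :=
    (Finset.sum_filter_add_sum_filter_not s _ _).symm
  have hA : ∑ j ∈ s.filter (fun j => k < j), (((j : ℝ) - k) ^ 2)⁻¹ ≤ 2 := by
    have e1 : ∑ j ∈ s.filter (fun j => k < j), (((j : ℝ) - k) ^ 2)⁻¹ =
        ∑ n ∈ (s.filter (fun j => k < j)).image (fun j => j - k), ((n : ℝ) ^ 2)⁻¹ := by
      rw [Finset.sum_image]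
      · refine Finset.sum_congr rfl fun j hj => ?_
        have := (Finset.mem_filter.1 hj).2
        rw [Nat.cast_sub this.le]
      · intro a ha b hb hab
        have ha' := (Finset.mem_filter.1 (Finset.mem_coe.1 ha)).2
        have hb' := (Finset.mem_filter.1 (Finset.mem_coe.1 hb)).2
        dsimp only at hab
        omega
    rw [e1]
    refine le_trans (Finset.sum_le_sum_of_subset_of_nonneg (t := Finset.Ioo 0 (s.sup id + 1)) ?_ ?_) ?_
    · intro n hn
      obtain ⟨j, hj, rfl⟩ := Finset.mem_image.1 hn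
      obtain ⟨hj1, hj2⟩ := Finset.mem_filter.1 hj
      have := Finset.le_sup (f := id) hj1
      rw [Finset.mem_Ioo]
      simp only [id] at this
      omega
    · intro n _ _; positivity
    · have := sum_Ioo_inv_sq_le (α := ℝ) 0 (s.sup id + 1)
      simpa using this
  have hB : ∑ j ∈ s.filter (fun j => ¬ k < j), (((j : ℝ) - k) ^ 2)⁻¹ ≤ 2 := by
    have hlt : ∀ j ∈ s.filter (fun j => ¬ k < j), j < k := by
      intro j hj
      obtain ⟨hj1, hj2⟩ := Finset.mem_filter.1 hj
      rcases lt_or_eq_of_le (not_lt.1 hj2) with h | h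
      · exact h
      · exact absurd (h ▸ hj1) hk
    have e1 : ∑ j ∈ s.filter (fun j => ¬ k < j), (((j : ℝ) - k) ^ 2)⁻¹ =
        ∑ n ∈ (s.filter (fun j => ¬ k < j)).image (fun j => k - j), ((n : ℝ) ^ 2)⁻¹ := by
      rw [Finset.sum_image]
      · refine Finset.sum_congr rfl fun j hj => ?_
        have := hlt j hj
        rw [Nat.cast_sub this.le, ← neg_sub, neg_sq]
      · intro a ha b hb hab
        have ha' := hlt a (Finset.mem_coe.1 ha)
        have hb' := hlt b (Finset.mem_coe.1 hb)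
        dsimp only at hab
        omega
    rw [e1]
    refine le_trans (Finset.sum_le_sum_of_subset_of_nonneg (t := Finset.Ioo 0 (k + 1)) ?_ ?_) ?_
    · intro n hn
      obtain ⟨j, hj, rfl⟩ := Finset.mem_image.1 hn
      have := hlt j hj
      rw [Finset.mem_Ioo]
      omega
    · intro n _ _; positivity
    · have := sum_Ioo_inv_sq_le (α := ℝ) 0 (k + 1)
      simpa using this
  rw [h1]
  linarith

theorem integrableOn_inv (c v : ℂ) (r : ℝ) (a : ℂ) :
    IntegrableOn (fun w => (w - v)⁻¹ * a) (Metric.closedBall c r) := by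
  apply Integrable.mul_const
  refine (integrableOn_inv_closedBall c v r).mono' ?_ ?_
  · exact ((measurable_id.sub_const v).inv).aestronglyMeasurable
  · exact Eventually.of_forall fun w => by rw [norm_inv]

theorem CT_dens (T : Finset ℕ) (z : ℕ → ℂ) (h : ℝ) (v : ℂ) :
    CT (fun w => (dens T z h w : ℂ)) v =
      ∑ k ∈ T, ∫ w in Metric.closedBall (z k) (h / 4), (w - v)⁻¹ * ((16 / (Real.pi * h) : ℝ) : ℂ) := by
  unfold CT dens
  have h1 : ∀ w : ℂ, (w - v)⁻¹ • ((∑ k ∈ T, (Metric.closedBall (z k) (h / 4)).indicator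
      (fun _ => 16 / (Real.pi * h)) w : ℝ) : ℂ) =
      ∑ k ∈ T, (Metric.closedBall (z k) (h / 4)).indicator
        (fun w => (w - v)⁻¹ * ((16 / (Real.pi * h) : ℝ) : ℂ)) w := by
    intro w
    rw [Complex.ofReal_sum, Finset.smul_sum]
    refine Finset.sum_congr rfl fun k _ => ?_
    by_cases hw : w ∈ Metric.closedBall (z k) (h / 4)
    · rw [indicator_of_mem hw, indicator_of_mem hw, smul_eq_mul]
    · rw [indicator_of_notMem hw, indicator_of_notMem hw, Complex.ofReal_zero, smul_zero]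
  simp_rw [h1]
  rw [integral_finsetSum]
  · refine Finset.sum_congr rfl fun k _ => ?_
    rw [integral_indicator Metric.isClosed_closedBall.measurableSet]
  · intro k _
    rw [integrable_indicator_iff Metric.isClosed_closedBall.measurableSet]
    exact integrableOn_inv _ _ _ _

/-- own disk -/
theorem own_disk (c v : ℂ) {h : ℝ} (hh : 0 < h) :
    ‖∫ w in Metric.closedBall c (h / 4), (w - v)⁻¹ * ((16 / (Real.pi * h) : ℝ) : ℂ)‖ ≤ 12 := by
  have hp := Real.pi_pos
  refine (norm_integral_le_integral_norm _).trans ?_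
  have h1 : ∀ w : ℂ, ‖(w - v)⁻¹ * ((16 / (Real.pi * h) : ℝ) : ℂ)‖ =
      ‖w - v‖⁻¹ * (16 / (Real.pi * h)) := by
    intro w
    rw [norm_mul, norm_inv, Complex.norm_real, Real.norm_eq_abs, abs_of_pos (by positivity)]
  simp_rw [h1]
  rw [integral_mul_const]
  have h2 := setIntegral_inv_closedBall_le c v (r := h / 4) (by positivity)
  calc (∫ w in Metric.closedBall c (h / 4), ‖w - v‖⁻¹) * (16 / (Real.pi * h))
      ≤ (3 * Real.pi * (h / 4)) * (16 / (Real.pi * h)) :=
        mul_le_mul_of_nonneg_right h2 (by positivity)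
    _ = 12 := by field_simp; norm_num

/-- other disks: `c` is the centre of the disk, `v` a point of the disk with centre `c'` -/
theorem other_disk (c c' v : ℂ) {h m : ℝ} (hh : 0 < h) (hm : 1 ≤ m) (hcc : m * h ≤ ‖c - c'‖)
    (hv : ‖v - c'‖ ≤ h / 4) :
    ‖(∫ w in Metric.closedBall c (h / 4), (w - v)⁻¹ * ((16 / (Real.pi * h) : ℝ) : ℂ)) -
      (h : ℂ) * (c - c')⁻¹‖ ≤ (m ^ 2)⁻¹ := by
  have hp := Real.pi_pos
  have hvol := volume_disk c hh
  have hccpos : 0 < ‖c - c'‖ := lt_of_lt_of_le (by positivity) hcc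
  have hcc0 : c - c' ≠ 0 := norm_pos_iff.1 hccpos
  have h1 : (h : ℂ) * (c - c')⁻¹ =
      ∫ _w in Metric.closedBall c (h / 4), (c - c')⁻¹ * ((16 / (Real.pi * h) : ℝ) : ℂ) := by
    rw [setIntegral_const, Measure.real, hvol, Complex.real_smul]
    have : ((Real.pi * h ^ 2 / 16 : ℝ) : ℂ) * ((c - c')⁻¹ * ((16 / (Real.pi * h) : ℝ) : ℂ)) =
        ((Real.pi * h ^ 2 / 16 * (16 / (Real.pi * h)) : ℝ) : ℂ) * (c - c')⁻¹ := by
      push_cast; ring
    rw [this]
    congr 2
    field_simp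
  rw [h1, ← integral_sub (integrableOn_inv _ _ _ _) (integrableOn_const (by
      exact (isCompact_closedBall _ _).measure_lt_top.ne))]
  have hbd : ∀ w ∈ Metric.closedBall c (h / 4),
      ‖(w - v)⁻¹ * ((16 / (Real.pi * h) : ℝ) : ℂ) - (c - c')⁻¹ * ((16 / (Real.pi * h) : ℝ) : ℂ)‖ ≤
        (m ^ 2 * h)⁻¹ * (16 / (Real.pi * h)) := by
    intro w hw
    rw [mem_closedBall_iff_norm] at hw
    have hwv : ‖c - c'‖ - h / 2 ≤ ‖w - v‖ := by
      have h2 : c - c' = (w - v) + ((c - w) + (v - c')) := by ring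
      have h3 : ‖c - c'‖ ≤ ‖w - v‖ + ‖(c - w) + (v - c')‖ := by
        calc ‖c - c'‖ = ‖(w - v) + ((c - w) + (v - c'))‖ := by rw [← h2]
          _ ≤ _ := norm_add_le _ _
      have h4 : ‖(c - w) + (v - c')‖ ≤ ‖w - c‖ + ‖v - c'‖ := by
        rw [← norm_neg (w - c), neg_sub]
        exact norm_add_le _ _
      linarith
    have hmh : h ≤ m * h := by nlinarith
    have hwv2 : m * h / 2 ≤ ‖w - v‖ := by linarith
    have hwvpos : 0 < ‖w - v‖ := lt_of_lt_of_le (by positivity) hwv2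
    have hwv0 : w - v ≠ 0 := norm_pos_iff.1 hwvpos
    rw [← sub_mul, norm_mul, Complex.norm_real, Real.norm_eq_abs,
      abs_of_pos (show 0 < 16 / (Real.pi * h) by positivity)]
    apply mul_le_mul_of_nonneg_right _ (by positivity)
    rw [inv_sub_inv hwv0 hcc0, norm_div, norm_mul]
    have h5 : ‖c - c' - (w - v)‖ ≤ h / 2 := by
      have : c - c' - (w - v) = -(w - c) + (v - c') := by ring
      rw [this]
      refine (norm_add_le _ _).trans ?_
      rw [norm_neg]
      linarith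
    rw [div_le_iff₀ (by positivity)]
    refine h5.trans ?_
    have h6 : m * h / 2 * (m * h) ≤ ‖w - v‖ * ‖c - c'‖ :=
      mul_le_mul hwv2 hcc (by positivity) (norm_nonneg _)
    calc h / 2 = (m ^ 2 * h)⁻¹ * (m * h / 2 * (m * h)) := by field_simp
      _ ≤ _ := mul_le_mul_of_nonneg_left h6 (by positivity)
  have h7 := norm_setIntegral_le_of_norm_le_const (μ := volume)
    (s := Metric.closedBall c (h / 4)) (isCompact_closedBall _ _).measure_lt_top hbd
  refine h7.trans (le_of_eq ?_)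
  rw [Measure.real, hvol]
  field_simp

theorem norm_pt_sub (p e : ℂ) (_he : ‖e‖ = 1) (t0 h : ℝ) (G : ℕ → ℝ) (j k : ℕ) :
    pt p e t0 h G j - pt p e t0 h G k =
      e * ((((j : ℝ) - k) * h : ℝ) + ((G j - G k : ℝ) : ℂ) * Complex.I) := by
  unfold pt
  push_cast
  ring

theorem disk_energy (M : ℝ) (hM : 0 ≤ M) : ∃ C1 : ℝ, 0 < C1 ∧ ∀ (N : ℕ) (h : ℝ), 0 < h →
    ∀ (T : Finset ℕ), T ⊆ Finset.range N → ∀ (p e : ℂ), ‖e‖ = 1 → ∀ (t0 : ℝ) (G : ℕ → ℝ),
    (∀ k ∈ T, ∀ l ∈ T, |G k - G l| ≤ M * h * |(k : ℝ) - l|) →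
    ∫ z, ‖CT (fun w => (dens T (pt p e t0 h G) h w : ℂ)) z‖ ^ 2 * dens T (pt p e t0 h G) h z
      ≤ C1 * (N * h) := by
  refine ⟨520 + 32 * M ^ 2, by positivity, ?_⟩
  intro N h hh T hT p e he t0 G hG
  have hp := Real.pi_pos
  set z := pt p e t0 h G with hz
  set ρ := dens T z h with hρ
  have hnice : Nice ρ := nice_dens T z h
  let y : ℕ → ℝ := fun k => G k / h
  let S : ℕ → ℝ := fun k => ‖∑ j ∈ T.erase k,
        ((((j : ℝ) - k : ℝ) : ℂ) + ((y j - y k : ℝ) : ℂ) * Complex.I)⁻¹‖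
  have he0 : e ≠ 0 := by
    intro h0
    rw [h0, norm_zero] at he
    exact zero_ne_one he
  have hdist : ∀ j k : ℕ, |(j : ℝ) - k| * h ≤ ‖z j - z k‖ := by
    intro j k
    rw [hz, norm_pt_sub p e he, norm_mul, he, one_mul]
    have := Complex.abs_re_le_norm
      (((((j : ℝ) - k) * h : ℝ) : ℂ) + ((G j - G k : ℝ) : ℂ) * Complex.I)
    have hre : (((((j : ℝ) - k) * h : ℝ) : ℂ) + ((G j - G k : ℝ) : ℂ) * Complex.I).re =
        ((j : ℝ) - k) * h := by simp
    rw [hre, abs_mul, abs_of_pos hh] at this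
    exact this
  have hmge : ∀ j k : ℕ, j ≠ k → 1 ≤ |(j : ℝ) - k| := by
    intro j k hjk
    have h1 : ((j : ℤ) - k) ≠ 0 := by omega
    have h2 := Int.one_le_abs h1
    have h3 : ((|(j : ℤ) - k| : ℤ) : ℝ) = |(j : ℝ) - k| := by push_cast; ring
    rw [← h3]
    exact_mod_cast h2
  have hS : ∀ k, ‖∑ j ∈ T.erase k, (h : ℂ) * (z j - z k)⁻¹‖ = S k := by
    intro k
    have h1 : ∀ j, (h : ℂ) * (z j - z k)⁻¹ =
        e⁻¹ * ((((j : ℝ) - k : ℝ) : ℂ) + ((y j - y k : ℝ) : ℂ) * Complex.I)⁻¹ := by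
      intro j
      have hhC : (h : ℂ) ≠ 0 := by exact_mod_cast hh.ne'
      have h2 : z j - z k = (h : ℂ) * (e * ((((j : ℝ) - k : ℝ) : ℂ) +
          ((y j - y k : ℝ) : ℂ) * Complex.I)) := by
        rw [hz, norm_pt_sub p e he]
        have h3 : (G j - G k : ℝ) = h * (y j - y k) := by
          change G j - G k = h * (G j / h - G k / h)
          field_simp
        rw [h3]
        push_cast
        ring
      rw [h2, mul_inv, ← mul_assoc, mul_inv_cancel₀ hhC, one_mul, mul_inv]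
    simp_rw [h1]
    rw [← Finset.mul_sum, norm_mul, norm_inv, he, inv_one, one_mul]
  -- pointwise bound of the Cauchy transform on the disks
  have hpt : ∀ k ∈ T, ∀ v ∈ Metric.closedBall (z k) (h / 4),
      ‖CT (fun w => (ρ w : ℂ)) v‖ ≤ 16 + S k := by
    intro k hk v hv
    rw [mem_closedBall_iff_norm] at hv
    rw [hρ, CT_dens, ← Finset.add_sum_erase T _ hk]
    have h1 := own_disk (z k) v hh
    have h2 : ‖∑ j ∈ T.erase k, ((∫ w in Metric.closedBall (z j) (h / 4),
        (w - v)⁻¹ * ((16 / (Real.pi * h) : ℝ) : ℂ)) - (h : ℂ) * (z j - z k)⁻¹)‖ ≤ 4 := by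
      refine (norm_sum_le _ _).trans ?_
      refine le_trans (Finset.sum_le_sum (g := fun j : ℕ => (((j : ℝ) - k) ^ 2)⁻¹) ?_)
        (sum_inv_sq_le _ k (Finset.notMem_erase k T))
      intro j hj
      have hjk := Finset.ne_of_mem_erase hj
      have := other_disk (z j) (z k) v hh (hmge j k hjk) (hdist j k) hv
      rwa [sq_abs] at this
    rw [Finset.sum_sub_distrib] at h2
    have h3 := hS k
    set P := ∑ j ∈ T.erase k, ∫ w in Metric.closedBall (z j) (h / 4),
        (w - v)⁻¹ * ((16 / (Real.pi * h) : ℝ) : ℂ) with hP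
    set Q := ∑ j ∈ T.erase k, (h : ℂ) * (z j - z k)⁻¹ with hQ
    have h4 : ‖P‖ ≤ ‖P - Q‖ + ‖Q‖ := by
      have := norm_add_le (P - Q) Q
      rwa [sub_add_cancel] at this
    refine (norm_add_le _ _).trans ?_
    linarith
  -- the energy integral
  have hcont : Continuous (CT (fun w => (ρ w : ℂ))) := hnice.ofReal.continuous_CT
  have hsplit : ∫ v, ‖CT (fun w => (ρ w : ℂ)) v‖ ^ 2 * ρ v =
      ∑ k ∈ T, ∫ v in Metric.closedBall (z k) (h / 4),
        ‖CT (fun w => (ρ w : ℂ)) v‖ ^ 2 * (16 / (Real.pi * h)) := by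
    have h1 : ∀ v, ‖CT (fun w => (ρ w : ℂ)) v‖ ^ 2 * ρ v =
        ∑ k ∈ T, (Metric.closedBall (z k) (h / 4)).indicator
          (fun v => ‖CT (fun w => (ρ w : ℂ)) v‖ ^ 2 * (16 / (Real.pi * h))) v := by
      intro v
      have : ρ v = ∑ k ∈ T, (Metric.closedBall (z k) (h / 4)).indicator
        (fun _ => 16 / (Real.pi * h)) v := rfl
      rw [this, Finset.mul_sum]
      refine Finset.sum_congr rfl fun k _ => ?_
      by_cases hv : v ∈ Metric.closedBall (z k) (h / 4)
      · rw [indicator_of_mem hv, indicator_of_mem hv]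
      · rw [indicator_of_notMem hv, indicator_of_notMem hv, mul_zero]
    simp_rw [h1]
    rw [integral_finsetSum]
    · refine Finset.sum_congr rfl fun k _ => ?_
      rw [integral_indicator Metric.isClosed_closedBall.measurableSet]
    · intro k _
      rw [integrable_indicator_iff Metric.isClosed_closedBall.measurableSet]
      exact ((hcont.norm.pow 2).mul continuous_const).continuousOn.integrableOn_compact
        (isCompact_closedBall _ _)
  rw [hsplit]
  have hterm : ∀ k ∈ T, ∫ v in Metric.closedBall (z k) (h / 4),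
        ‖CT (fun w => (ρ w : ℂ)) v‖ ^ 2 * (16 / (Real.pi * h)) ≤ h * (512 + 2 * S k ^ 2) := by
    intro k hk
    have h1 : ∀ v ∈ Metric.closedBall (z k) (h / 4),
        ‖‖CT (fun w => (ρ w : ℂ)) v‖ ^ 2 * (16 / (Real.pi * h))‖ ≤
          (512 + 2 * S k ^ 2) * (16 / (Real.pi * h)) := by
      intro v hv
      rw [Real.norm_eq_abs, abs_of_nonneg (by positivity)]
      apply mul_le_mul_of_nonneg_right _ (by positivity)
      have h2 := hpt k hk v hv
      have h3 : ‖CT (fun w => (ρ w : ℂ)) v‖ ^ 2 ≤ (16 + S k) ^ 2 :=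
        pow_le_pow_left₀ (norm_nonneg _) h2 2
      nlinarith [sq_nonneg (16 - S k)]
    have h2 := norm_setIntegral_le_of_norm_le_const (μ := volume)
      (s := Metric.closedBall (z k) (h / 4)) (isCompact_closedBall _ _).measure_lt_top h1
    refine (Real.le_norm_self _).trans (h2.trans (le_of_eq ?_))
    rw [Measure.real, volume_disk _ hh]
    field_simp
  refine (Finset.sum_le_sum hterm).trans ?_
  have hde := disc_energy N T hT y M hM (by
    intro i hi j hj
    have := hG i hi j hj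
    change |G i / h - G j / h| ≤ _
    rw [← sub_div, abs_div, abs_of_pos hh, div_le_iff₀ hh]
    linarith)
  have hcard : (T.card : ℝ) ≤ N := by
    have := Finset.card_le_card hT
    rw [Finset.card_range] at this
    exact_mod_cast this
  rw [← Finset.mul_sum, Finset.sum_add_distrib, Finset.sum_const, nsmul_eq_mul, ← Finset.mul_sum]
  have hde' : ∑ k ∈ T, S k ^ 2 ≤ (4 + 16 * M ^ 2) * N := hde
  have : h * ((T.card : ℝ) * 512 + 2 * ∑ k ∈ T, S k ^ 2) ≤
      h * (N * 512 + 2 * ((4 + 16 * M ^ 2) * N)) := by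
    apply mul_le_mul_of_nonneg_left _ hh.le
    linarith
  refine this.trans (le_of_eq ?_)
  ring

end DH
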