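import Pool.Agent.H30.DH.CauchyB

open MeasureTheory Set Filter Topology

namespace DH

variable {E : Type*} [NormedAddCommGroup E] [NormedSpace ℂ E]

theorem nice_near {k : ℂ → E} (hk : Nice k) (x : ℂ) (R : ℝ) : Nice (near k x R) :=
  hk.indicator Metric.isOpen_ball.measurableSet

theorem nice_far {k : ℂ → E} (hk : Nice k) (x : ℂ) (R : ℝ) : Nice (far k x R) :=
  hk.indicator Metric.isOpen_ball.measurableSet.compl

theorem near_add_far (k : ℂ → E) (x : ℂ) (R : ℝ) (w : ℂ) :
    near k x R w + far k x R w = k w := by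
  unfold near far
  exact congrFun (Set.indicator_self_add_compl (Metric.ball x R) k) w

theorem CT_near_add_far {k : ℂ → E} (hk : Nice k) (x : ℂ) (R : ℝ) (z : ℂ) :
    CT (near k x R) z + CT (far k x R) z = CT k z := by
  rw [← CT_add (nice_near hk x R) (nice_far hk x R)]
  congr 1
  funext w
  exact near_add_far k x R w

theorem far_of_mem {k : ℂ → E} {x : ℂ} {R : ℝ} {w : ℂ} (h : ‖w - x‖ < R) : far k x R w = 0 := by
  unfold far
  apply Set.indicator_of_notMem
  intro h2
  apply h2
  rwa [Metric.mem_ball, dist_eq_norm]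

theorem far_of_le {k : ℂ → E} {x : ℂ} {R : ℝ} {w : ℂ} (h : R ≤ ‖w - x‖) : far k x R w = k w := by
  unfold far
  apply Set.indicator_of_mem
  intro h2
  rw [Metric.mem_ball, dist_eq_norm] at h2
  linarith

theorem near_of_mem {k : ℂ → E} {x : ℂ} {R : ℝ} {w : ℂ} (h : ‖w - x‖ < R) :
    near k x R w = k w := by
  unfold near
  apply Set.indicator_of_mem
  rwa [Metric.mem_ball, dist_eq_norm]

theorem near_of_le {k : ℂ → E} {x : ℂ} {R : ℝ} {w : ℂ} (h : R ≤ ‖w - x‖) :
    near k x R w = 0 := by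
  unfold near
  apply Set.indicator_of_notMem
  intro h2
  rw [Metric.mem_ball, dist_eq_norm] at h2
  linarith

theorem GG_weight_nonneg (x : ℂ) {R : ℝ} (hR : 0 ≤ R) (w : ℂ) :
    0 ≤ min R⁻¹ (R / ‖w - x‖ ^ 2) := le_min (by positivity) (by positivity)

theorem GG_nonneg (k : ℂ → E) (x : ℂ) {R : ℝ} (hR : 0 ≤ R) : 0 ≤ GG k x R :=
  integral_nonneg fun w => mul_nonneg (GG_weight_nonneg x hR w) (norm_nonneg _)

theorem GG_le {k : ℂ → E} (hk : Nice k) (x : ℂ) {R : ℝ} (hR : 0 < R) :
    GG k x R ≤ (∫ w, ‖k w‖) / R := by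
  have h1 : (∫ w, ‖k w‖) / R = ∫ w, R⁻¹ * ‖k w‖ := by
    rw [integral_const_mul]; ring
  rw [h1]
  unfold GG
  apply integral_mono_of_nonneg
  · exact Eventually.of_forall fun w => mul_nonneg (GG_weight_nonneg x hR.le w) (norm_nonneg _)
  · exact hk.integrable.norm.const_mul _
  · exact Eventually.of_forall fun w =>
      mul_le_mul_of_nonneg_right (min_le_left _ _) (norm_nonneg _)

theorem integrable_GG {k : ℂ → E} (hk : Nice k) (x : ℂ) {R : ℝ} (hR : 0 ≤ R) :
    Integrable (fun w => min R⁻¹ (R / ‖w - x‖ ^ 2) * ‖k w‖) := by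
  refine Integrable.mono' (hk.integrable.norm.const_mul R⁻¹) ?_ ?_
  · apply AEStronglyMeasurable.mul
    · apply Measurable.aestronglyMeasurable
      fun_prop
    · exact hk.integrable.aestronglyMeasurable.norm
  · refine Eventually.of_forall fun w => ?_
    rw [Real.norm_of_nonneg (mul_nonneg (GG_weight_nonneg x hR w) (norm_nonneg _))]
    exact mul_le_mul_of_nonneg_right (min_le_left _ _) (norm_nonneg _)

theorem HH_le {k : ℂ → E} (hk : Nice k) (x : ℂ) {R : ℝ} (hR : 0 < R) :
    HH k x R ≤ (∫ w, ‖k w‖) / R := by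
  have h1 : (∫ w, ‖k w‖) / R = ∫ w, R⁻¹ * ‖k w‖ := by
    rw [integral_const_mul]; ring
  rw [h1]
  unfold HH
  refine (norm_CT_le_integral _ _).trans ?_
  apply integral_mono_of_nonneg
  · exact Eventually.of_forall fun w => by positivity
  · exact hk.integrable.norm.const_mul _
  · refine Eventually.of_forall fun w => ?_
    change ‖w - x‖⁻¹ * ‖far k x R w‖ ≤ R⁻¹ * ‖k w‖
    rcases lt_or_ge ‖w - x‖ R with h | h
    · rw [far_of_mem h, norm_zero, mul_zero]
      positivity
    · rw [far_of_le h]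
      exact mul_le_mul_of_nonneg_right (inv_anti₀ hR h) (norm_nonneg _)

/-- the mass of a ball is controlled by `GG` -/
theorem mass_near_le {k : ℂ → E} (hk : Nice k) (x : ℂ) {R : ℝ} (hR : 0 < R) :
    ∫ w, ‖near k x R w‖ ≤ R * GG k x R := by
  unfold GG
  rw [← integral_const_mul]
  apply integral_mono_of_nonneg
  · exact Eventually.of_forall fun w => norm_nonneg _
  · exact (integrable_GG hk x hR.le).const_mul _
  · have hx : ∀ᵐ w : ℂ, w ≠ x := by
      have : (volume : Measure ℂ) {x} = 0 := measure_singleton x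
      rw [ae_iff]
      simpa using this
    filter_upwards [hx] with w hw
    have hw' : 0 < ‖w - x‖ := norm_pos_iff.2 (sub_ne_zero.2 hw)
    rcases lt_or_ge ‖w - x‖ R with h | h
    · rw [near_of_mem h]
      have h2 : R⁻¹ ≤ R / ‖w - x‖ ^ 2 := by
        rw [le_div_iff₀ (by positivity), inv_mul_le_iff₀ hR]
        nlinarith
      rw [min_eq_left h2, ← mul_assoc, mul_inv_cancel₀ hR.ne', one_mul]
    · rw [near_of_le h, norm_zero]
      exact mul_nonneg hR.le (mul_nonneg (GG_weight_nonneg x hR.le w) (norm_nonneg _))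

/-- far field is slowly varying -/
theorem norm_CT_far_sub_le {k : ℂ → E} (hk : Nice k) {x z : ℂ} {R s : ℝ} (hs : 0 ≤ s)
    (hR : 2 * s ≤ R) (hR0 : 0 < R) (hz : ‖z - x‖ ≤ s) :
    ‖CT (far k x R) z - CT (far k x R) x‖ ≤ 2 * s / R * GG k x R := by
  unfold CT GG
  rw [← integral_sub ((nice_far hk x R).integrable_cauchy z)
    ((nice_far hk x R).integrable_cauchy x), ← integral_const_mul]
  apply norm_integral_le_of_norm_le ((integrable_GG hk x hR0.le).const_mul _)
  refine Eventually.of_forall fun w => ?_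
  rw [← sub_smul, norm_smul]
  rcases lt_or_ge ‖w - x‖ R with h | h
  · rw [far_of_mem h, norm_zero, mul_zero]
    exact mul_nonneg (by positivity) (mul_nonneg (GG_weight_nonneg x hR0.le w) (norm_nonneg _))
  · rw [far_of_le h]
    have hwx : 0 < ‖w - x‖ := hR0.trans_le h
    have hwz : ‖w - x‖ / 2 ≤ ‖w - z‖ := by
      have h3 : w - x = (w - z) + (z - x) := by ring
      have h4 : ‖w - x‖ ≤ ‖w - z‖ + ‖z - x‖ := by
        rw [h3]; exact norm_add_le _ _
      linarith
    have hwz0 : 0 < ‖w - z‖ := by linarith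
    have h5 : (w - z)⁻¹ - (w - x)⁻¹ = (z - x) / ((w - z) * (w - x)) := by
      have h6 : w - z ≠ 0 := norm_pos_iff.1 hwz0
      have h7 : w - x ≠ 0 := norm_pos_iff.1 hwx
      field_simp
      ring
    have h8 : min R⁻¹ (R / ‖w - x‖ ^ 2) = R / ‖w - x‖ ^ 2 := by
      apply min_eq_right
      rw [div_le_iff₀ (by positivity), inv_mul_eq_div, le_div_iff₀ hR0]
      nlinarith
    rw [h8, ← mul_assoc]
    apply mul_le_mul_of_nonneg_right _ (norm_nonneg _)
    rw [h5, norm_div, norm_mul]
    have h9 : 2 * s / R * (R / ‖w - x‖ ^ 2) = s / (‖w - x‖ / 2 * ‖w - x‖) := by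
      field_simp
    rw [h9]
    apply div_le_div₀ hs hz (by positivity)
    exact mul_le_mul_of_nonneg_right hwz hwx.le

/-- comparison of the truncated transforms at two scales -/
theorem HH_le_HH_add {k : ℂ → E} (hk : Nice k) (x : ℂ) {R R' : ℝ} (hR : 0 < R) (hRR : R ≤ R') :
    HH k x R ≤ HH k x R' + R' / R * GG k x R' := by
  have hR' : 0 < R' := hR.trans_le hRR
  have h1 : ‖CT (far k x R) x - CT (far k x R') x‖ ≤ R' / R * GG k x R' := by
    unfold CT
    rw [← integral_sub ((nice_far hk x R).integrable_cauchy x)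
      ((nice_far hk x R').integrable_cauchy x)]
    have h2 : ‖∫ w, ((w - x)⁻¹ • far k x R w - (w - x)⁻¹ • far k x R' w)‖ ≤
        ∫ w, R⁻¹ * ‖near k x R' w‖ := by
      apply norm_integral_le_of_norm_le (((nice_near hk x R').integrable.norm).const_mul _)
      refine Eventually.of_forall fun w => ?_
      rw [← smul_sub, norm_smul, norm_inv]
      rcases lt_or_ge ‖w - x‖ R with h | h
      · rw [far_of_mem h, far_of_mem (h.trans_le hRR), sub_zero, norm_zero, mul_zero]
        positivity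
      · rcases lt_or_ge ‖w - x‖ R' with h' | h'
        · rw [far_of_le h, far_of_mem h', near_of_mem h', sub_zero]
          exact mul_le_mul_of_nonneg_right (inv_anti₀ hR h) (norm_nonneg _)
        · rw [far_of_le h, far_of_le h', sub_self, norm_zero, mul_zero]
          positivity
    refine h2.trans ?_
    rw [integral_const_mul]
    calc R⁻¹ * ∫ w, ‖near k x R' w‖ ≤ R⁻¹ * (R' * GG k x R') :=
          mul_le_mul_of_nonneg_left (mass_near_le hk x hR') (by positivity)
      _ = R' / R * GG k x R' := by ring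
  unfold HH
  have h3 : CT (far k x R) x = CT (far k x R') x + (CT (far k x R) x - CT (far k x R') x) := by
    abel
  calc ‖CT (far k x R) x‖ = ‖CT (far k x R') x + (CT (far k x R) x - CT (far k x R') x)‖ := by
        rw [← h3]
    _ ≤ ‖CT (far k x R') x‖ + ‖CT (far k x R) x - CT (far k x R') x‖ := norm_add_le _ _
    _ ≤ _ := by linarith

/-- if `GG` is large at scale `R` and small at scale `2R`, the ball `B(x,2R)` has a lot of mass -/
theorem mass_of_GG_gt {k : ℂ → E} (hk : Nice k) (x : ℂ) {R δ : ℝ} (hR : 0 < R)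
    (h1 : δ < GG k x R) (h2 : GG k x (2 * R) ≤ δ) :
    δ * R / 2 ≤ ∫ w, ‖near k x (2 * R) w‖ := by
  have hi1 : Integrable (fun w => R⁻¹ * ‖near k x (2 * R) w‖) :=
    ((nice_near hk x (2 * R)).integrable.norm).const_mul _
  have hi2 : Integrable (fun w => 2⁻¹ * (min (2 * R)⁻¹ (2 * R / ‖w - x‖ ^ 2) * ‖k w‖)) :=
    (integrable_GG hk x (by positivity)).const_mul _
  have h3 : GG k x R ≤ R⁻¹ * (∫ w, ‖near k x (2 * R) w‖) + 2⁻¹ * GG k x (2 * R) := by
    unfold GG
    rw [← integral_const_mul, ← integral_const_mul, ← integral_add hi1 hi2]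
    apply integral_mono_of_nonneg
    · exact Eventually.of_forall fun w =>
        mul_nonneg (GG_weight_nonneg x hR.le w) (norm_nonneg _)
    · exact hi1.add hi2
    · refine Eventually.of_forall fun w => ?_
      change min R⁻¹ (R / ‖w - x‖ ^ 2) * ‖k w‖ ≤ R⁻¹ * ‖near k x (2 * R) w‖ +
        2⁻¹ * (min (2 * R)⁻¹ (2 * R / ‖w - x‖ ^ 2) * ‖k w‖)
      rcases lt_or_ge ‖w - x‖ (2 * R) with h | h
      · rw [near_of_mem h]
        have h4 : 0 ≤ 2⁻¹ * (min (2 * R)⁻¹ (2 * R / ‖w - x‖ ^ 2) * ‖k w‖) :=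
          mul_nonneg (by positivity)
            (mul_nonneg (GG_weight_nonneg x (by positivity) w) (norm_nonneg _))
        have h5 : min R⁻¹ (R / ‖w - x‖ ^ 2) * ‖k w‖ ≤ R⁻¹ * ‖k w‖ :=
          mul_le_mul_of_nonneg_right (min_le_left _ _) (norm_nonneg _)
        linarith
      · rw [near_of_le h, norm_zero, mul_zero, zero_add]
        have hwx : 0 < ‖w - x‖ := by linarith
        have h6 : min (2 * R)⁻¹ (2 * R / ‖w - x‖ ^ 2) = 2 * R / ‖w - x‖ ^ 2 := by
          apply min_eq_right
          rw [div_le_iff₀ (by positivity), inv_mul_eq_div, le_div_iff₀ (by positivity)]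
          nlinarith
        rw [h6]
        have h7 : min R⁻¹ (R / ‖w - x‖ ^ 2) * ‖k w‖ ≤ R / ‖w - x‖ ^ 2 * ‖k w‖ :=
          mul_le_mul_of_nonneg_right (min_le_right _ _) (norm_nonneg _)
        refine h7.trans (le_of_eq ?_)
        ring
  have h8 : δ / 2 < R⁻¹ * ∫ w, ‖near k x (2 * R) w‖ := by linarith
  rw [inv_mul_eq_div, lt_div_iff₀ hR] at h8
  linarith

end DH
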