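import Mathlib

/-! # The setting of MP_128c63_an: `H^∞(V)`, its weak-star topology, distinguished homomorphisms -/

open MeasureTheory Set Filter Topology

namespace DHS

/-- `f : V → ℂ` is a bounded analytic function on `V`. -/
def IsHInf (V : Set ℂ) (f : V → ℂ) : Prop :=
  (∃ F : ℂ → ℂ, DifferentiableOn ℂ F V ∧ ∀ z : V, F z = f z) ∧ ∃ B : ℝ, ∀ z, ‖f z‖ ≤ B

/-- `H^∞(V)`: the bounded analytic functions on `V` -/
def HInf (V : Set ℂ) : Type := {f : V → ℂ // IsHInf V f}

variable {V : Set ℂ}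

theorem IsHInf.add {f g : V → ℂ} (hf : IsHInf V f) (hg : IsHInf V g) :
    IsHInf V (fun z => f z + g z) := by
  obtain ⟨⟨F, hF, hFf⟩, B, hB⟩ := hf
  obtain ⟨⟨G, hG, hGg⟩, B', hB'⟩ := hg
  exact ⟨⟨fun z => F z + G z, hF.add hG, fun z => by simp [hFf z, hGg z]⟩, B + B',
    fun z => (norm_add_le _ _).trans (add_le_add (hB z) (hB' z))⟩

theorem IsHInf.mul {f g : V → ℂ} (hf : IsHInf V f) (hg : IsHInf V g) :
    IsHInf V (fun z => f z * g z) := by
  obtain ⟨⟨F, hF, hFf⟩, B, hB⟩ := hf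
  obtain ⟨⟨G, hG, hGg⟩, B', hB'⟩ := hg
  refine ⟨⟨fun z => F z * G z, hF.mul hG, fun z => by simp [hFf z, hGg z]⟩, |B| * |B'|,
    fun z => ?_⟩
  rw [norm_mul]
  exact mul_le_mul ((hB z).trans (le_abs_self B)) ((hB' z).trans (le_abs_self B'))
    (norm_nonneg _) (abs_nonneg _)

theorem IsHInf.const (V : Set ℂ) (c : ℂ) : IsHInf V (fun _ => c) :=
  ⟨⟨fun _ => c, differentiableOn_const c, fun _ => rfl⟩, ‖c‖, fun _ => le_rfl⟩

theorem IsHInf.coord (hb : Bornology.IsBounded V) : IsHInf V (fun z => (z : ℂ)) := by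
  obtain ⟨R, hR⟩ := hb.exists_norm_le
  exact ⟨⟨fun z => z, differentiableOn_id, fun _ => rfl⟩, R, fun z => hR z z.2⟩

/-- pointwise sum in `H^∞(V)` -/
def HInf.add (f g : HInf V) : HInf V := ⟨fun z => f.1 z + g.1 z, f.2.add g.2⟩

/-- pointwise product in `H^∞(V)` -/
def HInf.mul (f g : HInf V) : HInf V := ⟨fun z => f.1 z * g.1 z, f.2.mul g.2⟩

/-- scalar multiple in `H^∞(V)` -/
def HInf.smul (c : ℂ) (f : HInf V) : HInf V := ⟨fun z => c * f.1 z, (IsHInf.const V c).mul f.2⟩

/-- the coordinate function `z`, an element of `H^∞(V)` since `V` is bounded -/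
def HInf.coord (hb : Bornology.IsBounded V) : HInf V := ⟨fun z => (z : ℂ), IsHInf.coord hb⟩

open Classical in
/-- the function of `H^∞(V)`, extended by zero off `V` -/
noncomputable def HInf.ext (f : HInf V) (z : ℂ) : ℂ := if h : z ∈ V then f.1 ⟨z, h⟩ else 0

/-- The weak-star topology of `H^∞(V)` as a subspace of `L^∞(V, dx dy) = L¹(V, dx dy)^*`: the
coarsest topology for which all the functionals `f ↦ ∫_V f g dx dy`, `g ∈ L¹(V)`, are continuous. -/
@[reducible] noncomputable def weakStar (V : Set ℂ) : TopologicalSpace (HInf V) :=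
  ⨅ g : {g : ℂ → ℂ // IntegrableOn g V}, TopologicalSpace.induced
    (fun f : HInf V => ∫ z in V, f.ext z * g.1 z) inferInstance

/-- `φ` is a point of the maximal ideal space: a nonzero multiplicative linear functional. -/
structure IsHom (φ : HInf V → ℂ) : Prop where
  map_add : ∀ f g : HInf V, φ (f.add g) = φ f + φ g
  map_smul : ∀ (c : ℂ) (f : HInf V), φ (f.smul c) = c * φ f
  map_mul : ∀ f g : HInf V, φ (f.mul g) = φ f * φ g
  ne_zero : ∃ f : HInf V, φ f ≠ 0

/-- distinguished: weak-star continuous -/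
def Distinguished (φ : HInf V → ℂ) : Prop := @Continuous _ _ (weakStar V) inferInstance φ

end DHS
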