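import Pool.Agent.H30.DH.App
import Pool.Agent.H30.DH.Setting

open MeasureTheory Set Filter Topology

namespace DHS

variable {V : Set ℂ}

/-- identification of the two versions of `H^∞(V)` -/
def toS (f : DH.Hinf V) : HInf V := ⟨f.1, f.2⟩

/-- the linear functional on the subalgebra -/
noncomputable def toLin (φ : HInf V → ℂ) (h : IsHom φ) : DH.Hinf V →ₗ[ℂ] ℂ where
  toFun f := φ (toS f)
  map_add' f g := h.map_add (toS f) (toS g)
  map_smul' c f := h.map_smul c (toS f)

theorem extz_eq (f : DH.Hinf V) (z : ℂ) : DH.extz V f.1 z = (toS f).ext z := by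
  unfold DH.extz HInf.ext toS
  congr

theorem isHom_toLin (φ : HInf V → ℂ) (h : IsHom φ) : DH.IsHom (toLin φ h) := by
  constructor
  · obtain ⟨f, hf⟩ := h.ne_zero
    intro h0
    apply hf
    have : toLin φ h ⟨f.1, f.2⟩ = 0 := by rw [h0]; rfl
    exact this
  · intro f g
    exact h.map_mul (toS f) (toS g)

theorem distinguished_toLin (φ : HInf V → ℂ) (h : IsHom φ) (hd : Distinguished φ) :
    DH.Distinguished (toLin φ h) := by
  have h1 : @Continuous _ _ (DH.weakStar V) (weakStar V) (toS : DH.Hinf V → HInf V) := by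
    rw [continuous_iInf_rng]
    intro g
    rw [continuous_induced_rng]
    apply continuous_iInf_dom (i := g)
    have : ((fun f : HInf V => ∫ z in V, f.ext z * g.1 z) ∘ (toS : DH.Hinf V → HInf V)) =
        fun f : DH.Hinf V => ∫ z in V, DH.extz V f.1 z * g.1 z := by
      funext f
      simp only [Function.comp_def]
      congr 1
    rw [this]
    exact continuous_induced_dom
  unfold DH.Distinguished
  exact @Continuous.comp _ _ _ (DH.weakStar V) (weakStar V) inferInstance toS φ hd h1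

theorem final (V : Set ℂ) (hV : IsOpen V) (hb : Bornology.IsBounded V) (ζ : ℂ)
    (hζ : ζ ∈ frontier V) (φ : HInf V → ℂ) (hom : IsHom φ) (hφ : Distinguished φ)
    (hfib : φ (HInf.coord hb) = ζ) (γ : ℝ → ℂ) (hγc : ContinuousOn γ (Ico 0 1))
    (hγV : ∀ t ∈ Ico (0 : ℝ) 1, γ t ∈ V) (hγ : Tendsto γ (𝓝[<] 1) (𝓝 ζ)) (f : HInf V) (L : ℂ)
    (hf : Tendsto (fun t => f.ext (γ t)) (𝓝[<] 1) (𝓝 L)) : L = φ f := by
  have := DH.main V hV hb ζ hζ (toLin φ hom) (isHom_toLin φ hom) (distinguished_toLin φ hom hφ)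
    hfib γ hγc hγV hγ ⟨f.1, f.2⟩ L (by
      refine hf.congr fun t => ?_
      exact (extz_eq (⟨f.1, f.2⟩ : DH.Hinf V) (γ t)).symm)
  exact this

end DHS
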