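import Mathlib

open MeasureTheory Set Filter Topology

namespace DH

/-- `f` is a bounded analytic function on `V`. -/
def IsHinf (V : Set ℂ) (f : V → ℂ) : Prop :=
  (∃ F : ℂ → ℂ, DifferentiableOn ℂ F V ∧ ∀ z : V, F z = f z) ∧ ∃ B : ℝ, ∀ z, ‖f z‖ ≤ B

theorem IsHinf.mul {V : Set ℂ} {f g : V → ℂ} (hf : IsHinf V f) (hg : IsHinf V g) :
    IsHinf V (f * g) := by
  obtain ⟨⟨F, hF, hFf⟩, B, hB⟩ := hf
  obtain ⟨⟨G, hG, hGg⟩, B', hB'⟩ := hg
  refine ⟨⟨fun z => F z * G z, hF.mul hG, fun z => ?_⟩, |B| * |B'|, fun z => ?_⟩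
  · simp [hFf z, hGg z]
  · rw [Pi.mul_apply, norm_mul]
    exact mul_le_mul ((hB z).trans (le_abs_self B)) ((hB' z).trans (le_abs_self B'))
      (norm_nonneg _) (abs_nonneg _)

theorem IsHinf.add {V : Set ℂ} {f g : V → ℂ} (hf : IsHinf V f) (hg : IsHinf V g) :
    IsHinf V (f + g) := by
  obtain ⟨⟨F, hF, hFf⟩, B, hB⟩ := hf
  obtain ⟨⟨G, hG, hGg⟩, B', hB'⟩ := hg
  refine ⟨⟨fun z => F z + G z, hF.add hG, fun z => ?_⟩, B + B', fun z => ?_⟩
  · simp [hFf z, hGg z]
  · exact (norm_add_le _ _).trans (add_le_add (hB z) (hB' z))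

theorem IsHinf.const (V : Set ℂ) (c : ℂ) : IsHinf V (algebraMap ℂ (V → ℂ) c) := by
  refine ⟨⟨fun _ => c, differentiableOn_const c, fun z => rfl⟩, ‖c‖, fun z => ?_⟩
  simp [Pi.algebraMap_apply]

theorem IsHinf.coord {V : Set ℂ} (hb : Bornology.IsBounded V) : IsHinf V (fun z => (z : ℂ)) := by
  obtain ⟨R, hR⟩ := hb.exists_norm_le
  exact ⟨⟨fun z => z, differentiableOn_id, fun _ => rfl⟩, R, fun z => hR z z.2⟩

/-- `H^∞(V)`: bounded analytic functions on `V`, as a subalgebra of the functions `V → ℂ`. -/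
def Hinf (V : Set ℂ) : Subalgebra ℂ (V → ℂ) where
  carrier := {f | IsHinf V f}
  mul_mem' := IsHinf.mul
  add_mem' := IsHinf.add
  algebraMap_mem' := IsHinf.const V

/-- extension by zero of a function on `V` to the plane -/
noncomputable def extz (V : Set ℂ) (f : V → ℂ) (z : ℂ) : ℂ := by
  classical exact if h : z ∈ V then f ⟨z, h⟩ else 0

/-- The weak-star topology of `H^∞(V)` as a subspace of `L^∞(V, dx dy) = L¹(V, dx dy)^*`: the
coarsest topology for which all the functionals `f ↦ ∫_V f g dx dy`, `g ∈ L¹(V)`, are continuous. -/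
@[reducible] noncomputable def weakStar (V : Set ℂ) : TopologicalSpace (Hinf V) :=
  ⨅ g : {g : ℂ → ℂ // IntegrableOn g V}, TopologicalSpace.induced
    (fun f : Hinf V => ∫ z in V, extz V f.1 z * g.1 z) inferInstance

/-- the coordinate function, an element of `H^∞(V)` for bounded `V` -/
def coord (V : Set ℂ) (hb : Bornology.IsBounded V) : Hinf V :=
  ⟨fun z => z, IsHinf.coord hb⟩

/-- a point of the maximal ideal space: a nonzero multiplicative linear functional -/
structure IsHom {V : Set ℂ} (φ : Hinf V →ₗ[ℂ] ℂ) : Prop where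
  ne_zero : φ ≠ 0
  map_mul : ∀ f g, φ (f * g) = φ f * φ g

/-- distinguished = weak-star continuous -/
def Distinguished {V : Set ℂ} (φ : Hinf V →ₗ[ℂ] ℂ) : Prop :=
  @Continuous _ _ (weakStar V) inferInstance φ

end DH
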