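import Pool.Agent.H30.DH.Far

open MeasureTheory Set Filter Topology

namespace DH

variable {E : Type*} [NormedAddCommGroup E] [NormedSpace ℂ E]

/-- a good scale -/
def Good (k : ℂ → E) (δ : ℝ) (x : ℂ) (R : ℝ) : Prop := HH k x R ≤ 1 / 4 ∧ GG k x R ≤ δ

private theorem vol_closedBall (y : ℂ) {ρ : ℝ} (hρ : 0 ≤ ρ) :
    volume.real (Metric.closedBall y ρ) = Real.pi * ρ ^ 2 := by
  rw [Measure.real, Complex.volume_closedBall, ENNReal.toReal_mul, ENNReal.toReal_pow,
    ENNReal.toReal_ofReal hρ]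
  simp [mul_comm]

/-- the far field is almost constant -/
private theorem setIntegral_le_near {k : ℂ → E} (hk : Nice k) {x y : ℂ} {R s ρ : ℝ} (hρ : 0 ≤ ρ)
    (hs : ‖y - x‖ + ρ ≤ s) (hR : 2 * s ≤ R) (hR0 : 0 < R) :
    ∫ z in Metric.closedBall y ρ, ‖CT k z‖ ≤
      (∫ z in Metric.closedBall y ρ, ‖CT (near k x R) z‖) +
        (HH k x R + 2 * s / R * GG k x R) * (Real.pi * ρ ^ 2) := by
  have hs0 : 0 ≤ s := le_trans (add_nonneg (norm_nonneg _) hρ) hs
  have h1 := (setIntegral_norm_CT_le hk.integrable y hρ).1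
  have h2 := (setIntegral_norm_CT_le (nice_near hk x R).integrable y hρ).1
  have hfin : volume (Metric.closedBall y ρ) ≠ ⊤ := by
    rw [Complex.volume_closedBall]
    exact ENNReal.mul_ne_top (ENNReal.pow_ne_top ENNReal.ofReal_ne_top) ENNReal.coe_ne_top
  have h3 : IntegrableOn (fun _ : ℂ => HH k x R + 2 * s / R * GG k x R)
      (Metric.closedBall y ρ) := integrableOn_const hfin
  have h4 : ∫ z in Metric.closedBall y ρ, ‖CT k z‖ ≤ ∫ z in Metric.closedBall y ρ,
      (‖CT (near k x R) z‖ + (HH k x R + 2 * s / R * GG k x R)) := by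
    apply setIntegral_mono_on h1 (h2.add h3) Metric.isClosed_closedBall.measurableSet
    intro z hz
    rw [Metric.mem_closedBall, dist_eq_norm] at hz
    have hz' : ‖z - x‖ ≤ s := by
      calc ‖z - x‖ = ‖(z - y) + (y - x)‖ := by rw [sub_add_sub_cancel]
        _ ≤ ‖z - y‖ + ‖y - x‖ := norm_add_le _ _
        _ ≤ s := by linarith
    have h5 := norm_CT_far_sub_le hk hs0 hR hR0 hz'
    rw [← CT_near_add_far hk x R z]
    have h6 : ‖CT (far k x R) z‖ ≤ ‖CT (far k x R) x‖ + ‖CT (far k x R) z - CT (far k x R) x‖ := by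
      have := norm_add_le (CT (far k x R) x) (CT (far k x R) z - CT (far k x R) x)
      rwa [add_sub_cancel] at this
    have h7 := norm_add_le (CT (near k x R) z) (CT (far k x R) z)
    have h8 : HH k x R = ‖CT (far k x R) x‖ := rfl
    change _ ≤ ‖CT (near k x R) z‖ + (HH k x R + 2 * s / R * GG k x R)
    rw [h8]
    linarith
  refine h4.trans (le_of_eq ?_)
  have h5 : ∫ z in Metric.closedBall y ρ, (‖CT (near k x R) z‖ +
      (HH k x R + 2 * s / R * GG k x R)) = (∫ z in Metric.closedBall y ρ, ‖CT (near k x R) z‖) +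
      ∫ z in Metric.closedBall y ρ, (HH k x R + 2 * s / R * GG k x R) := integral_add h2 h3
  rw [h5, setIntegral_const, vol_closedBall y hρ, smul_eq_mul]
  ring

/-- the mass of a configuration is at least `ρ/3` -/
theorem Config.mass {ρ : ℝ} (hρ : 0 < ρ) {γ : ℝ → ℂ} {a b : ℝ} {k : ℂ → E}
    (hc : Config ρ γ a b k) : ρ / 3 ≤ ∫ w, ‖k w‖ := by
  have h1 := hc.large a (left_mem_Icc.2 hc.le)
  have h2 := (setIntegral_norm_CT_le hc.nice.integrable (γ a) hρ.le).2
  have h3 : Real.pi * ρ * ρ ≤ Real.pi * ρ * (3 * ∫ w, ‖k w‖) := by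
    calc Real.pi * ρ * ρ = Real.pi * ρ ^ 2 := by ring
      _ ≤ _ := h1
      _ ≤ _ := h2
      _ = _ := by ring
  have h4 := le_of_mul_le_mul_left h3 (by positivity)
  linarith

/-- stopping scales: a bad scale `r ≥ ρ` such that all scales `≥ 2 r` are good -/
theorem Config.exists_scale {ρ : ℝ} (hρ : 0 < ρ) {γ : ℝ → ℂ} {a b : ℝ} {k : ℂ → E}
    (hc : Config ρ γ a b k) {δ : ℝ} (hδ : 0 < δ) (hδ1 : δ ≤ 1 / 100) {t : ℝ} (ht : t ∈ Icc a b) :
    ∃ r : ℝ, ρ ≤ r ∧ r ≤ (∫ w, ‖k w‖) / δ ∧ ¬ Good k δ (γ t) r ∧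
      ∀ R, 2 * r ≤ R → Good k δ (γ t) R := by
  set m := ∫ w, ‖k w‖ with hm
  have hm0 : 0 < m := lt_of_lt_of_le (by positivity) (hc.mass hρ)
  have hgood : ∀ R, m / δ ≤ R → Good k δ (γ t) R := by
    intro R hR
    have hR0 : 0 < R := lt_of_lt_of_le (by positivity) hR
    have h1 : m / R ≤ δ := by
      rw [div_le_iff₀ hR0]
      rw [div_le_iff₀ hδ] at hR
      linarith
    exact ⟨(HH_le hc.nice (γ t) hR0).trans (by linarith), (GG_le hc.nice (γ t) hR0).trans h1⟩
  -- there is a bad scale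
  have hbad : ∃ R, ρ ≤ R ∧ ¬ Good k δ (γ t) R := by
    by_contra hcon
    push Not at hcon
    have hg := hcon (4 * ρ) (by linarith)
    have h1 := setIntegral_le_near hc.nice (x := γ t) (y := γ t) (R := 4 * ρ) (s := ρ) hρ.le
      (by simp) (by linarith) (by linarith)
    have h2 := (setIntegral_norm_CT_le (nice_near hc.nice (γ t) (4 * ρ)).integrable (γ t) hρ.le).2
    have h3 := mass_near_le hc.nice (γ t) (R := 4 * ρ) (by linarith)
    have h4 := hc.large t ht
    have h5 : (2 * ρ / (4 * ρ) : ℝ) = 1 / 2 := by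
      field_simp
      norm_num
    rw [h5] at h1
    have hg1 := hg.1
    have hg2 := hg.2
    have hGn := GG_nonneg k (γ t) (R := 4 * ρ) (by linarith)
    have hπ : 0 < Real.pi * ρ ^ 2 := by positivity
    have h6 : 3 * Real.pi * ρ * ∫ w, ‖near k (γ t) (4 * ρ) w‖ ≤
        12 * δ * (Real.pi * ρ ^ 2) := by
      calc 3 * Real.pi * ρ * ∫ w, ‖near k (γ t) (4 * ρ) w‖
          ≤ 3 * Real.pi * ρ * (4 * ρ * GG k (γ t) (4 * ρ)) := by
            apply mul_le_mul_of_nonneg_left h3 (by positivity)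
        _ ≤ 3 * Real.pi * ρ * (4 * ρ * δ) := by
            apply mul_le_mul_of_nonneg_left _ (by positivity)
            apply mul_le_mul_of_nonneg_left hg2 (by positivity)
        _ = _ := by ring
    have h7 : (HH k (γ t) (4 * ρ) + 1 / 2 * GG k (γ t) (4 * ρ)) * (Real.pi * ρ ^ 2) ≤
        (1 / 4 + 1 / 2 * δ) * (Real.pi * ρ ^ 2) := by
      apply mul_le_mul_of_nonneg_right _ hπ.le
      linarith
    have h8 : Real.pi * ρ ^ 2 ≤ (12 * δ + (1 / 4 + 1 / 2 * δ)) * (Real.pi * ρ ^ 2) := by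
      rw [add_mul]
      linarith
    have h9 : 1 ≤ 12 * δ + (1 / 4 + 1 / 2 * δ) := by
      by_contra hlt
      push Not at hlt
      have := mul_lt_mul_of_pos_right hlt hπ
      linarith
    linarith
  -- the supremum of the bad scales
  set S : Set ℝ := {R | ρ ≤ R ∧ ¬ Good k δ (γ t) R} with hS
  have hSne : S.Nonempty := hbad
  have hSbdd : BddAbove S := ⟨m / δ, fun R hR => by
    by_contra hlt
    push Not at hlt
    exact hR.2 (hgood R hlt.le)⟩
  have hsup : ρ ≤ sSup S := by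
    obtain ⟨R, hR⟩ := hSne
    exact hR.1.trans (le_csSup hSbdd hR)
  obtain ⟨r, hrS, hr⟩ := exists_lt_of_lt_csSup hSne (show sSup S / 2 < sSup S by linarith)
  refine ⟨r, hrS.1, ?_, hrS.2, ?_⟩
  · by_contra hlt
    push Not at hlt
    exact hrS.2 (hgood r hlt.le)
  · intro R hR
    by_contra hb
    have h1 : R ∈ S := ⟨by linarith [hrS.1], hb⟩
    have h2 := le_csSup hSbdd h1
    linarith

/-- the near field of a configuration is a configuration on the parts of the path that stay close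
to the centre -/
private theorem Config.sub {ρ : ℝ} (hρ : 0 < ρ) {γ : ℝ → ℂ} {a b : ℝ} {k : ℂ → E}
    (hc : Config ρ γ a b k) {δ : ℝ} (hδ1 : δ ≤ 1 / 100) {x : ℂ} {r : ℝ} (hr : ρ ≤ r)
    (hgood : ∀ R, 2 * r ≤ R → Good k δ x R) {a' b' : ℝ} (ha : a ≤ a') (hab : a' ≤ b')
    (hb : b' ≤ b) (hclose : ∀ s ∈ Icc a' b', ‖γ s - x‖ ≤ 2 * r) :
    Config ρ γ a' b' (fun w => (2 : ℂ) • near k x (8 * r) w) := by
  have hr0 : 0 < r := lt_of_lt_of_le hρ hr
  refine ⟨(nice_near hc.nice x (8 * r)).const_smul 2, hab, hc.cont, ?_⟩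
  intro s hs
  have h1 := setIntegral_le_near hc.nice (x := x) (y := γ s) (R := 8 * r) (s := 3 * r) hρ.le
    (by linarith [hclose s hs]) (by linarith) (by linarith)
  have h2 := hc.large s ⟨ha.trans hs.1, hs.2.trans hb⟩
  have hg := hgood (8 * r) (by linarith)
  have h5 : (2 * (3 * r) / (8 * r) : ℝ) = 3 / 4 := by
    field_simp
    norm_num
  rw [h5] at h1
  have hπ : 0 < Real.pi * ρ ^ 2 := by positivity
  have h6 : (HH k x (8 * r) + 3 / 4 * GG k x (8 * r)) * (Real.pi * ρ ^ 2) ≤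
      (1 / 2) * (Real.pi * ρ ^ 2) := by
    apply mul_le_mul_of_nonneg_right _ hπ.le
    have := hg.1
    have := hg.2
    linarith
  have h7 : ∀ z, ‖CT (fun w => (2 : ℂ) • near k x (8 * r) w) z‖ =
      2 * ‖CT (near k x (8 * r)) z‖ := by
    intro z
    rw [CT_smul, norm_smul]
    norm_num
  simp only [h7]
  rw [integral_const_mul]
  linarith

/-- local lower bound for the mass, by a sub-configuration -/
theorem Config.local_mass {ρ D Λ : ℝ} (hρ : 0 < ρ) (hPP : PP E ρ D Λ) {γ : ℝ → ℂ} {a b : ℝ}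
    {k : ℂ → E} (hc : Config ρ γ a b k) (hD : ‖γ b - γ a‖ ≤ D) {δ : ℝ} (hδ : 0 < δ)
    (hδ1 : δ ≤ 1 / 100) {t : ℝ} (ht : t ∈ Icc a b) {r : ℝ} (hr : ρ ≤ r)
    (hr4 : 4 * r ≤ ‖γ b - γ a‖) (hgood : ∀ R, 2 * r ≤ R → Good k δ (γ t) R) :
    r ≤ Λ * ∫ w, ‖near k (γ t) (8 * r) w‖ := by
  have hr0 : 0 < r := lt_of_lt_of_le hρ hr
  have hint : ∫ w, ‖(2 : ℂ) • near k (γ t) (8 * r) w‖ = 2 * ∫ w, ‖near k (γ t) (8 * r) w‖ := by
    rw [← integral_const_mul]
    congr 1
    funext w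
    rw [norm_smul]
    norm_num
  have hcont : Continuous fun s => ‖γ s - γ t‖ := (hc.cont.sub continuous_const).norm
  have hends : 2 * r ≤ ‖γ b - γ t‖ ∨ 2 * r ≤ ‖γ a - γ t‖ := by
    by_contra hcon
    push Not at hcon
    have h1 : ‖γ b - γ a‖ ≤ ‖γ b - γ t‖ + ‖γ a - γ t‖ := by
      calc ‖γ b - γ a‖ = ‖(γ b - γ t) - (γ a - γ t)‖ := by rw [sub_sub_sub_cancel_right]
        _ ≤ _ := norm_sub_le _ _
    linarith
  rcases hends with hend | hend
  · -- the first exit time after `t`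
    have hK : IsCompact (Icc t b ∩ {s | 2 * r ≤ ‖γ s - γ t‖}) :=
      isCompact_Icc.inter_right (isClosed_le continuous_const hcont)
    obtain ⟨b', hb', hleast⟩ := hK.exists_isLeast ⟨b, right_mem_Icc.2 ht.2, hend⟩
    have htb : t < b' := by
      refine lt_of_le_of_ne hb'.1.1 ?_
      rintro rfl
      have := hb'.2
      simp only [mem_ofPred_eq, sub_self, norm_zero] at this
      linarith
    have hlt : ∀ s ∈ Ico t b', ‖γ s - γ t‖ < 2 * r := by
      intro s hs
      by_contra hcon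
      push Not at hcon
      have := hleast ⟨⟨hs.1, (hs.2.le).trans hb'.1.2⟩, hcon⟩
      linarith [hs.2]
    have hle : ∀ s ∈ Icc t b', ‖γ s - γ t‖ ≤ 2 * r := by
      have h1 : closure (Ico t b') = Icc t b' := closure_Ico htb.ne
      intro s hs
      rw [← h1] at hs
      exact closure_minimal (fun u hu => (hlt u hu).le) (isClosed_le hcont continuous_const) hs
    have hsub := hc.sub hρ hδ1 hr hgood ht.1 htb.le hb'.1.2 hle
    have h2 := hPP γ t b' _ hsub ((hle b' (right_mem_Icc.2 htb.le)).trans (by linarith))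
    rw [hint] at h2
    have h3 : 2 * r ≤ ‖γ b' - γ t‖ := hb'.2
    linarith
  · have hK : IsCompact (Icc a t ∩ {s | 2 * r ≤ ‖γ s - γ t‖}) :=
      isCompact_Icc.inter_right (isClosed_le continuous_const hcont)
    obtain ⟨a', ha', hgreat⟩ := hK.exists_isGreatest ⟨a, left_mem_Icc.2 ht.1, hend⟩
    have hat : a' < t := by
      refine lt_of_le_of_ne ha'.1.2 ?_
      rintro rfl
      have := ha'.2
      simp only [mem_ofPred_eq, sub_self, norm_zero] at this
      linarith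
    have hlt : ∀ s ∈ Ioc a' t, ‖γ s - γ t‖ < 2 * r := by
      intro s hs
      by_contra hcon
      push Not at hcon
      have := hgreat ⟨⟨ha'.1.1.trans hs.1.le, hs.2⟩, hcon⟩
      linarith [hs.1]
    have hle : ∀ s ∈ Icc a' t, ‖γ s - γ t‖ ≤ 2 * r := by
      have h1 : closure (Ioc a' t) = Icc a' t := closure_Ioc hat.ne
      intro s hs
      rw [← h1] at hs
      exact closure_minimal (fun u hu => (hlt u hu).le) (isClosed_le hcont continuous_const) hs
    have hsub := hc.sub hρ hδ1 hr hgood ha'.1.1 hat.le ht.2 hle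
    have h2 := hPP γ a' t _ hsub (by
      rw [norm_sub_rev]
      exact (hle a' (left_mem_Icc.2 hat.le)).trans (by linarith))
    rw [hint, norm_sub_rev] at h2
    have h3 : 2 * r ≤ ‖γ a' - γ t‖ := ha'.2
    linarith

end DH
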