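import Pool.Agent.H30.DH.UInt

open MeasureTheory Set Filter Topology
open scoped ComplexConjugate

namespace DH

/-- maximum principle -/
theorem U_le_of_le_on {ρ : ℂ → ℝ} (hρ : Nice ρ) {K : Set ℂ} (hK : IsClosed K)
    (h0 : ∀ z ∉ K, ρ z = 0) {l : ℝ} (hl : 0 < l) (hU : ∀ z ∈ K, U ρ z ≤ l) (z : ℂ) :
    U ρ z ≤ l := by
  classical
  by_cases hz : z ∈ K
  · exact hU z hz
  set h : ℂ → ℂ := CT (fun w => (ρ w : ℂ)) with hh
  have hc : Continuous h := hρ.ofReal.continuous_CT
  have hfn : Nice (fun w => conj (h w) * (ρ w : ℂ)) :=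
    hρ.ofReal.continuous_mul (Complex.continuous_conj.comp hc)
  set B : ℂ → ℂ := CT (fun w => conj (h w) * (ρ w : ℂ)) with hB
  have hBc : Continuous B := hfn.continuous_CT
  have hhd : DifferentiableOn ℂ h Kᶜ :=
    hρ.ofReal.differentiableOn_CT hK (fun w hw => by simp [h0 w hw])
  have hBd : DifferentiableOn ℂ B Kᶜ :=
    hfn.differentiableOn_CT hK (fun w hw => by simp [h0 w hw])
  have hht : Tendsto h (cocompact ℂ) (𝓝 0) := hρ.ofReal.tendsto_CT
  have hBt : Tendsto B (cocompact ℂ) (𝓝 0) := hfn.tendsto_CT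
  set A : ℂ → ℂ := fun w => 4 * conj (h z) * h w - 2 * ((‖h z‖ ^ 2 : ℝ) : ℂ) - 4 * B w with hA
  have hAc : Continuous A := ((continuous_const.mul hc).sub continuous_const).sub
    (continuous_const.mul hBc)
  have hAd : DifferentiableOn ℂ A Kᶜ := by
    refine DifferentiableOn.sub (DifferentiableOn.sub ?_ ?_) ?_
    · exact (differentiableOn_const _).mul hhd
    · exact differentiableOn_const _
    · exact (differentiableOn_const _).mul hBd
  have hAt : Tendsto A (cocompact ℂ) (𝓝 (-2 * ((‖h z‖ ^ 2 : ℝ) : ℂ))) := by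
    have : Tendsto A (cocompact ℂ) (𝓝 (4 * conj (h z) * 0 - 2 * ((‖h z‖ ^ 2 : ℝ) : ℂ) - 4 * 0)) :=
      ((tendsto_const_nhds.mul hht).sub tendsto_const_nhds).sub (tendsto_const_nhds.mul hBt)
    simpa using this
  have hre : ∀ w, (A w).re ≤ U ρ w ∧ (w = z → (A w).re = U ρ w) := by
    intro w
    have e1 : U ρ w = 2 * ‖h w‖ ^ 2 - 4 * (B w).re := rfl
    have e2 : (A w).re = 4 * (conj (h z) * h w).re - 2 * ‖h z‖ ^ 2 - 4 * (B w).re := by
      simp only [hA, Complex.sub_re, Complex.mul_re, mul_assoc]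
      simp only [Complex.re_ofNat, Complex.im_ofNat, Complex.ofReal_re, Complex.ofReal_im]
      ring
    have e3 : ‖h w - h z‖ ^ 2 = ‖h w‖ ^ 2 + ‖h z‖ ^ 2 - 2 * (conj (h z) * h w).re := by
      rw [← Complex.normSq_eq_norm_sq, Complex.normSq_sub, Complex.normSq_eq_norm_sq,
        Complex.normSq_eq_norm_sq, mul_comm (h w)]
    constructor
    · have := sq_nonneg ‖h w - h z‖
      rw [e1, e2]
      nlinarith
    · intro hw
      subst hw
      rw [sub_self, norm_zero] at e3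
      rw [e1, e2]
      nlinarith
  -- large radius
  have hlt : (-2 * ((‖h z‖ ^ 2 : ℝ) : ℂ)).re < l := by
    have : (-2 * ((‖h z‖ ^ 2 : ℝ) : ℂ)).re = -2 * ‖h z‖ ^ 2 := by
      rw [show (-2 : ℂ) = ((-2 : ℝ) : ℂ) by push_cast; ring, ← Complex.ofReal_mul,
        Complex.ofReal_re]
    rw [this]
    nlinarith [sq_nonneg ‖h z‖]
  have hev : ∀ᶠ w in cocompact ℂ, (A w).re ≤ l := by
    have := (Complex.continuous_re.tendsto _).comp hAt
    exact (this.eventually (gt_mem_nhds hlt)).mono fun w hw => le_of_lt hw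
  obtain ⟨R0, -, hR0⟩ : ∃ R0 : ℝ, True ∧ ∀ w, R0 < ‖w‖ → (A w).re ≤ l := by
    rw [← Metric.cobounded_eq_cocompact, Filter.HasBasis.eventually_iff
      (Metric.hasBasis_cobounded_compl_closedBall (0:ℂ))] at hev
    obtain ⟨R0, -, h⟩ := hev
    refine ⟨R0, trivial, fun w hw => h ?_⟩
    simpa using hw
  set R : ℝ := max R0 ‖z‖ + 1 with hR
  set D : Set ℂ := Metric.ball 0 R ∩ Kᶜ with hD
  have hDo : IsOpen D := Metric.isOpen_ball.inter hK.isOpen_compl
  have hDb : Bornology.IsBounded D := Metric.isBounded_ball.subset inter_subset_left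
  have hzD : z ∈ D := by
    refine ⟨?_, hz⟩
    rw [mem_ball_zero_iff]
    have := le_max_right R0 ‖z‖
    linarith
  have hdc : DiffContOnCl ℂ (fun w => Complex.exp (A w)) D :=
    ⟨(hAd.mono inter_subset_right).cexp, (hAc.cexp).continuousOn⟩
  have hfr : ∀ w ∈ frontier D, ‖Complex.exp (A w)‖ ≤ Real.exp l := by
    intro w hw
    rw [Complex.norm_exp, Real.exp_le_exp]
    rw [frontier, hDo.interior_eq] at hw
    by_cases hwK : w ∈ K
    · exact (hre w).1.trans (hU w hwK)
    · have : w ∉ Metric.ball (0:ℂ) R := fun h => hw.2 ⟨h, hwK⟩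
      apply hR0
      rw [mem_ball_zero_iff, not_lt] at this
      have := le_max_left R0 ‖z‖
      linarith
  have hfin := Complex.norm_le_of_forall_mem_frontier_norm_le hDb hdc hfr (subset_closure hzD)
  rw [Complex.norm_exp, Real.exp_le_exp, (hre z).2 rfl] at hfin
  exact hfin

end DH
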