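import Pool.Agent.H30.DH.Defs

open MeasureTheory Set Filter Topology
open scoped ComplexConjugate

namespace DH

section inv

theorem lintegral_inv_zero {r : ℝ} (hr : 0 ≤ r) :
    ∫⁻ w in Metric.closedBall (0 : ℂ) r, ENNReal.ofReal (‖w‖⁻¹) = ENNReal.ofReal (2 * Real.pi * r) := by
  rw [← lintegral_indicator Metric.isClosed_closedBall.measurableSet]
  rw [← Complex.lintegral_comp_polarCoord_symm]
  have h1 : ∀ p ∈ polarCoord.target, ENNReal.ofReal p.1 •
      (Metric.closedBall (0 : ℂ) r).indicator (fun w => ENNReal.ofReal (‖w‖⁻¹))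
        (Complex.polarCoord.symm p) = (Set.Ioc 0 r).indicator (fun _ => (1 : ENNReal)) p.1 := by
    intro p hp
    have hp1 : 0 < p.1 := by
      rw [polarCoord_target] at hp
      exact hp.1
    have hnorm : ‖Complex.polarCoord.symm p‖ = p.1 := by
      rw [Complex.norm_polarCoord_symm, abs_of_pos hp1]
    by_cases hpr : p.1 ≤ r
    · have h1 : Complex.polarCoord.symm p ∈ Metric.closedBall (0 : ℂ) r := by
        rw [Metric.mem_closedBall, dist_zero_right, hnorm]; exact hpr
      have h2 : p.1 ∈ Set.Ioc 0 r := ⟨hp1, hpr⟩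
      rw [Set.indicator_of_mem h1, Set.indicator_of_mem h2, hnorm,
        smul_eq_mul, ← ENNReal.ofReal_mul hp1.le, mul_inv_cancel₀ hp1.ne', ENNReal.ofReal_one]
    · have h1 : Complex.polarCoord.symm p ∉ Metric.closedBall (0 : ℂ) r := by
        rw [Metric.mem_closedBall, dist_zero_right, hnorm]; exact hpr
      have h2 : p.1 ∉ Set.Ioc 0 r := fun h => hpr h.2
      rw [Set.indicator_of_notMem h1, Set.indicator_of_notMem h2, smul_zero]
  rw [setLIntegral_congr_fun (polarCoord.open_target.measurableSet) h1]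
  rw [polarCoord_target, Measure.volume_eq_prod, ← Measure.prod_restrict]
  rw [lintegral_prod _ (by
    apply Measurable.aemeasurable
    exact (measurable_const.indicator measurableSet_Ioc).comp measurable_fst)]
  simp only [lintegral_const, Measure.restrict_apply MeasurableSet.univ, Set.univ_inter,
    Real.volume_Ioo]
  rw [lintegral_mul_const _ (measurable_const.indicator measurableSet_Ioc)]
  rw [lintegral_indicator measurableSet_Ioc, lintegral_one, Measure.restrict_restrict measurableSet_Ioc,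
    Measure.restrict_apply MeasurableSet.univ, Set.univ_inter]
  have h2 : Set.Ioc 0 r ∩ Set.Ioi 0 = Set.Ioc 0 r := by
    ext x; simp
  rw [h2, Real.volume_Ioc, ← ENNReal.ofReal_mul (by linarith)]
  congr 1
  ring

theorem lintegral_inv_self (z : ℂ) {r : ℝ} (hr : 0 ≤ r) :
    ∫⁻ w in Metric.closedBall z r, ENNReal.ofReal (‖w - z‖⁻¹) = ENNReal.ofReal (2 * Real.pi * r) := by
  rw [← lintegral_inv_zero hr, ← lintegral_indicator Metric.isClosed_closedBall.measurableSet,
    ← lintegral_indicator Metric.isClosed_closedBall.measurableSet]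
  rw [← lintegral_add_right_eq_self _ z]
  congr 1
  ext w
  by_cases hw : w ∈ Metric.closedBall (0 : ℂ) r
  · rw [Set.indicator_of_mem hw, Set.indicator_of_mem]
    · simp
    · simpa [dist_eq_norm] using hw
  · rw [Set.indicator_of_notMem hw, Set.indicator_of_notMem]
    · intro h; apply hw; simpa [dist_eq_norm] using h

theorem integrableOn_inv_self (z : ℂ) (r : ℝ) :
    IntegrableOn (fun w => ‖w - z‖⁻¹) (Metric.closedBall z r) := by
  refine ⟨(by fun_prop : Measurable fun w : ℂ => ‖w - z‖⁻¹).aestronglyMeasurable, ?_⟩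
  rw [hasFiniteIntegral_iff_ofReal (Filter.Eventually.of_forall fun w => by positivity)]
  rcases le_total 0 r with hr | hr
  · rw [lintegral_inv_self z hr]; exact ENNReal.ofReal_lt_top
  · calc ∫⁻ w in Metric.closedBall z r, ENNReal.ofReal (‖w - z‖⁻¹)
        ≤ ∫⁻ w in Metric.closedBall z 0, ENNReal.ofReal (‖w - z‖⁻¹) :=
          lintegral_mono_set (Metric.closedBall_subset_closedBall hr)
      _ < ⊤ := by rw [lintegral_inv_self z le_rfl]; exact ENNReal.ofReal_lt_top

theorem integrableOn_inv_closedBall (x z : ℂ) (r : ℝ) :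
    IntegrableOn (fun w => ‖w - z‖⁻¹) (Metric.closedBall x r) := by
  apply (integrableOn_inv_self z (|r| + dist x z)).mono_set
  apply Metric.closedBall_subset_closedBall'
  have := le_abs_self r
  linarith

theorem setIntegral_inv_self (z : ℂ) {r : ℝ} (hr : 0 ≤ r) :
    ∫ w in Metric.closedBall z r, ‖w - z‖⁻¹ = 2 * Real.pi * r := by
  rw [integral_eq_lintegral_of_nonneg_ae (Filter.Eventually.of_forall fun w => by positivity)
    (by fun_prop : Measurable fun w : ℂ => ‖w - z‖⁻¹).aestronglyMeasurable, lintegral_inv_self z hr,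
    ENNReal.toReal_ofReal (by positivity)]

theorem setIntegral_inv_closedBall_le (x z : ℂ) {r : ℝ} (hr : 0 ≤ r) :
    ∫ w in Metric.closedBall x r, ‖w - z‖⁻¹ ≤ 3 * Real.pi * r := by
  rcases hr.eq_or_lt with rfl | hr'
  · simp
  have hm : MeasurableSet (Metric.closedBall z r) := Metric.isClosed_closedBall.measurableSet
  rw [← integral_inter_add_sdiff hm (integrableOn_inv_closedBall x z r)]
  have h1 : ∫ w in Metric.closedBall x r ∩ Metric.closedBall z r, ‖w - z‖⁻¹ ≤ 2 * Real.pi * r := by
    rw [← setIntegral_inv_self z hr]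
    apply setIntegral_mono_set (integrableOn_inv_closedBall z z r)
    · exact Filter.Eventually.of_forall fun w => by positivity
    · exact Set.inter_subset_right.eventuallyLE
  have h2 : ∫ w in Metric.closedBall x r \ Metric.closedBall z r, ‖w - z‖⁻¹ ≤ Real.pi * r := by
    have hvol : volume.real (Metric.closedBall x r \ Metric.closedBall z r) ≤ Real.pi * r ^ 2 := by
      calc volume.real (Metric.closedBall x r \ Metric.closedBall z r)
          ≤ volume.real (Metric.closedBall x r) :=
            measureReal_mono Set.sdiff_subset (measure_closedBall_lt_top).ne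
        _ = Real.pi * r ^ 2 := by
          rw [Measure.real, Complex.volume_closedBall]
          rw [ENNReal.toReal_mul, ENNReal.toReal_pow, ENNReal.toReal_ofReal hr]
          simp [mul_comm]
    calc ∫ w in Metric.closedBall x r \ Metric.closedBall z r, ‖w - z‖⁻¹
        ≤ ∫ w in Metric.closedBall x r \ Metric.closedBall z r, r⁻¹ := by
          apply setIntegral_mono_on
          · exact (integrableOn_inv_closedBall x z r).mono_set Set.sdiff_subset
          · exact integrableOn_const
              ((measure_mono Set.sdiff_subset).trans_lt measure_closedBall_lt_top).ne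
          · exact (Metric.isClosed_closedBall.measurableSet).diff hm
          · intro w hw
            have : r < ‖w - z‖ := by
              have := hw.2
              rw [Metric.mem_closedBall, dist_eq_norm, not_le] at this
              exact this
            exact inv_anti₀ hr' this.le
      _ = volume.real (Metric.closedBall x r \ Metric.closedBall z r) * r⁻¹ := by
          rw [setIntegral_const, smul_eq_mul]
      _ ≤ Real.pi * r ^ 2 * r⁻¹ := mul_le_mul_of_nonneg_right hvol (by positivity)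
      _ = Real.pi * r := by field_simp
  linarith

end inv

variable {E : Type*} [NormedAddCommGroup E]

theorem Nice.integrable {f : ℂ → E} (hf : Nice f) : Integrable f := by
  obtain ⟨B, hB⟩ := hf.bdd
  obtain ⟨R, hR⟩ := hf.supp
  have h1 : IntegrableOn f (Metric.closedBall 0 R) :=
    Measure.integrableOn_of_bounded (M := B) measure_closedBall_lt_top.ne
      hf.meas.aestronglyMeasurable (Filter.Eventually.of_forall hB)
  rwa [integrableOn_iff_integrable_of_support_subset] at h1
  intro z hz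
  by_contra h
  rw [Metric.mem_closedBall, dist_zero_right, not_le] at h
  exact hz (hR z h)

theorem Nice.indicator {f : ℂ → E} (hf : Nice f) {s : Set ℂ} (hs : MeasurableSet s) :
    Nice (s.indicator f) := by
  obtain ⟨B, hB⟩ := hf.bdd
  obtain ⟨R, hR⟩ := hf.supp
  refine ⟨hf.meas.indicator hs, ⟨B, fun z => ?_⟩, ⟨R, fun z hz => ?_⟩⟩
  · exact (norm_indicator_le_norm_self f z).trans (hB z)
  · by_cases h : z ∈ s
    · rw [Set.indicator_of_mem h]; exact hR z hz
    · exact Set.indicator_of_notMem h f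

theorem Nice.add {f g : ℂ → E} (hf : Nice f) (hg : Nice g) : Nice (fun z => f z + g z) := by
  obtain ⟨B, hB⟩ := hf.bdd
  obtain ⟨R, hR⟩ := hf.supp
  obtain ⟨B', hB'⟩ := hg.bdd
  obtain ⟨R', hR'⟩ := hg.supp
  refine ⟨hf.meas.add hg.meas, ⟨B + B', fun z => (norm_add_le _ _).trans (add_le_add (hB z) (hB' z))⟩,
    ⟨max R R', fun z hz => ?_⟩⟩
  rw [hR z ((le_max_left _ _).trans_lt hz), hR' z ((le_max_right _ _).trans_lt hz), add_zero]

theorem Nice.const_smul [NormedSpace ℂ E] {f : ℂ → E} (hf : Nice f) (c : ℂ) :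
    Nice (fun z => c • f z) := by
  obtain ⟨B, hB⟩ := hf.bdd
  obtain ⟨R, hR⟩ := hf.supp
  refine ⟨hf.meas.const_smul c, ⟨‖c‖ * B, fun z => ?_⟩, ⟨R, fun z hz => by rw [hR z hz, smul_zero]⟩⟩
  rw [norm_smul]
  exact mul_le_mul_of_nonneg_left (hB z) (norm_nonneg c)

theorem Nice.norm {f : ℂ → E} (hf : Nice f) : Nice (fun z => ‖f z‖) := by
  obtain ⟨B, hB⟩ := hf.bdd
  obtain ⟨R, hR⟩ := hf.supp
  exact ⟨hf.meas.norm, ⟨B, fun z => by rw [norm_norm]; exact hB z⟩,
    ⟨R, fun z hz => by rw [hR z hz, norm_zero]⟩⟩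

theorem Nice.ofReal {ρ : ℂ → ℝ} (h : Nice ρ) : Nice (fun z => (ρ z : ℂ)) := by
  obtain ⟨B, hB⟩ := h.bdd
  obtain ⟨R, hR⟩ := h.supp
  exact ⟨Complex.continuous_ofReal.comp_stronglyMeasurable h.meas,
    ⟨B, fun z => by rw [Complex.norm_real]; exact hB z⟩,
    ⟨R, fun z hz => by rw [hR z hz, Complex.ofReal_zero]⟩⟩

theorem Nice.re {f : ℂ → ℂ} (h : Nice f) : Nice (fun z => (f z).re) := by
  obtain ⟨B, hB⟩ := h.bdd
  obtain ⟨R, hR⟩ := h.supp
  exact ⟨Complex.continuous_re.comp_stronglyMeasurable h.meas,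
    ⟨B, fun z => (Complex.abs_re_le_norm _).trans (hB z)⟩,
    ⟨R, fun z hz => by rw [hR z hz, Complex.zero_re]⟩⟩

theorem Nice.im {f : ℂ → ℂ} (h : Nice f) : Nice (fun z => (f z).im) := by
  obtain ⟨B, hB⟩ := h.bdd
  obtain ⟨R, hR⟩ := h.supp
  exact ⟨Complex.continuous_im.comp_stronglyMeasurable h.meas,
    ⟨B, fun z => (Complex.abs_im_le_norm _).trans (hB z)⟩,
    ⟨R, fun z hz => by rw [hR z hz, Complex.zero_im]⟩⟩

theorem Nice.posPart {ρ : ℂ → ℝ} (h : Nice ρ) : Nice (fun z => max (ρ z) 0) := by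
  obtain ⟨B, hB⟩ := h.bdd
  obtain ⟨R, hR⟩ := h.supp
  refine ⟨h.meas.sup stronglyMeasurable_const, ⟨B, fun z => ?_⟩,
    ⟨R, fun z hz => by rw [hR z hz, max_self]⟩⟩
  rw [Real.norm_of_nonneg (le_max_right _ _)]
  apply max_le
  · exact (le_abs_self _).trans (hB z)
  · exact (norm_nonneg _).trans (hB z)

theorem Nice.fst {f : ℂ → ℂ × ℂ} (h : Nice f) : Nice (fun z => (f z).1) := by
  obtain ⟨B, hB⟩ := h.bdd
  obtain ⟨R, hR⟩ := h.supp
  exact ⟨continuous_fst.comp_stronglyMeasurable h.meas,
    ⟨B, fun z => (norm_fst_le _).trans (hB z)⟩,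
    ⟨R, fun z hz => by rw [hR z hz, Prod.fst_zero]⟩⟩

theorem Nice.snd {f : ℂ → ℂ × ℂ} (h : Nice f) : Nice (fun z => (f z).2) := by
  obtain ⟨B, hB⟩ := h.bdd
  obtain ⟨R, hR⟩ := h.supp
  exact ⟨continuous_snd.comp_stronglyMeasurable h.meas,
    ⟨B, fun z => (norm_snd_le _).trans (hB z)⟩,
    ⟨R, fun z hz => by rw [hR z hz, Prod.snd_zero]⟩⟩

/-- a continuous function times a nice function is nice (the continuous function is bounded on the
support) -/
theorem Nice.continuous_mul {f : ℂ → ℂ} (hf : Nice f) {g : ℂ → ℂ} (hg : Continuous g) :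
    Nice (fun z => g z * f z) := by
  obtain ⟨B, hB⟩ := hf.bdd
  obtain ⟨R, hR⟩ := hf.supp
  obtain ⟨C, hC⟩ := (isCompact_closedBall (0 : ℂ) R).exists_bound_of_continuousOn hg.continuousOn
  refine ⟨hg.stronglyMeasurable.mul hf.meas, ⟨|C| * |B|, fun z => ?_⟩,
    ⟨R, fun z hz => by rw [hR z hz, mul_zero]⟩⟩
  rcases le_or_gt ‖z‖ R with h | h
  · rw [norm_mul]
    exact mul_le_mul ((hC z (by simpa using h)).trans (le_abs_self C)) ((hB z).trans (le_abs_self B))
      (norm_nonneg _) (abs_nonneg _)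
  · rw [hR z h, mul_zero, norm_zero]; positivity

theorem Nice.of_le {ρ ρ' : ℂ → ℝ} (h : Nice ρ) (hm : StronglyMeasurable ρ')
    (h0 : ∀ z, |ρ' z| ≤ ρ z) : Nice ρ' := by
  obtain ⟨B, hB⟩ := h.bdd
  obtain ⟨R, hR⟩ := h.supp
  refine ⟨hm, ⟨B, fun z => (h0 z).trans ((le_abs_self _).trans (hB z))⟩, ⟨R, fun z hz => ?_⟩⟩
  have := h0 z
  rw [hR z hz] at this
  exact abs_nonpos_iff.mp this

end DH
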