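import Pool.Agent.H30.DH.Hinf
import Pool.Agent.H30.DH.CauchyB

open MeasureTheory Set Filter Topology

namespace DH

private lemma extz_mem {V : Set ℂ} (f : V → ℂ) {z : ℂ} (hz : z ∈ V) : extz V f z = f ⟨z, hz⟩ := by
  unfold extz
  rw [dif_pos hz]

private lemma extz_meas {V : Set ℂ} (hV : IsOpen V) (f : Hinf V) :
    AEStronglyMeasurable (extz V f.1) (volume.restrict V) := by
  obtain ⟨⟨F, hF, hFf⟩, _⟩ := f.2
  have h1 : AEStronglyMeasurable F (volume.restrict V) :=
    hF.continuousOn.aestronglyMeasurable hV.measurableSet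
  apply h1.congr
  rw [Filter.EventuallyEq, ae_restrict_iff' hV.measurableSet]
  apply Filter.Eventually.of_forall
  intro z hz
  rw [extz_mem _ hz]
  exact hFf ⟨z, hz⟩

private lemma extz_bdd {V : Set ℂ} (f : Hinf V) : ∃ B : ℝ, ∀ z, ‖extz V f.1 z‖ ≤ B := by
  obtain ⟨_, B, hB⟩ := f.2
  refine ⟨max B 0, fun z => ?_⟩
  by_cases hz : z ∈ V
  · rw [extz_mem _ hz]
    exact (hB _).trans (le_max_left _ _)
  · unfold extz
    rw [dif_neg hz, norm_zero]
    exact le_max_right _ _

private lemma extz_mul_int {V : Set ℂ} (hV : IsOpen V) (f : Hinf V) {g : ℂ → ℂ}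
    (hg : IntegrableOn g V) : IntegrableOn (fun z => extz V f.1 z * g z) V := by
  obtain ⟨B, hB⟩ := extz_bdd f
  exact Integrable.bdd_mul (c := B) hg (extz_meas hV f) (Filter.Eventually.of_forall hB)

/-- the functional `f ↦ ∫_V f g`. -/
private noncomputable def LG {V : Set ℂ} (hV : IsOpen V) (g : {g : ℂ → ℂ // IntegrableOn g V}) :
    Hinf V →ₗ[ℂ] ℂ where
  toFun f := ∫ z in V, extz V f.1 z * g.1 z
  map_add' f f' := by
    rw [← integral_add (extz_mul_int hV f g.2) (extz_mul_int hV f' g.2)]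
    apply setIntegral_congr_fun hV.measurableSet
    intro z hz
    simp only
    rw [extz_mem _ hz, extz_mem _ hz, extz_mem _ hz]
    show (f.1 + f'.1) ⟨z, hz⟩ * g.1 z = _
    rw [Pi.add_apply, add_mul]
  map_smul' c f := by
    rw [RingHom.id_apply, smul_eq_mul, ← integral_const_mul]
    apply setIntegral_congr_fun hV.measurableSet
    intro z hz
    simp only
    rw [extz_mem _ hz, extz_mem _ hz]
    show (c • f.1) ⟨z, hz⟩ * g.1 z = _
    rw [Pi.smul_apply, smul_eq_mul, mul_assoc]

/-- a weak-star continuous functional is given by an `L¹` density -/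
theorem exists_density {V : Set ℂ} (hV : IsOpen V) (hb : Bornology.IsBounded V)
    (φ : Hinf V →ₗ[ℂ] ℂ) (hφ : Distinguished φ) :
    ∃ g : ℂ → ℂ, IntegrableOn g V ∧ ∀ f : Hinf V, φ f = ∫ z in V, extz V f.1 z * g z := by
  have h1 : φ ∈ Submodule.span ℂ (Set.range (LG hV)) := by
    rw [LinearMap.mem_span_iff_continuous]
    exact hφ
  clear hφ
  induction h1 using Submodule.span_induction with
  | mem x hx =>
    obtain ⟨g, rfl⟩ := hx
    exact ⟨g.1, g.2, fun f => rfl⟩
  | zero => exact ⟨0, integrableOn_zero, fun f => by simp⟩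
  | add x y hx hy ihx ihy =>
    obtain ⟨g, hg, h2⟩ := ihx
    obtain ⟨g', hg', h2'⟩ := ihy
    refine ⟨fun z => g z + g' z, hg.add hg', fun f => ?_⟩
    rw [LinearMap.add_apply, h2, h2',
      ← integral_add (extz_mul_int hV f hg) (extz_mul_int hV f hg')]
    simp_rw [mul_add]
  | smul c x hx ih =>
    obtain ⟨g, hg, h2⟩ := ih
    refine ⟨fun z => c * g z, Integrable.const_mul hg c, fun f => ?_⟩
    rw [LinearMap.smul_apply, h2, smul_eq_mul, ← integral_const_mul]
    congr 1
    ext z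
    ring

/-- the difference quotient as an element of `H^∞(V)`. -/
private lemma exists_quot {V : Set ℂ} (hV : IsOpen V) (f : Hinf V) {a : ℂ} (ha : a ∈ V) :
    ∃ q : Hinf V, ∀ z (hz : z ∈ V), (z - a) * q.1 ⟨z, hz⟩ = f.1 ⟨z, hz⟩ - f.1 ⟨a, ha⟩ := by
  obtain ⟨⟨F, hF, hFf⟩, B, hB⟩ := f.2
  have hVn : V ∈ 𝓝 a := hV.mem_nhds ha
  have hd : DifferentiableOn ℂ (dslope F a) V := (Complex.differentiableOn_dslope hVn).mpr hF
  have hbd : ∃ C : ℝ, ∀ z ∈ V, ‖dslope F a z‖ ≤ C := by
    obtain ⟨r, hr, hrV⟩ := Metric.nhds_basis_closedBall.mem_iff.mp hVn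
    have hc : ContinuousOn (dslope F a) (Metric.closedBall a r) := hd.continuousOn.mono hrV
    obtain ⟨C, hC⟩ := (isCompact_closedBall a r).exists_bound_of_continuousOn hc
    refine ⟨max C (2 * |B| / r), fun z hz => ?_⟩
    by_cases hzr : z ∈ Metric.closedBall a r
    · exact (hC z hzr).trans (le_max_left _ _)
    · refine le_trans ?_ (le_max_right _ _)
      rw [Metric.mem_closedBall, not_le, dist_eq_norm] at hzr
      have hza : z ≠ a := by
        rintro rfl
        rw [sub_self, norm_zero] at hzr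
        linarith
      rw [dslope_of_ne _ hza, slope_def_field, norm_div]
      have h1 : ‖F z - F a‖ ≤ 2 * |B| := by
        have e1 : F z = f.1 ⟨z, hz⟩ := hFf ⟨z, hz⟩
        have e2 : F a = f.1 ⟨a, ha⟩ := hFf ⟨a, ha⟩
        rw [e1, e2]
        have h2 := (hB ⟨z, hz⟩).trans (le_abs_self B)
        have h3 := (hB ⟨a, ha⟩).trans (le_abs_self B)
        calc ‖f.1 ⟨z, hz⟩ - f.1 ⟨a, ha⟩‖ ≤ ‖f.1 ⟨z, hz⟩‖ + ‖f.1 ⟨a, ha⟩‖ := norm_sub_le _ _
          _ ≤ 2 * |B| := by linarith
      exact div_le_div₀ (by positivity) h1 hr hzr.le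
  obtain ⟨C, hC⟩ := hbd
  refine ⟨⟨fun z => dslope F a z, ⟨dslope F a, hd, fun z => rfl⟩, C, fun z => hC z z.2⟩, ?_⟩
  intro z hz
  show (z - a) * dslope F a z = _
  have e1 : F z = f.1 ⟨z, hz⟩ := hFf ⟨z, hz⟩
  have e2 : F a = f.1 ⟨a, ha⟩ := hFf ⟨a, ha⟩
  rw [← e1, ← e2]
  have := sub_smul_dslope F a z
  rw [smul_eq_mul] at this
  exact this

/-- the identity `f(a)(1 - (ζ-a) C k(a)) = φ(f) - (ζ-a) C(f k)(a)` for almost every `a ∈ V`,
with `k` extended by zero -/
theorem exists_identity {V : Set ℂ} (hV : IsOpen V) (hb : Bornology.IsBounded V)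
    (φ : Hinf V →ₗ[ℂ] ℂ) (hφ : Distinguished φ) (hom : IsHom φ) {ζ : ℂ}
    (hζ : φ (coord V hb) = ζ) (f : Hinf V) :
    ∃ k : ℂ → ℂ × ℂ, Integrable k ∧ ∀ᵐ a : ℂ, a ∈ V →
      Integrable (fun w => (w - a)⁻¹ • k w) ∧
      extz V f.1 a * (1 - (ζ - a) * (CT k a).1) = φ f - (ζ - a) * (CT k a).2 := by
  obtain ⟨g, hg, hgφ⟩ := exists_density hV hb φ hφ
  have hfg := extz_mul_int hV f hg
  have hk : Integrable (V.indicator (fun w => (g w, extz V f.1 w * g w))) := by
    rw [integrable_indicator_iff hV.measurableSet]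
    exact Integrable.prodMk hg hfg
  refine ⟨_, hk, ?_⟩
  have h1 : φ 1 = 1 := by
    have h2 : ∃ f0, φ f0 ≠ 0 := by
      by_contra hcon
      push Not at hcon
      exact hom.ne_zero (LinearMap.ext hcon)
    obtain ⟨f0, hf0⟩ := h2
    have h3 := hom.map_mul f0 1
    rw [mul_one] at h3
    exact (mul_left_cancel₀ hf0 (by rw [mul_one]; exact h3)).symm
  filter_upwards [ae_integrable_cauchy hk] with a ha haV
  refine ⟨ha, ?_⟩
  obtain ⟨q, hq⟩ := exists_quot hV f haV
  have h2 : (coord V hb - algebraMap ℂ (Hinf V) a) * q =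
      f - algebraMap ℂ (Hinf V) (f.1 ⟨a, haV⟩) := by
    apply Subtype.ext
    funext z
    exact hq z.1 z.2
  have h3 : (ζ - a) * φ q = φ f - f.1 ⟨a, haV⟩ := by
    have h4 := congrArg φ h2
    rw [hom.map_mul, map_sub, map_sub, hζ, Algebra.algebraMap_eq_smul_one,
      Algebra.algebraMap_eq_smul_one, map_smul, map_smul, h1] at h4
    simpa using h4
  have h5 : φ q = (CT (V.indicator (fun w => (g w, extz V f.1 w * g w))) a).2 -
      f.1 ⟨a, haV⟩ * (CT (V.indicator (fun w => (g w, extz V f.1 w * g w))) a).1 := by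
    have e1 : (CT (V.indicator (fun w => (g w, extz V f.1 w * g w))) a).1 =
        ∫ w in V, (w - a)⁻¹ * g w := by
      unfold CT
      rw [fst_integral ha, ← integral_indicator hV.measurableSet]
      congr 1
      ext w
      by_cases hw : w ∈ V
      · rw [indicator_of_mem hw, indicator_of_mem hw]; rfl
      · rw [indicator_of_notMem hw, indicator_of_notMem hw]; simp
    have e2 : (CT (V.indicator (fun w => (g w, extz V f.1 w * g w))) a).2 =
        ∫ w in V, (w - a)⁻¹ * (extz V f.1 w * g w) := by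
      unfold CT
      rw [snd_integral ha, ← integral_indicator hV.measurableSet]
      congr 1
      ext w
      by_cases hw : w ∈ V
      · rw [indicator_of_mem hw, indicator_of_mem hw]; rfl
      · rw [indicator_of_notMem hw, indicator_of_notMem hw]; simp
    have i1 : IntegrableOn (fun w => (w - a)⁻¹ * g w) V := by
      have := ha.fst
      rw [← integrable_indicator_iff hV.measurableSet]
      refine this.congr (Filter.Eventually.of_forall fun w => ?_)
      by_cases hw : w ∈ V
      · simp only [indicator_of_mem hw]; rfl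
      · simp only [indicator_of_notMem hw]; simp
    have i2 : IntegrableOn (fun w => (w - a)⁻¹ * (extz V f.1 w * g w)) V := by
      have := ha.snd
      rw [← integrable_indicator_iff hV.measurableSet]
      refine this.congr (Filter.Eventually.of_forall fun w => ?_)
      by_cases hw : w ∈ V
      · simp only [indicator_of_mem hw]; rfl
      · simp only [indicator_of_notMem hw]; simp
    rw [e1, e2, hgφ, ← integral_const_mul, ← integral_sub i2 (i1.const_mul _)]
    apply setIntegral_congr_ae hV.measurableSet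
    have hne : ∀ᵐ w : ℂ, w ≠ a := by
      rw [ae_iff]
      simp
    filter_upwards [hne] with w hwa hwV
    have hwa' : w - a ≠ 0 := sub_ne_zero.mpr hwa
    rw [extz_mem _ hwV, extz_mem _ hwV]
    have h6 := hq w hwV
    have h7 : q.1 ⟨w, hwV⟩ = (w - a)⁻¹ * (f.1 ⟨w, hwV⟩ - f.1 ⟨a, haV⟩) := by
      rw [← h6]; field_simp
    rw [h7]
    ring
  rw [extz_mem _ haV]
  rw [h5] at h3
  linear_combination h3

end DH
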