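import Pool.Agent.H30.DH.CauchyB

open MeasureTheory Set Filter Topology
open scoped ComplexConjugate

namespace DH

private lemma nice_conj_mul {ρ : ℂ → ℝ} (hρ : Nice ρ) :
    Nice (fun w => conj (CT (fun v => (ρ v : ℂ)) w) * (ρ w : ℂ)) :=
  hρ.ofReal.continuous_mul (Complex.continuous_conj.comp hρ.ofReal.continuous_CT)

private lemma int_cont_mul {ρ : ℂ → ℂ} (hρ : Nice ρ) {g : ℂ → ℂ} (hg : Continuous g) :
    Integrable (fun z => g z * ρ z) := (hρ.continuous_mul hg).integrable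

theorem continuous_U {ρ : ℂ → ℝ} (hρ : Nice ρ) : Continuous (U ρ) := by
  have h1 : Continuous (CT (fun w => (ρ w : ℂ))) := hρ.ofReal.continuous_CT
  have h2 : Continuous (CT (fun w => conj (CT (fun v => (ρ v : ℂ)) w) * (ρ w : ℂ))) :=
    (nice_conj_mul hρ).continuous_CT
  unfold U
  exact (continuous_const.mul (h1.norm.pow 2)).sub
    (continuous_const.mul (Complex.continuous_re.comp h2))

theorem integral_U_mul_eq {ρ N : ℂ → ℝ} (hρ : Nice ρ) (hN : Nice N) :
    ∫ z, U ρ z * N z = 2 * (∫ z, ‖CT (fun w => (ρ w : ℂ)) z‖ ^ 2 * N z)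
      + 4 * (∫ z, (conj (CT (fun w => (ρ w : ℂ)) z) * (ρ z : ℂ)) *
          CT (fun w => (N w : ℂ)) z).re := by
  set h : ℂ → ℂ := CT (fun w => (ρ w : ℂ)) with hh
  have hc : Continuous h := hρ.ofReal.continuous_CT
  set f : ℂ → ℂ := fun w => conj (h w) * (ρ w : ℂ) with hf
  have hfn : Nice f := nice_conj_mul hρ
  have hfc : Continuous (CT f) := hfn.continuous_CT
  have key : ∫ z, CT f z * (N z : ℂ) = - ∫ z, f z * CT (fun w => (N w : ℂ)) z :=
    CT_antisymm hfn hN.ofReal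
  have hi1 : Integrable (fun z => CT f z * (N z : ℂ)) := int_cont_mul hN.ofReal hfc
  have hi2 : Integrable (fun z => ((‖h z‖ ^ 2 : ℝ) : ℂ) * (N z : ℂ)) :=
    int_cont_mul hN.ofReal (Complex.continuous_ofReal.comp (hc.norm.pow 2))
  have hi2' : Integrable (fun z => ‖h z‖ ^ 2 * N z) := by
    have := hi2.re
    refine this.congr (ae_of_all _ fun z => ?_)
    simp [← Complex.ofReal_pow]
  have hi1' : Integrable (fun z => (CT f z * (N z : ℂ)).re) := hi1.re
  have e1 : ∀ z, U ρ z * N z = 2 * (‖h z‖ ^ 2 * N z) - 4 * (CT f z * (N z : ℂ)).re := by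
    intro z
    rw [Complex.re_mul_ofReal]
    simp only [U, ← hh]
    ring
  have e2 : ∫ z, (CT f z * (N z : ℂ)).re = (∫ z, CT f z * (N z : ℂ)).re := by
    have := integral_re hi1
    simpa using this
  calc ∫ z, U ρ z * N z = ∫ z, (2 * (‖h z‖ ^ 2 * N z) - 4 * (CT f z * (N z : ℂ)).re) := by
        simp_rw [e1]
    _ = 2 * (∫ z, ‖h z‖ ^ 2 * N z) - 4 * ∫ z, (CT f z * (N z : ℂ)).re := by
        rw [integral_sub (hi2'.const_mul 2) (hi1'.const_mul 4), integral_const_mul,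
          integral_const_mul]
    _ = _ := by
        rw [e2, key]
        simp only [Complex.neg_re, hf]
        ring

theorem integral_U_mul_self {ρ : ℂ → ℝ} (hρ : Nice ρ) :
    ∫ z, U ρ z * ρ z = 6 * ∫ z, ‖CT (fun w => (ρ w : ℂ)) z‖ ^ 2 * ρ z := by
  rw [integral_U_mul_eq hρ hρ]
  set h : ℂ → ℂ := CT (fun w => (ρ w : ℂ)) with hh
  have e : ∀ z, (conj (h z) * (ρ z : ℂ)) * h z = ((‖h z‖ ^ 2 * ρ z : ℝ) : ℂ) := by
    intro z
    have : conj (h z) * h z = ((‖h z‖ ^ 2 : ℝ) : ℂ) := by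
      rw [mul_comm, Complex.mul_conj, Complex.normSq_eq_norm_sq]
    rw [mul_right_comm, this]
    push_cast
    ring
  simp_rw [e]
  rw [integral_complex_ofReal, Complex.ofReal_re]
  ring

end DH
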