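import Pool.Agent.H30.DH.Box
import Pool.Agent.H30.DH.MaxPrin

open MeasureTheory Set Filter Topology
open scoped ComplexConjugate

namespace DH

theorem weakPos_indicator {ρ : ℂ → ℝ} (h : Nice ρ) {s : Set ℂ} (hs : MeasurableSet s) :
    Nice (s.indicator ρ) := by
  refine ⟨h.meas.indicator hs, ?_, ?_⟩
  · obtain ⟨B, hB⟩ := h.bdd
    exact ⟨B, fun z => (norm_indicator_le_norm_self _ _).trans (hB z)⟩
  · obtain ⟨R, hR⟩ := h.supp
    refine ⟨R, fun z hz => ?_⟩
    by_cases hzs : z ∈ s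
    · rw [indicator_of_mem hzs, hR z hz]
    · rw [indicator_of_notMem hzs]

theorem weakPos_integrable {ρ : ℂ → ℝ} (h : Nice ρ) : Integrable ρ := by
  have h1 := h.ofReal.integrable.re
  simpa using h1

theorem weakPos_net : ∃ s : Finset ℂ, (∀ X ∈ s, 1 ≤ ‖X‖) ∧
    ∀ X : ℂ, 1 ≤ ‖X‖ → ‖X‖ ≤ 2 → ∃ X₀ ∈ s, ‖X - X₀‖ ≤ ‖X₀‖ / 2 := by
  have hcomp : IsCompact (Metric.closedBall (0 : ℂ) 2 \ Metric.ball (0 : ℂ) 1) :=
    (isCompact_closedBall (0 : ℂ) 2).diff Metric.isOpen_ball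
  obtain ⟨s, hs, hcov⟩ := hcomp.elim_nhds_subcover (fun X : ℂ => Metric.ball X (1 / 2))
    (fun X _ => Metric.ball_mem_nhds X (by norm_num))
  refine ⟨s, fun X hX => ?_, fun X h1 h2 => ?_⟩
  · have := (hs X hX).2
    rw [mem_ball_zero_iff, not_lt] at this
    exact this
  · have hXmem : X ∈ Metric.closedBall (0 : ℂ) 2 \ Metric.ball (0 : ℂ) 1 := by
      refine ⟨?_, ?_⟩
      · rw [mem_closedBall_zero_iff]; exact h2
      · rw [mem_ball_zero_iff, not_lt]; exact h1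
    have h3 := hcov hXmem
    rw [mem_iUnion₂] at h3
    obtain ⟨X₀, hX₀, hd⟩ := h3
    refine ⟨X₀, hX₀, ?_⟩
    rw [Metric.mem_ball, dist_eq_norm] at hd
    have h4 : (1 : ℝ) ≤ ‖X₀‖ := by
      have := (hs X₀ hX₀).2
      rw [mem_ball_zero_iff, not_lt] at this
      exact this
    linarith

theorem weakPos_box {ρ : ℂ → ℝ} (hρ : Nice ρ) (h0 : ∀ z, 0 ≤ ρ z)
    {F : Set ℂ} (hF : IsClosed F) (hF0 : ∀ z ∉ F, ρ z = 0) {l : ℝ} (hl : 0 < l)
    (hU : ∀ z ∈ F, U ρ z ≤ l) {N : ℂ → ℝ} (hN : Nice N) (hN0 : ∀ z, 0 ≤ N z) {X : ℂ}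
    (hX : X ≠ 0) :
    ∫ z, {z | ‖CT (fun w => (N w : ℂ)) z - X‖ ≤ ‖X‖ / 2}.indicator ρ z
      ≤ 3 * Real.sqrt l * (∫ z, N z) / ‖X‖ := by
  have hcont : Continuous (CT (fun w => (N w : ℂ))) := hN.ofReal.continuous_CT
  set S : Set ℂ := {z | ‖CT (fun w => (N w : ℂ)) z - X‖ ≤ ‖X‖ / 2} with hS
  have hSm : MeasurableSet S :=
    (isClosed_le (hcont.sub continuous_const).norm continuous_const).measurableSet
  have hρ' : Nice (S.indicator ρ) := weakPos_indicator hρ hSm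
  have h0' : ∀ z, 0 ≤ S.indicator ρ z := fun z => indicator_nonneg (fun z _ => h0 z) z
  have hle : ∀ z, S.indicator ρ z ≤ ρ z := fun z => indicator_le_self' (fun _ _ => h0 _) z
  refine box_estimate hρ' h0' hN hN0 hl ?_ hX ?_
  · refine U_le_of_le_on hρ' hF ?_ hl ?_
    · intro z hz
      have := hle z
      rw [hF0 z hz] at this
      exact le_antisymm this (h0' z)
    · intro z hz
      exact (U_mono hρ hρ' h0' hle z).trans (hU z hz)
  · intro z hz
    have h1 : z ∈ S := mem_of_indicator_ne_zero hz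
    exact h1

/-- weak type bound for nonnegative densities -/
theorem weak_pos : ∃ C : ℝ, 0 < C ∧ ∀ (ρ : ℂ → ℝ), Nice ρ → (∀ z, 0 ≤ ρ z) →
    ∀ (F : Set ℂ), IsClosed F → (∀ z ∉ F, ρ z = 0) → ∀ (l : ℝ), 0 < l → (∀ z ∈ F, U ρ z ≤ l) →
    ∀ (N : ℂ → ℝ), Nice N → (∀ z, 0 ≤ N z) → ∀ t : ℝ, 0 < t →
    ∫ z in {z | t < ‖CT (fun w => (N w : ℂ)) z‖}, ρ z ≤ C * Real.sqrt l * (∫ z, N z) / t := by
  obtain ⟨s, hs1, hs2⟩ := weakPos_net
  refine ⟨6 * (s.card + 1), by positivity, ?_⟩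
  intro ρ hρ h0 F hF hF0 l hl hU N hN hN0 t ht
  have hcont : Continuous (CT (fun w => (N w : ℂ))) := hN.ofReal.continuous_CT
  obtain ⟨B, hB0, hB⟩ := hN.ofReal.exists_norm_CT_le
  have hNint : 0 ≤ ∫ z, N z := integral_nonneg hN0
  -- number of annuli
  obtain ⟨J, hJ⟩ : ∃ J : ℕ, B ≤ 2 ^ J * t := by
    obtain ⟨J, hJ⟩ := pow_unbounded_of_one_lt (B / t) (by norm_num : (1 : ℝ) < 2)
    refine ⟨J, ?_⟩
    rw [div_lt_iff₀ ht] at hJ
    exact hJ.le
  set X : ℕ → ℂ → ℂ := fun j X₀ => ((2 ^ j * t : ℝ) : ℂ) * X₀ with hXdef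
  have hXnorm : ∀ j X₀, ‖X j X₀‖ = 2 ^ j * t * ‖X₀‖ := by
    intro j X₀
    rw [hXdef]
    simp only [norm_mul, Complex.norm_real, Real.norm_eq_abs]
    rw [abs_of_pos ht, abs_of_pos (by positivity : (0 : ℝ) < 2 ^ j)]
  set S : ℕ → ℂ → Set ℂ := fun j X₀ =>
    {z | ‖CT (fun w => (N w : ℂ)) z - X j X₀‖ ≤ ‖X j X₀‖ / 2} with hSdef
  have hSm : ∀ j X₀, MeasurableSet (S j X₀) := fun j X₀ =>
    (isClosed_le (hcont.sub continuous_const).norm continuous_const).measurableSet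
  have hTm : MeasurableSet {z | t < ‖CT (fun w => (N w : ℂ)) z‖} :=
    (isOpen_lt continuous_const hcont.norm).measurableSet
  -- covering
  have hcover : ∀ z, t < ‖CT (fun w => (N w : ℂ)) z‖ →
      ∃ j ∈ Finset.range J, ∃ X₀ ∈ s, z ∈ S j X₀ := by
    intro z hz
    set Y := CT (fun w => (N w : ℂ)) z with hY
    have hex : ∃ j : ℕ, ‖Y‖ ≤ 2 ^ j * t := ⟨J, (hB z).trans hJ⟩
    classical
    set j₁ := Nat.find hex with hj₁
    have h1 : ‖Y‖ ≤ 2 ^ j₁ * t := Nat.find_spec hex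
    have h1' : j₁ ≤ J := Nat.find_min' hex ((hB z).trans hJ)
    have hpos : 0 < j₁ := by
      rcases Nat.eq_zero_or_pos j₁ with h | h
      · rw [h, pow_zero, one_mul] at h1
        exact absurd hz (not_lt.mpr h1)
      · exact h
    have h2 : 2 ^ (j₁ - 1) * t < ‖Y‖ := by
      have := Nat.find_min hex (m := j₁ - 1) (by omega)
      exact not_le.mp this
    set j := j₁ - 1 with hj
    have hj1 : j₁ = j + 1 := by omega
    have hr : (0 : ℝ) < 2 ^ j * t := by positivity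
    have h3 : ‖Y‖ ≤ 2 * (2 ^ j * t) := by
      rw [hj1, pow_succ] at h1
      linarith
    obtain ⟨X₀, hX₀, hd⟩ := hs2 (((2 ^ j * t : ℝ) : ℂ)⁻¹ * Y)
      (by
        rw [norm_mul, norm_inv, Complex.norm_real, Real.norm_eq_abs, abs_of_pos hr,
          inv_mul_eq_div, le_div_iff₀ hr]
        linarith)
      (by
        rw [norm_mul, norm_inv, Complex.norm_real, Real.norm_eq_abs, abs_of_pos hr,
          inv_mul_eq_div, div_le_iff₀ hr]
        linarith)
    refine ⟨j, Finset.mem_range.mpr (by omega), X₀, hX₀, ?_⟩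
    have hne : ((2 ^ j * t : ℝ) : ℂ) ≠ 0 := by
      exact_mod_cast hr.ne'
    have h4 : Y - X j X₀ = ((2 ^ j * t : ℝ) : ℂ) * (((2 ^ j * t : ℝ) : ℂ)⁻¹ * Y - X₀) := by
      rw [hXdef]
      field_simp
    change ‖Y - X j X₀‖ ≤ ‖X j X₀‖ / 2
    rw [h4, norm_mul, hXnorm, Complex.norm_real, Real.norm_eq_abs, abs_of_pos hr]
    have := mul_le_mul_of_nonneg_left hd hr.le
    linarith
  -- pointwise bound
  have hpt : ∀ z, {z | t < ‖CT (fun w => (N w : ℂ)) z‖}.indicator ρ z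
      ≤ ∑ j ∈ Finset.range J, ∑ X₀ ∈ s, (S j X₀).indicator ρ z := by
    intro z
    have hnn : ∀ j ∈ Finset.range J, 0 ≤ ∑ X₀ ∈ s, (S j X₀).indicator ρ z := fun j _ =>
      Finset.sum_nonneg fun X₀ _ => indicator_nonneg (fun z _ => h0 z) z
    by_cases hz : t < ‖CT (fun w => (N w : ℂ)) z‖
    · obtain ⟨j, hj, X₀, hX₀, hzS⟩ := hcover z hz
      calc {z | t < ‖CT (fun w => (N w : ℂ)) z‖}.indicator ρ z
          = (S j X₀).indicator ρ z := by
            rw [indicator_of_mem hzS, indicator_of_mem]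
            exact hz
        _ ≤ ∑ X₀ ∈ s, (S j X₀).indicator ρ z :=
            Finset.single_le_sum (f := fun X₀ => (S j X₀).indicator ρ z)
              (fun X₀ _ => indicator_nonneg (fun z _ => h0 z) z) hX₀
        _ ≤ _ := Finset.single_le_sum (f := fun j => ∑ X₀ ∈ s, (S j X₀).indicator ρ z) hnn hj
    · rw [indicator_of_notMem (by exact hz)]
      exact Finset.sum_nonneg hnn
  have hint : ∀ j X₀, Integrable ((S j X₀).indicator ρ) := fun j X₀ =>
    weakPos_integrable (weakPos_indicator hρ (hSm j X₀))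
  have hint2 : ∀ j ∈ Finset.range J, Integrable (fun z => ∑ X₀ ∈ s, (S j X₀).indicator ρ z) :=
    fun j _ => integrable_finsetSum _ fun X₀ _ => hint j X₀
  calc ∫ z in {z | t < ‖CT (fun w => (N w : ℂ)) z‖}, ρ z
      = ∫ z, {z | t < ‖CT (fun w => (N w : ℂ)) z‖}.indicator ρ z :=
        (integral_indicator hTm).symm
    _ ≤ ∫ z, ∑ j ∈ Finset.range J, ∑ X₀ ∈ s, (S j X₀).indicator ρ z :=
        integral_mono (weakPos_integrable (weakPos_indicator hρ hTm)) (integrable_finsetSum _ hint2) hpt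
    _ = ∑ j ∈ Finset.range J, ∑ X₀ ∈ s, ∫ z, (S j X₀).indicator ρ z := by
        rw [integral_finsetSum _ hint2]
        refine Finset.sum_congr rfl fun j _ => ?_
        exact integral_finsetSum _ fun X₀ _ => hint j X₀
    _ ≤ ∑ j ∈ Finset.range J, ∑ X₀ ∈ s, 3 * Real.sqrt l * (∫ z, N z) / t * (1 / 2) ^ j := by
        refine Finset.sum_le_sum fun j _ => Finset.sum_le_sum fun X₀ hX₀ => ?_
        have hX₀1 : 1 ≤ ‖X₀‖ := hs1 X₀ hX₀
        have hr : (0 : ℝ) < 2 ^ j * t := by positivity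
        have hXpos : 0 < ‖X j X₀‖ := by
          rw [hXnorm]
          exact mul_pos hr (by linarith)
        refine (weakPos_box hρ h0 hF hF0 hl hU hN hN0 (norm_pos_iff.mp hXpos)).trans ?_
        have hA : 0 ≤ 3 * Real.sqrt l * (∫ z, N z) := by positivity
        have h5 : 2 ^ j * t ≤ ‖X j X₀‖ := by
          rw [hXnorm]
          nlinarith
        calc 3 * Real.sqrt l * (∫ z, N z) / ‖X j X₀‖
            ≤ 3 * Real.sqrt l * (∫ z, N z) / (2 ^ j * t) :=
              div_le_div_of_nonneg_left hA hr h5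
          _ = 3 * Real.sqrt l * (∫ z, N z) / t * (1 / 2) ^ j := by
              rw [one_div, inv_pow]
              field_simp
    _ = s.card * (3 * Real.sqrt l * (∫ z, N z) / t) * ∑ j ∈ Finset.range J, (1 / 2 : ℝ) ^ j := by
        simp only [Finset.sum_const, nsmul_eq_mul]
        rw [Finset.mul_sum]
        refine Finset.sum_congr rfl fun j _ => ?_
        ring
    _ ≤ s.card * (3 * Real.sqrt l * (∫ z, N z) / t) * 2 := by
        refine mul_le_mul_of_nonneg_left (sum_geometric_two_le J) ?_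
        positivity
    _ ≤ 6 * (s.card + 1) * Real.sqrt l * (∫ z, N z) / t := by
        have h6 : 0 ≤ Real.sqrt l * (∫ z, N z) / t := by positivity
        have h7 : 6 * ((s.card : ℝ) + 1) * Real.sqrt l * (∫ z, N z) / t
            = s.card * (3 * Real.sqrt l * (∫ z, N z) / t) * 2
              + 6 * (Real.sqrt l * (∫ z, N z) / t) := by ring
        rw [h7]
        linarith

end DH
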